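import Pool.Agent.MP_c1891a_nt.H43.Spec3
import Pool.Agent.MP_c1891a_nt.H1.Def

/-! The truncated logarithmic sum over a union of classes, for complex coefficients. -/

namespace Pool.Agent.MP_c1891a_nt.H43

open Finset Polynomial

theorem defC_pert (S : Finset (ℤ × ℤ)) (c : ℤ × ℤ → ℂ) {η₁ η₂ u : ℂ} (h₁ : ‖η₁‖ = 1)
    (h₂ : ‖η₂‖ = 1) (hu : ‖u‖ = 1) (v₁ v₂ : ℤ) (N : ℕ) (hN : 2 * AS S v₁ v₂ ≤ N) (z η : ℝ)
    (hz : 1 ≤ z) (hzN : z ^ N ≤ 1 + η) :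
    ‖(FS S c η₁ η₂ v₁ v₂).eval (u * z)‖ ≤
      ‖evS S c (η₁ * u ^ v₁) (η₂ * u ^ v₂)‖ + (∑ μ ∈ S, ‖c μ‖) * η := by
  have hu0 : u ≠ 0 := by rintro rfl; simp at hu
  have e1 : ‖evS S c (η₁ * u ^ v₁) (η₂ * u ^ v₂)‖ = ‖(FS S c η₁ η₂ v₁ v₂).eval u‖ := by
    rw [FS_eval S c η₁ η₂ v₁ v₂ hu0, norm_mul, norm_pow, hu, one_pow, one_mul]
  have e2 : ‖(FS S c η₁ η₂ v₁ v₂).eval (u * z) - (FS S c η₁ η₂ v₁ v₂).eval u‖ ≤
      (∑ μ ∈ S, ‖c μ‖) * η := by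
    unfold FS
    rw [eval_finsetSum, eval_finsetSum, ← sum_sub_distrib, sum_mul]
    refine norm_sum_le_of_le _ fun μ hμ => ?_
    have hm := (exS_cast v₁ v₂ hμ).2.trans hN
    have : (u * z) ^ exS S v₁ v₂ μ - u ^ exS S v₁ v₂ μ =
        u ^ exS S v₁ v₂ μ * ((z ^ exS S v₁ v₂ μ - 1 : ℝ) : ℂ) := by push_cast; ring
    simp only [eval_mul, eval_C, eval_pow, eval_X]
    rw [← mul_sub, this, norm_mul, norm_mul, norm_mul, norm_mul, norm_zpow, norm_zpow, norm_pow,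
      h₁, h₂, hu, one_zpow, one_zpow, one_pow, mul_one, mul_one, one_mul,
      Complex.norm_real, Real.norm_eq_abs, abs_of_nonneg (a := z ^ exS S v₁ v₂ μ - 1)
        (by linarith [one_le_pow₀ (n := exS S v₁ v₂ μ) hz])]
    refine mul_le_mul_of_nonneg_left ?_ (norm_nonneg _)
    linarith [pow_le_pow_right₀ hz hm]
  rw [e1]
  linarith [norm_le_insert' ((FS S c η₁ η₂ v₁ v₂).eval (u * z)) ((FS S c η₁ η₂ v₁ v₂).eval u)]

theorem defC (h1 : SArith) (h4 : SRoot) {S : Finset (ℤ × ℤ)} {c : ℤ × ℤ → ℂ} (hP : NoCosetS S c)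
    (f A : ℕ) (hf : 0 < f) {m : ℝ} (hm : 0 < m) : ∃ N₀ : ℕ, ∀ N : ℕ, N₀ ≤ N →
    ∀ (ξ : ℂ) (e₁ e₂ k₁ k₂ v₁ v₂ : ℤ) (g β : ℕ) (Γ : Finset ℕ), IsPrimitiveRoot ξ N → 0 < g →
      g ∣ N → Nat.Coprime β N → e₁ = β * v₁ + (N / g : ℕ) * k₁ → e₂ = β * v₂ + (N / g : ℕ) * k₂ →
      (v₁ ≠ 0 ∨ v₂ ≠ 0) → (g * (v₁.natAbs + v₂.natAbs)) ^ 2 ≤ 16 * N → Γ ⊆ Cop N →
      (∀ j ∈ Γ, ∀ j' ∈ Cop N, j ≡ j' [MOD Nat.gcd f N] → j' ∈ Γ) →
      ∑ j ∈ Γ, (FS S c ((ξ ^ j) ^ ((N / g : ℕ) * k₁)) ((ξ ^ j) ^ ((N / g : ℕ) * k₂))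
        v₁ v₂).logMahlerMeasure - m * N.totient ≤
      ∑ j ∈ Γ, Real.log (max ‖evS S c ((ξ ^ e₁) ^ j) ((ξ ^ e₂) ^ j)‖ ((N : ℝ) ^ A)⁻¹) := by
  classical
  obtain ⟨N₁, hN₁⟩ := h1 (1 / 10) (by norm_num)
  obtain ⟨H, hH'⟩ : ∃ H, H = ∑ μ ∈ S, ‖c μ‖ := ⟨_, rfl⟩
  have hH : 0 ≤ H := hH' ▸ sum_nonneg fun _ _ => norm_nonneg _
  obtain ⟨N₂, hN₂⟩ := def_asym m (8 * f * RS S) (Real.log (48 * (H + 1))) (A + 3)
    hm (by positivity) (Real.log_nonneg (by linarith)) (by positivity)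
  refine ⟨max 2 (max N₁ N₂),
    fun N hN ξ e₁ e₂ k₁ k₂ v₁ v₂ g β Γ hξ hg0 hgN hβ hk0 hk1 hv hgv hΓ hcl => ?_⟩
  have hN2 : 2 ≤ N := (le_max_left _ _).trans hN
  have hN0 : 0 < N := by omega
  obtain ⟨hφ, hd⟩ := hN₁ N (((le_max_left _ _).trans (le_max_right _ _)).trans hN)
  have hξ0 : ξ ≠ 0 := hξ.ne_zero hN0.ne'
  have hξ1 : ‖ξ‖ = 1 := hξ.norm'_eq_one hN0.ne'
  have hX : IsPrimitiveRoot (ξ ^ β) N := hξ.pow_of_coprime β hβ
  have hpt : ∀ (j : ℕ) (x v c : ℤ), x = β * v + c →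
      (ξ ^ x) ^ j = (ξ ^ j) ^ c * ((ξ ^ β) ^ j) ^ v := fun j x v c hx => by
    simp only [← zpow_natCast, ← zpow_mul, ← zpow_add₀ hξ0, hx]
    exact congrArg _ (by ring)
  have hN1 : (1 : ℝ) ≤ N := by exact_mod_cast hN0
  set τ : ℝ := ((N : ℝ) ^ A)⁻¹ with hτ
  have hτ0 : 0 < τ := by positivity
  have hτ1 : τ ≤ 1 := inv_le_one_of_one_le₀ (one_le_pow₀ hN1)
  set η : ℝ := τ / ((H + 1) * N) with hη
  have hη0 : 0 < η := by positivity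
  have hη1 : η ≤ 1 := by
    rw [hη, div_le_one (by positivity)]
    nlinarith
  have hmod : ∀ (j : ℕ) (c : ℤ), (ξ ^ (j % g)) ^ ((N / g : ℕ) * c) = (ξ ^ j) ^ ((N / g : ℕ) * c) :=
    fun j c => by
    rw [zpow_mul, zpow_mul, zpow_natCast, zpow_natCast]
    refine congrArg (· ^ c) ?_
    conv_rhs => rw [← Nat.mod_add_div j g, pow_add, mul_pow, ← pow_mul, ← pow_mul ξ (g * (j / g)),
      mul_right_comm, Nat.mul_div_cancel' hgN, pow_mul ξ N, hξ.pow_eq_one, one_pow, mul_one,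
      pow_mul]
  obtain ⟨g', hg'⟩ : ∃ g', g' = Nat.lcm g (Nat.gcd f N) := ⟨_, rfl⟩
  have hf0 : 0 < Nat.gcd f N := Nat.gcd_pos_of_pos_left _ hf
  have g1 : g ∣ g' := hg' ▸ Nat.dvd_lcm_left _ _
  have g2 : Nat.gcd f N ∣ g' := hg' ▸ Nat.dvd_lcm_right _ _
  have g3 : g' ≤ g * f := hg' ▸ (Nat.le_of_dvd (Nat.mul_pos hg0 hf0) (Nat.lcm_dvd_mul _ _)).trans
    (Nat.mul_le_mul_left _ (Nat.gcd_le_left _ hf))
  have hmod' : ∀ (j : ℕ) (c : ℤ),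
      (ξ ^ (j % g')) ^ ((N / g : ℕ) * c) = (ξ ^ j) ^ ((N / g : ℕ) * c) := fun j c => by
    rw [← hmod, Nat.mod_mod_of_dvd _ g1, hmod]
  obtain ⟨F, hF⟩ : ∃ F : ℕ → ℂ[X], F = fun j => FS S c ((ξ ^ j) ^ ((N / g : ℕ) * k₁))
    ((ξ ^ j) ^ ((N / g : ℕ) * k₂)) v₁ v₂ := ⟨_, rfl⟩
  obtain ⟨z, hz1, hzN, hne, hlow⟩ := def_core h4 N g' (2 * AS S v₁ v₂) hN0
    (hg' ▸ Nat.lcm_pos hg0 hf0) (hg' ▸ Nat.lcm_dvd hgN (Nat.gcd_dvd_right _ _)) _ hX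
    (fun j => if ∃ i ∈ Γ, i ≡ j [MOD Nat.gcd f N] then F j else 1)
    (fun j => by
      split_ifs
      · rw [hF]
        exact hP.FS_ne (zpow_ne_zero _ (pow_ne_zero _ hξ0)) (zpow_ne_zero _ (pow_ne_zero _ hξ0)) hv
      · exact one_ne_zero)
    (fun j => by
      split_ifs
      · rw [hF]
        exact FS_deg _ _ _ _ _ _
      · simp)
    (fun j => by simp only [hF, hmod', Nat.ModEq, Nat.mod_mod_of_dvd _ g2]) η hη0 hη1
  have hin : ∀ j ∈ Γ, (if ∃ i ∈ Γ, i ≡ j [MOD Nat.gcd f N] then F j else 1) = F j :=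
    fun j hj => if_pos ⟨j, hj, rfl⟩
  have hout : ∀ j ∈ Cop N, j ∉ Γ → (if ∃ i ∈ Γ, i ≡ j [MOD Nat.gcd f N] then F j else 1) = 1 :=
    fun j hj h => if_neg fun ⟨i, a, b⟩ => h (hcl i a j hj b)
  rw [← sum_subset hΓ fun j a b => by rw [hout j a b, logMahlerMeasure_one],
    ← sum_subset hΓ fun j a b => by rw [hout j a b]; simp,
    sum_congr rfl fun j hj => by rw [hin j hj],
    sum_congr (s₁ := Γ) (f := fun j => Real.log _) rfl fun j hj => by rw [hin j hj]] at hlow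
  set n : ℕ := g' * (2 * AS S v₁ v₂) with hn
  have hn2 : (n : ℝ) ^ 2 ≤ (8 * f * RS S) ^ 2 * N := by
    have a1 : n ≤ 2 * f * RS S * (g * (v₁.natAbs + v₂.natAbs)) := by
      rw [hn, AS]
      calc g' * (2 * (RS S * (v₁.natAbs + v₂.natAbs)))
          ≤ g * f * (2 * (RS S * (v₁.natAbs + v₂.natAbs))) := Nat.mul_le_mul_right _ g3
        _ = _ := by ring
    have a2 : n ^ 2 ≤ (8 * f * RS S) ^ 2 * N :=
      calc n ^ 2 ≤ (2 * f * RS S) ^ 2 * (g * (v₁.natAbs + v₂.natAbs)) ^ 2 := by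
            rw [← mul_pow]; exact Nat.pow_le_pow_left a1 2
        _ ≤ (2 * f * RS S) ^ 2 * (16 * N) := Nat.mul_le_mul_left _ hgv
        _ = _ := by ring
    exact_mod_cast a2
  obtain ⟨hnN, herr⟩ := hN₂ N (((le_max_right _ _).trans (le_max_right _ _)).trans hN) n
    N.divisors.card N.totient (by positivity) hn2 (by positivity) hd hφ
  have haN : 2 * AS S v₁ v₂ ≤ N :=
    (Nat.le_mul_of_pos_left _ (hg' ▸ Nat.lcm_pos hg0 hf0)).trans (by exact_mod_cast hnN : n ≤ N)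
  have hup : ∀ j ∈ Γ, Real.log ‖(F j).eval ((ξ ^ β) ^ j * z)‖ ≤
      Real.log (max ‖evS S c ((ξ ^ e₁) ^ j) ((ξ ^ e₂) ^ j)‖ τ) + 1 / N := by
    intro j hj
    have a0 := hne j (hΓ hj)
    rw [hin j hj] at a0
    have a1 := defC_pert S c (η₁ := (ξ ^ j) ^ ((N / g : ℕ) * k₁))
      (η₂ := (ξ ^ j) ^ ((N / g : ℕ) * k₂)) (u := (ξ ^ β) ^ j) (by simp [hξ1]) (by simp [hξ1])
      (by simp [hξ1]) v₁ v₂ N haN z η hz1 hzN
    rw [← hpt j _ _ _ hk0, ← hpt j _ _ _ hk1, ← hH'] at a1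
    have a2 : H * η ≤ τ * (1 / N) := by
      calc H * η ≤ (H + 1) * η := by gcongr; linarith
        _ = τ * (1 / N) := by rw [hη]; field_simp
    set M := max ‖evS S c ((ξ ^ e₁) ^ j) ((ξ ^ e₂) ^ j)‖ τ with hM'
    have hM0 : 0 < M := lt_max_of_lt_right hτ0
    have a3 : ‖evS S c ((ξ ^ e₁) ^ j) ((ξ ^ e₂) ^ j)‖ ≤ M := le_max_left _ _
    have a4 : τ * (1 / N) ≤ M * (1 / N) := by gcongr; exact le_max_right _ _
    rw [hF] at a0 ⊢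
    have a5 := Real.log_le_log (norm_pos_iff.2 a0) (a1.trans (by linarith : _ ≤ M * (1 + 1 / N)))
    rw [Real.log_mul hM0.ne' (by positivity)] at a5
    linarith [Real.log_le_sub_one_of_pos (by positivity : (0 : ℝ) < 1 + 1 / N)]
  have hsum := sum_le_sum hup
  rw [sum_add_distrib, sum_const, nsmul_eq_mul] at hsum
  have hc : (Γ.card : ℝ) * (1 / N) ≤ 1 := by
    have : (Γ.card : ℝ) ≤ N := by
      exact_mod_cast (card_le_card hΓ).trans ((card_filter_le _ _).trans (card_range N).le)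
    rw [mul_one_div, div_le_one (by positivity)]
    exact this
  have hl : Real.log (3 * N / (η / (8 * ((n : ℝ) + 1)))) ≤
      Real.log (48 * (H + 1)) + (A + 3) * Real.log N := by
    have e : Real.log (48 * (H + 1)) + (A + 3) * Real.log N =
        Real.log (48 * (H + 1) * N ^ (A + 3)) := by
      rw [Real.log_mul (x := 48 * (H + 1)) (by positivity) (by positivity), Real.log_pow]
      push_cast; ring
    rw [e]
    refine Real.log_le_log (by positivity) ?_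
    calc 3 * N / (η / (8 * ((n : ℝ) + 1))) = 24 * (H + 1) * N ^ (A + 2) * (n + 1) := by
          rw [hη, hτ]; field_simp; ring
      _ ≤ 24 * (H + 1) * N ^ (A + 2) * (N + N) := by gcongr
      _ = _ := by ring
  have hl2 : (n : ℝ) * (N.divisors.card * Real.log (3 * N / (η / (8 * ((n : ℝ) + 1))))) ≤
      n * (N.divisors.card * (Real.log (48 * (H + 1)) + (A + 3) * Real.log N)) := by gcongr
  simp only [hF] at hlow hsum
  linarith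

/-- a short representation of a torsion point. -/
theorem defC_rep (h2 : SPig2) (h3 : SRep1) {N : ℕ} (hN2 : 2 ≤ N) {e : Fin 2 → ℤ} (he : Gen N e) :
    ∃ (k₁ k₂ v₁ v₂ : ℤ) (g β : ℕ), 0 < g ∧ g ∣ N ∧ Nat.Coprime β N ∧
      e 0 = β * v₁ + (N / g : ℕ) * k₁ ∧ e 1 = β * v₂ + (N / g : ℕ) * k₂ ∧ IsCoprime v₁ v₂ ∧
      (g * (v₁.natAbs + v₂.natAbs)) ^ 2 ≤ 16 * N := by
  obtain ⟨κ, r, hr0, hr, hr2⟩ := h2 N hN2 e he
  have hr0' : r 0 ≠ 0 ∨ r 1 ≠ 0 := by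
    by_contra hc
    push Not at hc
    exact hr0 (funext fun i => by fin_cases i <;> simp [hc.1, hc.2])
  have hgcd : 0 < Int.gcd (r 0) (r 1) := Int.gcd_pos_iff.2 hr0'
  obtain ⟨h, v₁, v₂, hh0, hco, e1, e2⟩ := Int.exists_gcd_one' hgcd
  have hco' : IsCoprime v₁ v₂ := Int.isCoprime_iff_gcd_eq_one.2 hco
  obtain ⟨g, β, k, hg0, hgN, hgh, hβ, hk⟩ := h3 2 N (by omega) e he ![v₁, v₂]
    (fun m hm => hco'.isUnit_of_dvd' (hm 0) (hm 1) |>.dvd) h κ (fun i => by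
      fin_cases i
      · simpa [mul_comm, ← e1] using hr 0
      · simpa [mul_comm, ← e2] using hr 1)
  refine ⟨k 0, k 1, v₁, v₂, g, β, hg0, hgN, hβ, hk 0, hk 1, hco', ?_⟩
  have hgh' : g ≤ h := Nat.le_of_dvd hh0 (by exact_mod_cast hgh)
  have a1 : g * (v₁.natAbs + v₂.natAbs) ≤ (r 0).natAbs + (r 1).natAbs := by
    rw [e1, e2, Int.natAbs_mul, Int.natAbs_mul, Int.natAbs_natCast, ← add_mul, mul_comm]
    exact Nat.mul_le_mul_left _ hgh'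
  have a2 : ∀ i, (r i).natAbs ^ 2 ≤ 4 * N := fun i => by
    have := hr2 i
    rw [← sq_abs, ← Int.natCast_natAbs] at this
    exact_mod_cast this
  refine (Nat.pow_le_pow_left a1 2).trans ?_
  have := a2 0
  have := a2 1
  generalize (r 0).natAbs = p at *
  generalize (r 1).natAbs = q at *
  zify at *
  nlinarith [sq_nonneg ((p : ℤ) - q)]

end Pool.Agent.MP_c1891a_nt.H43
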