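import Pool.Agent.MP_c1891a_nt.H43.Spec3
import Pool.Agent.MP_c1891a_nt.H22.Pos

/-! Positivity of the Mahler measures of the restrictions, for algebraic coefficients. -/

namespace Pool.Agent.MP_c1891a_nt.H43

open Finset Polynomial Module

theorem FS_int {F : Type} [Field F] {S : Finset (ℤ × ℤ)} {c : ℤ × ℤ → F}
    (hc : ∀ μ ∈ S, IsIntegral ℤ (c μ)) {η₁ η₂ : F} {N : ℕ} (hN : 0 < N) (h₁ : η₁ ^ N = 1)
    (h₂ : η₂ ^ N = 1) (v₁ v₂ : ℤ) : IntC (FS S c η₁ η₂ v₁ v₂) := by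
  intro i
  rw [FS, finsetSum_coeff]
  refine IsIntegral.sum _ fun μ hμ => ?_
  rw [coeff_C_mul_X_pow]
  split_ifs
  · exact ((hc μ hμ).mul (int_zpow hN h₁ _)).mul (int_zpow hN h₂ _)
  · exact isIntegral_zero

theorem posC (h1 : SManyC) (h2 : SFrob) (h3 : SFin) {K : Type} [Field K] [NumberField K]
    (ι₀ : K →+* ℂ) {S : Finset (ℤ × ℤ)} {c : ℤ × ℤ → K} {R : LP}
    (hc : ∀ μ ∈ S, IsIntegral ℤ (c μ)) (hc0 : ∀ μ ∈ S, c μ ≠ 0)
    (hN : NoCosetS S fun μ => ι₀ (c μ)) (hS : 2 ≤ S.card) (hR : NoCoset R)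
    (hz : ∀ (τ : K →+* ℂ) (x y : ℂ), x ≠ 0 → y ≠ 0 → evS S (fun μ => τ (c μ)) x y = 0 →
      ev R x y = 0) :
    ∃ (m₀ : ℝ) (B : ℕ), 0 < m₀ ∧ ∀ (L : Type) [Field L] [NumberField L] [Algebra K L]
      (ι : L →+* ℂ) (N : ℕ) (η₁ η₂ : L) (v₁ v₂ : ℤ), (∀ a, ι (algebraMap K L a) = ι₀ a) → 0 < N →
      η₁ ^ N = 1 → η₂ ^ N = 1 → IsCoprime v₁ v₂ →
      (|v₁| ≤ B ∧ |v₂| ≤ B ∧ ∃ s : ℕ, 0 < s ∧ s ≤ B ∧ (ι η₁ ^ (-v₂) * ι η₂ ^ v₁) ^ s = 1) ∨
      m₀ * finrank ℚ L ≤ ∑ σ : L →+* ℂ,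
        (FS S (fun μ => σ (algebraMap K L (c μ))) (σ η₁) (σ η₂) v₁ v₂).logMahlerMeasure := by
  obtain ⟨B₁, hB₁⟩ := h3 R R hR hR
  obtain ⟨l, hl1, hl⟩ := Nat.exists_infinite_primes (3 * Hn R + B₁ + 1)
  have hZ : (ZS R R (fun _ => 1) ![1, 0, l, 0] ![0, 1, 0, l]).Finite := by
    by_contra hi
    obtain ⟨m, a, b, c, d, hm, -, ha, -, -, -, e, -⟩ := hB₁ _ _ _ (fun _ => ⟨1, one_pos, one_pow 1⟩)
      ⟨0, 1, by simp⟩ (by simp) (by simp [hl.ne_zero]) hi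
    simp only [Matrix.cons_val, mul_one, mul_zero, add_zero] at e
    have : (l : ℤ) ≤ m * l := le_mul_of_one_le_left (by positivity) (by exact_mod_cast hm)
    have := le_abs_self a
    omega
  obtain ⟨c₀, B, hc₀, hB⟩ := h1 S _ (fun μ hμ => (map_ne_zero ι₀).2 (hc0 μ hμ)) hN hS hZ.toFinset
  have hl0 : (0 : ℝ) < l := by exact_mod_cast hl.pos
  have h30 : 0 < Real.log 3 := Real.log_pos (by norm_num)
  refine ⟨c₀ * Real.log 3 / (2 * l * Rn R + 1), B, by positivity,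
    fun L _ _ _ ι N η₁ η₂ v₁ v₂ hι hN0 e₁ e₂ hv => ?_⟩
  have t : ∀ (σ : L →+* ℂ) {η : L}, η ^ N = 1 → Tor (σ η) := fun σ η e =>
    ⟨N, hN0, by rw [← map_pow, e, map_one]⟩
  refine (hB (ι η₁) (ι η₂) v₁ v₂ (t ι e₁) (t ι e₂) hv).imp id ?_
  rintro ⟨s, hs, hs2, hs3⟩
  have hv0 : v₁ ≠ 0 ∨ v₂ ≠ 0 := by
    by_contra h
    push Not at h
    rw [h.1, h.2] at hv
    exact not_isCoprime_zero_zero hv
  have hu : ∀ μ : ℤ × ℤ, (η₁ ^ μ.1 * η₂ ^ μ.2) ^ N = 1 := fun μ => by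
    rw [mul_pow, pos_zpow e₁, pos_zpow e₂, one_mul]
  let O := integralClosure ℤ L
  let u : ℤ × ℤ → O := fun μ => ⟨η₁ ^ μ.1 * η₂ ^ μ.2,
    IsIntegral.of_pow hN0 (by rw [hu]; exact isIntegral_one)⟩
  let φ : O →+* L := O.val.toRingHom
  obtain ⟨W, hW⟩ := pos_frob hl R.coeff.support R.coeff (posT R u v₁ v₂)
  have hW' : posF R u v₁ v₂ l - posF R u v₁ v₂ 1 ^ l = l * W := by
    simpa only [posF, pow_one] using hW
  have hint : ∀ g : O[X], IntC (g.map φ) := fun g i => by rw [coeff_map]; exact (g.coeff i).2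
  have hσ : ∀ (σ : L →+* ℂ) (j : ℕ), ((posF R u v₁ v₂ j).map φ).map σ =
      posF R (fun μ => σ η₁ ^ μ.1 * σ η₂ ^ μ.2) v₁ v₂ j := fun σ j => by
    rw [pos_map, pos_map]
    congr 1
    funext μ
    simp [φ, u]
  obtain ⟨f, hf⟩ : ∃ f : L[X], f = FS S (fun μ => algebraMap K L (c μ)) η₁ η₂ v₁ v₂ := ⟨_, rfl⟩
  have hfσ : ∀ σ : L →+* ℂ, f.map σ =
      FS S (fun μ => σ (algebraMap K L (c μ))) (σ η₁) (σ η₂) v₁ v₂ := fun σ => by rw [hf, FS_map]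
  have hfι : f.map ι = FS S (fun μ => ι₀ (c μ)) (ι η₁) (ι η₂) v₁ v₂ := by simp only [hfσ, hι]
  have hf0 : f.map ι ≠ 0 := hfι ▸ hN.FS_ne (t ι e₁).ne_zero (t ι e₂).ne_zero hv0
  have hRr : ∀ (σ : L →+* ℂ) (α : ℂ), α ≠ 0 → (f.map σ).IsRoot α →
      ev R (σ η₁ * α ^ v₁) (σ η₂ * α ^ v₂) = 0 := by
    intro σ α h0 hα
    rw [IsRoot, hfσ, FS_eval _ _ _ _ _ _ h0] at hα
    exact hz (σ.comp (algebraMap K L)) _ _ (mul_ne_zero (t σ e₁).ne_zero (zpow_ne_zero _ h0))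
      (mul_ne_zero (t σ e₂).ne_zero (zpow_ne_zero _ h0))
      ((mul_eq_zero.1 hα).resolve_left (pow_ne_zero _ h0))
  have hWσ : ∀ (σ : L →+* ℂ) (α : ℂ), α ≠ 0 → (f.map σ).IsRoot α →
      l * ((W.map φ).map σ).eval α = (((posF R u v₁ v₂ l).map φ).map σ).eval α := by
    intro σ α h0 hα
    have e : (((posF R u v₁ v₂ 1).map φ).map σ).eval α = 0 := by
      rw [hσ, pos_eval _ _ _ _ _ _ h0, pow_one, pow_one, pow_one, hRr σ α h0 hα, mul_zero]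
    have := congrArg (fun g : O[X] => ((g.map φ).map σ).eval α) hW'
    simp only [Polynomial.map_sub, Polynomial.map_pow, Polynomial.map_mul, Polynomial.map_natCast,
      eval_sub, eval_pow, eval_mul, eval_natCast, e, zero_pow hl.ne_zero, sub_zero] at this
    exact this.symm
  have hX : ∀ (σ : L →+* ℂ) (α : ℂ),
      (((X * W).map φ).map σ).eval α = α * ((W.map φ).map σ).eval α := fun σ α => by simp
  have key := h2 L ι f ((X * W).map φ) (l * (2 * A1 R v₁ v₂) + 1) s.card (1 / 3)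
    (fun h => hf0 (by rw [h, Polynomial.map_zero]))
    (hf ▸ FS_int (fun μ hμ => (int_map _).2 (hc μ hμ)) hN0 e₁ e₂ _ _) (hint _) ?_ (by norm_num)
    (by norm_num) ?_ ⟨s, hfι ▸ hs, le_rfl, ?_⟩
  · simp only [hfσ, one_div_one_div] at key
    generalize ∑ σ : L →+* ℂ, (FS S (fun μ => σ (algebraMap K L (c μ))) (σ η₁) (σ η₂)
      v₁ v₂).logMahlerMeasure = M at key ⊢
    have ht : (0 : ℝ) < finrank ℚ L := by exact_mod_cast finrank_pos
    have hn : (1 : ℝ) ≤ (v₁.natAbs + v₂.natAbs : ℕ) := by exact_mod_cast (by omega)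
    rw [A1] at key
    generalize v₁.natAbs + v₂.natAbs = n at key hn hs2
    push_cast at key
    have a1 := mul_le_mul_of_nonneg_right hs2 (mul_pos ht h30).le
    have hM : 0 ≤ M := by
      by_contra h
      have b1 : (0 : ℝ) < l * (2 * (Rn R * n)) + 1 := by positivity
      have b2 := mul_neg_of_pos_of_neg b1 (not_le.1 h)
      have b3 : (0 : ℝ) ≤ s.card * finrank ℚ L * Real.log 3 := by positivity
      linarith
    rw [div_mul_eq_mul_div, div_le_iff₀ (by positivity)]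
    refine le_of_mul_le_mul_left ?_ (by linarith : (0 : ℝ) < n)
    nlinarith [mul_le_mul_of_nonneg_right hn hM]
  · have hlL : (l : L) ≠ 0 := by exact_mod_cast hl.ne_zero
    have := congrArg (Polynomial.map φ) hW'
    rw [Polynomial.map_mul, Polynomial.map_natCast, ← C_eq_natCast] at this
    rw [Polynomial.map_mul, Polynomial.map_X, add_comm]
    refine natDegree_mul_le.trans (add_le_add natDegree_X_le ?_)
    rw [← natDegree_C_mul hlL, ← this]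
    refine natDegree_map_le.trans ((natDegree_sub_le _ _).trans (max_le (pos_deg _ _ _ _ _) ?_))
    exact natDegree_pow_le.trans (Nat.mul_le_mul_left _ (by simpa using pos_deg R u v₁ v₂ 1))
  · intro σ α hα
    rw [hX]
    by_cases h0 : α = 0
    · simp [h0]
    have e := congrArg norm (hWσ σ α h0 hα)
    rw [norm_mul, Complex.norm_natCast, hσ] at e
    have b := pos_bound R (u := fun μ => σ η₁ ^ μ.1 * σ η₂ ^ μ.2) (fun μ => by
      simp [(t σ e₁).norm, (t σ e₂).norm]) v₁ v₂ l α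
    rw [← e] at b
    have hH : 3 * (Hn R : ℝ) ≤ l := by exact_mod_cast (by omega : 3 * Hn R ≤ l)
    have hp : (0 : ℝ) ≤ max 1 ‖α‖ ^ (l * (2 * A1 R v₁ v₂)) := by positivity
    rw [norm_mul, pow_succ, mul_comm ‖α‖, ← mul_assoc]
    refine mul_le_mul (le_of_mul_le_mul_left (b.trans ?_) hl0) (le_max_right _ _) (norm_nonneg _)
      (by positivity)
    nlinarith
  · intro α hα h0
    obtain ⟨hα0, hαZ⟩ := hs3 α hα
    have hr : (f.map ι).IsRoot α := (mem_roots hf0).1 (Multiset.mem_of_le (hfι ▸ hs) hα)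
    have e := hWσ ι α hα0 hr
    rw [hX] at h0
    rw [(mul_eq_zero.1 h0).resolve_left hα0, mul_zero, hσ, pos_eval _ _ _ _ _ _ hα0] at e
    refine hαZ (hZ.mem_toFinset.2 ⟨mul_ne_zero (t ι e₁).ne_zero (zpow_ne_zero _ hα0),
      mul_ne_zero (t ι e₂).ne_zero (zpow_ne_zero _ hα0), ?_, ?_⟩)
    · simpa using hRr ι α hα0 hr
    · simpa [hα0] using e.symm

end Pool.Agent.MP_c1891a_nt.H43
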