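import Pool.Agent.MP_c1891a_nt.H43.Spk
import Pool.Agent.MP_c1891a_nt.H43.PosC
import Pool.Agent.MP_c1891a_nt.H43.DefC

/-! A unit value gives a very small value of the norm polynomial at a conjugate point. -/

namespace Pool.Agent.MP_c1891a_nt.H43

open Finset Filter Topology Module

theorem cop_card (N : ℕ) : (Cop N).card = N.totient := by
  rw [Nat.totient, Cop]
  simp only [Nat.coprime_comm]

/-- no torsion point of large order on a curve without cosets. -/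
theorem no_tor (h2 : SCountG) (h3 : SArith) (h4 : SField) {R : LP} (hc : NoCoset R) :
    ∃ N₀ : ℕ, ∀ N : ℕ, N₀ ≤ N → ∀ (ξ : ℂ) (e : Fin 2 → ℤ), IsPrimitiveRoot ξ N → Gen N e →
      ev R (ξ ^ e 0) (ξ ^ e 1) ≠ 0 := by
  obtain ⟨C, A, N₁, hC⟩ := h2 R hc (1 / 4) (by norm_num)
  obtain ⟨N₃, hA⟩ := h3 (1 / 2) (by norm_num)
  have ht : Tendsto (fun N : ℕ => (N : ℝ) ^ (1 / 4 : ℝ)) atTop atTop :=
    (tendsto_rpow_atTop (by norm_num)).comp tendsto_natCast_atTop_atTop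
  obtain ⟨N₄, hN₄⟩ := eventually_atTop.1 (ht.eventually_gt_atTop C)
  refine ⟨N₁ + N₃ + N₄ + 1, fun N hN ξ e hξ he h0 => ?_⟩
  have hN0 : 0 < N := by omega
  have hNp : (0 : ℝ) < N := by positivity
  have e2 := spike_card R hN0 hξ he _ _ (hC N (by omega))
  obtain ⟨L, _, _, ι, ω, hι, -, hG⟩ := h4.1 N ξ hN0 hξ
  have z : ev R (ω ^ e 0) (ω ^ e 1) = 0 := ι.injective (by
    rw [ev_map, map_zpow₀, map_zpow₀, hι, h0, map_zero])
  have e3 := hG fun x => ‖ev R (x ^ e 0) (x ^ e 1)‖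
  rw [sum_eq_zero fun σ _ => by
    rw [← map_zpow₀, ← map_zpow₀, ← ev_map, z, map_zero, norm_zero]] at e3
  rw [filter_true_of_mem fun j hj => by
    rw [spike_pow, spike_pow,
      (sum_eq_zero_iff_of_nonneg fun _ _ => norm_nonneg _).1 e3.symm j hj]
    positivity, cop_card] at e2
  have e4 := (hA N (by omega)).1
  have a5 : (N : ℝ) ^ (1 - 1 / 2 : ℝ) = (N : ℝ) ^ (1 / 4 : ℝ) * (N : ℝ) ^ (1 / 4 : ℝ) := by
    rw [← Real.rpow_add hNp]; norm_num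
  have a7 := mul_lt_mul_of_pos_right (hN₄ N (by omega)) (Real.rpow_pos_of_pos hNp (1 / 4))
  linarith

theorem unit_sum (h : SNormP) {L : Type} [Field L] [NumberField L] (ι : L →+* ℂ) {u : L}
    (hu : H79.IsU (ι u)) : u ≠ 0 ∧ ∑ σ : L →+* ℂ, Real.log ‖σ u‖ = 0 := by
  obtain ⟨a, b, c⟩ := hu
  have u0 : u ≠ 0 := (map_ne_zero ι).1 a
  rw [← map_inv₀] at c
  have p : ∀ σ : L →+* ℂ, ‖σ u‖ ≠ 0 := fun σ => norm_ne_zero_iff.2 ((map_ne_zero σ).2 u0)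
  have e1 := Real.log_nonneg ((h L).1 u ((int_map ι).1 b) u0)
  have e2 := Real.log_nonneg ((h L).1 _ ((int_map ι).1 c) (inv_ne_zero u0))
  simp only [map_inv₀, norm_inv, prod_inv_distrib, Real.log_inv] at e2
  rw [Real.log_prod fun σ _ => p σ] at e1 e2
  exact ⟨u0, by linarith⟩

theorem norm_evS_le (S : Finset (ℤ × ℤ)) (c : ℤ × ℤ → ℂ) {x y : ℂ} (hx : ‖x‖ = 1) (hy : ‖y‖ = 1) :
    ‖evS S c x y‖ ≤ ∑ μ ∈ S, ‖c μ‖ :=
  norm_sum_le_of_le _ fun μ _ => by simp [hx, hy]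

theorem spkC (a1 : SArith) (a2 : SPig2) (a3 : SRep1) (a4 : SRoot) (a5 : SManyC) (a6 : SFrob)
    (a7 : SFin) (a8 : SEmb) (a9 : SCountG) (a10 : SField) (a11 : SNormP)
    {K : Type} [Field K] [NumberField K]
    (ι₀ : K →+* ℂ) {S : Finset (ℤ × ℤ)} {c : ℤ × ℤ → K} {R : LP}
    (hc : ∀ μ ∈ S, IsIntegral ℤ (c μ)) (hc0 : ∀ μ ∈ S, c μ ≠ 0) (hS : 2 ≤ S.card) (hR : NoCoset R)
    (hN : ∀ τ : K →+* ℂ, NoCosetS S fun μ => τ (c μ))
    (hz : ∀ x y : ℂ, x ≠ 0 → y ≠ 0 → ev R x y = ∏ τ : K →+* ℂ, evS S (fun μ => τ (c μ)) x y) :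
    SpkU (fun x y => H79.IsU (evS S (fun μ => ι₀ (c μ)) x y)) R := by
  classical
  obtain ⟨f, hf, hE⟩ := a8 K ι₀
  obtain ⟨m₀, B, hm₀, hB⟩ := posC a5 a6 a7 ι₀ hc hc0 (hN ι₀) hS hR fun τ x y hx hy h => by
    rw [hz x y hx hy, prod_eq_zero (mem_univ τ) h]
  obtain ⟨C, A, N₁, hC⟩ := a9 R hR (1 / 2000) (by norm_num)
  obtain ⟨D, hD⟩ : ∃ D : ℕ, D = Fintype.card (K →+* ℂ) := ⟨_, rfl⟩
  have hD0 : (0 : ℝ) < D := by
    have : Nonempty (K →+* ℂ) := ⟨ι₀⟩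
    rw [hD]
    exact_mod_cast Fintype.card_pos
  choose N₂ hN₂ using fun τ : K →+* ℂ =>
    defC a1 a4 (hN τ) f (A + 1) hf (m := m₀ / (2 * D)) (by positivity)
  obtain ⟨N₃, hA⟩ := a1 (1 / 4000) (by norm_num)
  have ht : Tendsto (fun N : ℕ => m₀ / (2 * D) * (N : ℝ) ^ (1 / 4000 : ℝ)) atTop atTop :=
    ((tendsto_rpow_atTop (by norm_num)).comp tendsto_natCast_atTop_atTop).const_mul_atTop
      (by positivity)
  obtain ⟨N₄, hN₄⟩ := eventually_atTop.1 (ht.eventually_gt_atTop C)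
  obtain ⟨N₅, hN₅⟩ := no_tor a9 a1 a10 hR
  obtain ⟨N₆, hN₆⟩ := exists_nat_ge (∏ τ : K →+* ℂ, max 1 (∑ μ ∈ S, ‖τ (c μ)‖))
  refine ⟨B * B, N₁ + (∑ τ, N₂ τ) + N₃ + N₄ + N₅ + N₆ + 2, fun N hN' ξ e hξ he hU hrel => ?_⟩
  have hN0 : 0 < N := by omega
  have hN1 : (1 : ℝ) ≤ N := by exact_mod_cast hN0
  have hNp : (0 : ℝ) < N := by positivity
  have hξ0 : ξ ≠ 0 := hξ.ne_zero hN0.ne'
  have hξ1 : ‖ξ‖ = 1 := hξ.norm'_eq_one hN0.ne'
  obtain ⟨k₁, k₂, v₁, v₂, g, β, hg0, hgN, hβ, hk0, hk1, hco, hgv⟩ := defC_rep a2 a3 (by omega) he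
  have hv : v₁ ≠ 0 ∨ v₂ ≠ 0 := by
    by_contra h
    push Not at h
    rw [h.1, h.2] at hco
    exact not_isCoprime_zero_zero hco
  obtain ⟨L, _, _, _, ι, ξ', Γ, hι, hξ', hrk, hΓ, hcl, hG⟩ := hE N ξ hN0 hξ
  have hp : ξ' ^ N = 1 := ι.injective (by rw [map_pow, hξ', hξ.pow_eq_one, map_one])
  rcases hB L ι N (ξ' ^ ((N / g : ℕ) * k₁)) (ξ' ^ ((N / g : ℕ) * k₂)) v₁ v₂ hι hN0
    (pos_zpow hp _) (pos_zpow hp _) hco with ⟨b1, b2, s, hs0, hsB, hs⟩ | hM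
  · exfalso
    have hsB' : |(s : ℤ)| ≤ B := by rw [abs_of_nonneg (by positivity)]; exact_mod_cast hsB
    refine hrel ⟨-v₂ * s, v₁ * s, ?_, ?_, ?_, ?_⟩
    · have : (s : ℤ) ≠ 0 := by exact_mod_cast hs0.ne'
      rcases hv with hv | hv
      · exact Or.inr (mul_ne_zero hv this)
      · exact Or.inl (mul_ne_zero (neg_ne_zero.2 hv) this)
    · rw [abs_mul, abs_neg, Nat.cast_mul]
      exact mul_le_mul b2 hsB' (abs_nonneg _) (by positivity)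
    · rw [abs_mul, Nat.cast_mul]
      exact mul_le_mul b1 hsB' (abs_nonneg _) (by positivity)
    · rw [← hs, map_zpow₀, map_zpow₀, hξ']
      simp only [← zpow_natCast, ← zpow_mul, ← zpow_add₀ hξ0, hk0, hk1]
      exact congrArg _ (by ring)
  have s1 := hG fun τ x => (FS S (fun μ => τ (c μ)) (x ^ ((N / g : ℕ) * k₁))
    (x ^ ((N / g : ℕ) * k₂)) v₁ v₂).logMahlerMeasure
  simp only [map_zpow₀] at hM
  simp only [RingHom.comp_apply] at s1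
  rw [s1] at hM
  have s2 := sum_le_sum fun τ (_ : τ ∈ univ) => hN₂ τ N
    (by have := single_le_sum (f := N₂) (fun _ _ => Nat.zero_le _) (mem_univ τ); omega)
    ξ (e 0) (e 1) k₁ k₂ v₁ v₂ g β (Γ τ) hξ hg0 hgN hβ hk0 hk1 hv hgv (hΓ τ) (hcl τ)
  rw [sum_sub_distrib, sum_const, card_univ, ← hD, nsmul_eq_mul] at s2
  obtain ⟨a, ha⟩ : ∃ a : (K →+* ℂ) → ℕ → ℝ, ∀ τ j,
    ‖evS S (fun μ => τ (c μ)) ((ξ ^ e 0) ^ j) ((ξ ^ e 1) ^ j)‖ = a τ j := ⟨_, fun _ _ => rfl⟩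
  obtain ⟨r, hr⟩ : ∃ r : ℕ → ℝ, ∀ j, ‖ev R ((ξ ^ e 0) ^ j) ((ξ ^ e 1) ^ j)‖ = r j :=
    ⟨_, fun _ => rfl⟩
  obtain ⟨-, s3⟩ := unit_sum a11 ι
    (u := evS S (fun μ => algebraMap K L (c μ)) (ξ' ^ e 0) (ξ' ^ e 1))
    (by simpa only [evS_map, hι, map_zpow₀, hξ'] using hU)
  have s4 := hG fun τ x => Real.log ‖evS S (fun μ => τ (c μ)) (x ^ e 0) (x ^ e 1)‖
  simp only [evS_map, map_zpow₀] at s3
  simp only [RingHom.comp_apply, ← spike_pow, ha] at s4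
  rw [s4] at s3
  have e2 := spike_card R hN0 hξ he _ _ (hC N (by omega))
  simp only [ha] at s2
  simp only [hr] at e2
  have r0 : ∀ j ∈ Cop N, ev R ((ξ ^ e 0) ^ j) ((ξ ^ e 1) ^ j) ≠ 0 := fun j hj => by
    rw [spike_pow, spike_pow]
    exact hN₅ N (by omega) _ e (hξ.pow_of_coprime j (mem_filter.1 hj).2) he
  have r1 : ∀ τ j, r j ≤ a τ j * N := fun τ j => by
    rw [← hr, hz _ _ (pow_ne_zero _ (zpow_ne_zero _ hξ0)) (pow_ne_zero _ (zpow_ne_zero _ hξ0)),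
      norm_prod, ← mul_prod_erase _ _ (mem_univ τ), ha]
    refine mul_le_mul_of_nonneg_left ?_ (ha τ j ▸ norm_nonneg _)
    calc _ ≤ ∏ τ' ∈ univ.erase τ, max 1 (∑ μ ∈ S, ‖τ' (c μ)‖) :=
          prod_le_prod (fun _ _ => norm_nonneg _) fun τ' _ =>
            (norm_evS_le _ _ (by simp [hξ1]) (by simp [hξ1])).trans (le_max_right _ _)
      _ ≤ ∏ τ' : K →+* ℂ, max 1 (∑ μ ∈ S, ‖τ' (c μ)‖) :=
          prod_le_prod_of_subset_of_one_le (subset_univ _) (fun _ _ => by positivity)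
            fun _ _ _ => le_max_left _ _
      _ ≤ N := hN₆.trans (by exact_mod_cast (by omega))
  by_contra hcon
  push Not at hcon
  have a2 : ∀ τ, ∀ j ∈ Γ τ, Real.log (max (a τ j) ((N : ℝ) ^ (A + 1))⁻¹) ≤ Real.log (a τ j) +
      if r j ≤ ((N : ℝ) ^ A)⁻¹ then (N : ℝ) ^ (999 / 1000 : ℝ) else 0 := by
    intro τ j hj
    have b1 := hcon j (mem_filter.1 (hΓ τ hj)).2 (r0 j (hΓ τ hj))
    rw [hr] at b1
    have b0 : 0 < a τ j := (mul_pos_iff_of_pos_right hNp).1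
      ((Real.exp_pos _).trans (b1.trans_le (r1 τ j)))
    rcases le_total (a τ j) ((N : ℝ) ^ (A + 1))⁻¹ with k | k
    · rw [max_eq_right k, if_pos ((r1 τ j).trans ((mul_le_mul_of_nonneg_right k hNp.le).trans_eq
        (by rw [pow_succ]; field_simp)))]
      have b2 := Real.log_le_log (Real.exp_pos _) (b1.le.trans (r1 τ j))
      rw [Real.log_exp, Real.log_mul b0.ne' hNp.ne'] at b2
      rw [Real.log_inv, Real.log_pow]
      have := Real.log_nonneg hN1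
      push_cast
      nlinarith
    · rw [max_eq_left k]
      split_ifs
      · linarith [Real.rpow_nonneg hNp.le (999 / 1000)]
      · linarith
  have a3 : ∀ τ, ∑ j ∈ Γ τ, Real.log (max (a τ j) ((N : ℝ) ^ (A + 1))⁻¹) ≤
      ∑ j ∈ Γ τ, Real.log (a τ j) + C * (N : ℝ) ^ (1 / 2000 : ℝ) * (N : ℝ) ^ (999 / 1000 : ℝ) := by
    intro τ
    refine (sum_le_sum (a2 τ)).trans ?_
    rw [sum_add_distrib, ← sum_filter, sum_const, nsmul_eq_mul]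
    refine add_le_add le_rfl (mul_le_mul_of_nonneg_right (le_trans ?_ e2) (by positivity))
    exact_mod_cast card_le_card (filter_subset_filter _ (hΓ τ))
  have a4 := s2.trans (sum_le_sum fun τ _ => a3 τ)
  rw [sum_add_distrib, s3, zero_add, sum_const, card_univ, ← hD, nsmul_eq_mul] at a4
  have a5 : (N : ℝ) ^ (1 - 1 / 4000 : ℝ) =
      (N : ℝ) ^ (1 / 4000 : ℝ) * ((N : ℝ) ^ (1 / 2000 : ℝ) * (N : ℝ) ^ (999 / 1000 : ℝ)) := by
    rw [← Real.rpow_add hNp, ← Real.rpow_add hNp]; norm_num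
  have e4 := (hA N (by omega)).1
  have e5 : (N.totient : ℝ) ≤ finrank ℚ L := by exact_mod_cast hrk
  have a7 := mul_lt_mul_of_pos_left (mul_lt_mul_of_pos_right (hN₄ N (by omega))
    (mul_pos (Real.rpow_pos_of_pos hNp (1 / 2000)) (Real.rpow_pos_of_pos hNp (999 / 1000)))) hD0
  rw [a5] at e4
  have e6 : D * (m₀ / (2 * D)) = m₀ / 2 := by field_simp
  rw [← mul_assoc (D : ℝ), e6] at a4
  rw [mul_assoc (m₀ / (2 * D)), ← mul_assoc (D : ℝ) (m₀ / (2 * D)), e6] at a7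
  nlinarith [mul_le_mul_of_nonneg_left e4 hm₀.le, mul_le_mul_of_nonneg_left e5 hm₀.le]

end Pool.Agent.MP_c1891a_nt.H43
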