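import Mathlib

/-! A set of integers with few members among the large divisors of any integer is thin. -/

namespace Pool.Agent.MP_c1891a_nt.H43

open Finset ArithmeticFunction

open Classical in
/-- the integers up to `X` without prime factor below `y`. -/
noncomputable def Rough (X y : ℕ) : Finset ℕ :=
  (Icc 1 X).filter fun m => ∀ p : ℕ, p.Prime → p ∣ m → y ≤ p

theorem mem_rough {X y m : ℕ} :
    m ∈ Rough X y ↔ (1 ≤ m ∧ m ≤ X) ∧ ∀ p : ℕ, p.Prime → p ∣ m → y ≤ p := by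
  simp only [Rough, mem_filter, mem_Icc]

theorem sum_inj {ι κ : Type*} {s : Finset ι} {t : Finset κ} (f : ι → κ) (g : κ → ℝ)
    (h : Set.InjOn f s) (hm : ∀ i ∈ s, f i ∈ t) (h0 : ∀ k ∈ t, 0 ≤ g k) :
    ∑ i ∈ s, g (f i) ≤ ∑ k ∈ t, g k := by
  classical
  rw [← sum_image h]
  exact sum_le_sum_of_subset_of_nonneg (image_subset_iff.2 hm) fun k hk _ => h0 k hk

theorem rough_cop {X y m s : ℕ} (hm : m ∈ Rough X y) (hs : s ∈ Icc 1 (y - 1)) :
    Nat.Coprime m s := by
  rw [mem_Icc] at hs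
  refine Nat.Coprime.symm (Nat.coprime_of_dvd fun p hp h1 h2 => ?_)
  have := (mem_rough.1 hm).2 p hp h2
  have := Nat.le_of_dvd (by omega) h1
  omega

theorem rough_harm {X y : ℕ} (hy : 1 ≤ y) :
    (∑ m ∈ Rough X y, (m : ℝ)⁻¹) * Real.log y ≤ 1 + Real.log (X * y : ℕ) := by
  have h1 := log_add_one_le_harmonic (y - 1)
  have h2 := harmonic_le_one_add_log (X * y)
  simp only [harmonic_eq_sum_Icc, Rat.cast_sum, Rat.cast_inv, Rat.cast_natCast] at h1 h2
  rw [Nat.sub_add_cancel hy] at h1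
  refine (mul_le_mul_of_nonneg_left h1 (by positivity)).trans (le_trans ?_ h2)
  rw [sum_mul_sum, ← sum_product']
  refine le_trans (le_of_eq (sum_congr rfl fun z _ => ?_)) (sum_inj (s := Rough X y ×ˢ Icc 1 (y - 1))
    (fun z => z.1 * z.2) (fun n : ℕ => (n : ℝ)⁻¹) ?_ ?_ fun _ _ => by positivity)
  · push_cast; rw [mul_inv]
  · rintro ⟨m, s⟩ h ⟨m', s'⟩ h' e
    obtain ⟨a, b⟩ := mem_product.1 (mem_coe.1 h)
    obtain ⟨a', b'⟩ := mem_product.1 (mem_coe.1 h')
    simp only at e a b a' b'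
    have e1 : m = m' := Nat.dvd_antisymm
      ((rough_cop a b').dvd_of_dvd_mul_right (e ▸ dvd_mul_right _ _))
      ((rough_cop a' b).dvd_of_dvd_mul_right (e ▸ dvd_mul_right _ _))
    subst e1
    have : 0 < m := (mem_rough.1 a).1.1
    rw [Nat.eq_of_mul_eq_mul_left this e]
  · rintro ⟨m, s⟩ h
    obtain ⟨a, b⟩ := mem_product.1 h
    have a := (mem_rough.1 a).1
    rw [mem_Icc] at b ⊢
    exact ⟨Nat.mul_pos a.1 b.1, Nat.mul_le_mul a.2 (b.2.trans (Nat.sub_le _ _))⟩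

theorem rough_log (X y : ℕ) : ∑ r ∈ Rough X y, Real.log r ≤
    (Real.log 4 + 4) * X * ∑ m ∈ Rough X y, (m : ℝ)⁻¹ := by
  classical
  have h1 : ∀ r ∈ Rough X y, Real.log r ≤
      ∑ m ∈ Rough X y, if m ∣ r then vonMangoldt (r / m) else 0 := by
    intro r hr
    obtain ⟨a, b⟩ := mem_filter.1 hr
    rw [mem_Icc] at a
    rw [← vonMangoldt_sum, ← Nat.sum_div_divisors, ← sum_filter]
    refine sum_le_sum_of_subset_of_nonneg (fun m hm => ?_) fun _ _ _ => vonMangoldt_nonneg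
    have d := Nat.dvd_of_mem_divisors hm
    exact mem_filter.2 ⟨mem_filter.2 ⟨mem_Icc.2 ⟨Nat.pos_of_mem_divisors hm,
      (Nat.le_of_dvd a.1 d).trans a.2⟩, fun p hp e => b p hp (e.trans d)⟩, d⟩
  refine (sum_le_sum h1).trans ?_
  rw [sum_comm, mul_sum]
  refine sum_le_sum fun m hm => ?_
  have m0 : 0 < m := (mem_Icc.1 (mem_filter.1 hm).1).1
  have := Chebyshev.psi_le_const_mul_self (x := X / m) (by positivity)
  rw [← sum_filter]
  refine le_trans (sum_inj (t := Ioc 0 ⌊(X / m : ℝ)⌋₊) (fun r => r / m) vonMangoldt ?_ ?_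
    fun _ _ => vonMangoldt_nonneg) (this.trans (le_of_eq (by ring)))
  · intro r h r' h' e
    have d := (mem_filter.1 (mem_coe.1 h)).2
    have d' := (mem_filter.1 (mem_coe.1 h')).2
    simp only at e
    rw [← Nat.div_mul_cancel d, e, Nat.div_mul_cancel d']
  · intro r h
    obtain ⟨a, d⟩ := mem_filter.1 h
    have a := mem_Icc.1 (mem_filter.1 a).1
    rw [mem_Ioc, Nat.floor_div_eq_div]
    exact ⟨Nat.div_pos (Nat.le_of_dvd a.1 d) m0, Nat.div_le_div_right a.2⟩

/-- few integers have no small prime factor. -/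
theorem rough_card {X y K : ℕ} (hy : 2 ≤ y) (h1 : y ^ 2 ≤ X) (h2 : X ≤ y ^ K) :
    ((Rough X y).card : ℝ) * Real.log X ≤ X / y * Real.log X + 12 * (K + 3) * X := by
  classical
  have y0 : (0 : ℝ) < y := by positivity
  have ly : 1 / 2 ≤ Real.log y :=
    le_trans (by linarith [Real.log_two_gt_d9]) (Real.log_le_log two_pos (by exact_mod_cast hy))
  have X0 : (0 : ℝ) < X := by have : 0 < X := lt_of_lt_of_le (by positivity) h1; positivity
  have l1 : 2 * Real.log y ≤ Real.log X := by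
    have := Real.log_le_log (by positivity) (show ((y : ℝ) ^ 2) ≤ X by exact_mod_cast h1)
    rwa [Real.log_pow] at this
  have l2 : Real.log X ≤ K * Real.log y := by
    have := Real.log_le_log X0 (show (X : ℝ) ≤ (y : ℝ) ^ K by exact_mod_cast h2)
    rwa [Real.log_pow] at this
  have a1 := rough_harm (X := X) (y := y) (by omega)
  have a2 := rough_log X y
  rw [Nat.cast_mul, Real.log_mul X0.ne' y0.ne'] at a1
  obtain ⟨H, hH⟩ : ∃ H, H = ∑ m ∈ Rough X y, (m : ℝ)⁻¹ := ⟨_, rfl⟩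
  rw [← hH] at a1 a2
  have a3 : H ≤ K + 3 := le_of_mul_le_mul_right (by nlinarith) (by linarith : 0 < Real.log y)
  have l4 : Real.log 4 ≤ 2 := by
    rw [show (4 : ℝ) = 2 ^ 2 by norm_num, Real.log_pow]; push_cast; linarith [Real.log_two_lt_d9]
  have H0 : 0 ≤ H := hH ▸ by positivity
  have a4 : (Real.log 4 + 4) * X * H ≤ 6 * X * (K + 3) := by gcongr; linarith
  have b1 : ((Rough X y).filter fun r => r ≤ X / y).card ≤ X / y := by
    refine (card_le_card (t := Icc 1 (X / y)) fun r h => ?_).trans (by simp)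
    obtain ⟨a, b⟩ := mem_filter.1 h
    exact mem_Icc.2 ⟨(mem_Icc.1 (mem_filter.1 a).1).1, b⟩
  have b2 : (((Rough X y).filter fun r => r ≤ X / y).card : ℝ) ≤ X / y :=
    le_trans (by exact_mod_cast b1) Nat.cast_div_le
  have b3 : (((Rough X y).filter fun r => ¬ r ≤ X / y).card : ℝ) * (Real.log X / 2) ≤
      ∑ r ∈ Rough X y, Real.log r := by
    rw [← nsmul_eq_mul]
    refine (card_nsmul_le_sum _ (fun r : ℕ => Real.log r) _ fun r h => ?_).trans
      (sum_le_sum_of_subset_of_nonneg (filter_subset _ _) fun _ _ _ => Real.log_natCast_nonneg _)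
    have c1 : X < r * y := by
      have := not_le.1 (mem_filter.1 h).2
      rwa [Nat.div_lt_iff_lt_mul (by omega)] at this
    have r0 : (0 : ℝ) < r := by
      have : 0 < r := Nat.pos_of_ne_zero fun e => by simp [e] at c1
      positivity
    have := Real.log_le_log X0 (show (X : ℝ) ≤ r * y by exact_mod_cast c1.le)
    rw [Real.log_mul r0.ne' y0.ne'] at this
    linarith
  rw [← card_filter_add_card_filter_not (s := Rough X y) fun r => r ≤ X / y]
  push_cast
  have := mul_le_mul_of_nonneg_right b2 (by linarith : 0 ≤ Real.log X)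
  nlinarith

/-- a divisor below `y ^ 2` whose cofactor is small or has no small prime factor. -/
theorem split_div {N X y : ℕ} (h0 : 0 < N) (hX : N ≤ X) (hy : 0 < y) :
    ∃ a r : ℕ, N = r * a ∧ a ≤ y ^ 2 ∧ r ∈ Icc 1 (X / y) ∪ Rough X y := by
  classical
  obtain ⟨a, ha, hm⟩ := exists_max_image (N.divisors.filter fun a => a ≤ y ^ 2) id
    ⟨1, mem_filter.2 ⟨Nat.one_mem_divisors.2 h0.ne', Nat.one_le_pow _ _ hy⟩⟩
  obtain ⟨a1, a2⟩ := mem_filter.1 ha
  obtain ⟨r, e⟩ := Nat.dvd_of_mem_divisors a1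
  have r0 : 0 < r := Nat.pos_of_ne_zero fun z => by simp [z] at e; omega
  have a0 : 0 < a := Nat.pos_of_mem_divisors a1
  refine ⟨a, r, by rw [e, mul_comm], a2, ?_⟩
  rw [mem_union]
  by_cases c : ∀ p : ℕ, p.Prime → p ∣ r → y ≤ p
  · exact Or.inr (mem_filter.2 ⟨mem_Icc.2 ⟨r0, le_trans (by rw [e]; nlinarith) hX⟩, c⟩)
  push Not at c
  obtain ⟨p, hp, d, l⟩ := c
  refine Or.inl (mem_Icc.2 ⟨r0, (Nat.le_div_iff_mul_le hy).2 (le_trans ?_ hX)⟩)
  have : y ^ 2 < a * p := by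
    by_contra z
    have := hm (a * p) (mem_filter.2 ⟨Nat.mem_divisors.2 ⟨e ▸ Nat.mul_dvd_mul_left a d, h0.ne'⟩,
      not_lt.1 z⟩)
    have := hp.two_le
    simp only [id] at *
    nlinarith
  have : y ≤ a := by nlinarith
  rw [e, mul_comm a]
  exact Nat.mul_le_mul_left _ this

theorem thin (A : Set ℕ) (C₀ : ℕ) (h : ∀ M : ℕ, 0 < M → ∀ T : Finset ℕ,
    (∀ N ∈ T, N ∈ A ∧ N ∣ M ∧ M ^ 49 ≤ N ^ 50) → T.card ≤ C₀) :
    ∃ C : ℝ, ∀ X : ℕ, ∀ T : Finset ℕ, (∀ N ∈ T, N ∈ A ∧ 0 < N ∧ N ≤ X) →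
      T.card * Real.log X ≤ C * X := by
  classical
  obtain ⟨k, hk⟩ : ∃ k, k = 98 * (C₀ + 1) := ⟨_, rfl⟩
  refine ⟨(2 * (k + 1)) * (1 + 2 * C₀) + C₀ * (12 * (2 * (k + 1) + 3)) + 2 ^ (k + 1),
    fun X T hT => ?_⟩
  have L0 : 0 ≤ Real.log X := Real.log_natCast_nonneg X
  have X0 : (0 : ℝ) ≤ X := Nat.cast_nonneg X
  obtain ⟨y, hy⟩ : ∃ y, y = (k + 1).nthRoot X := ⟨_, rfl⟩
  have y1 : y ^ (k + 1) ≤ X := hy ▸ Nat.pow_nthRoot_le (Or.inl (by omega))
  have y2 : X < (y + 1) ^ (k + 1) := hy ▸ Nat.lt_pow_nthRoot_add_one (by omega) X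
  rcases lt_or_ge y 2 with c | c
  · have a1 : T.card ≤ X := (card_le_card (t := Icc 1 X) fun N hN =>
      mem_Icc.2 (hT N hN).2).trans (by simp)
    have a2 : X ≤ 2 ^ (k + 1) := y2.le.trans (Nat.pow_le_pow_left (by omega) _)
    have a3 : Real.log X ≤ 2 ^ (k + 1) :=
      (Real.log_le_self X0).trans (by exact_mod_cast a2)
    have a4 : (T.card : ℝ) ≤ X := by exact_mod_cast a1
    have := mul_le_mul a4 a3 L0 X0
    have : (0 : ℝ) ≤ ((2 * (k + 1)) * (1 + 2 * C₀) + C₀ * (12 * (2 * (k + 1) + 3))) * X := by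
      positivity
    nlinarith
  have y3 : X ≤ y ^ (2 * (k + 1)) := by
    rw [pow_mul]
    exact y2.le.trans (Nat.pow_le_pow_left (by nlinarith) _)
  have y4 : y ^ 2 ≤ X := (Nat.pow_le_pow_right (by omega) (by omega)).trans y1
  have r1 := rough_card c y4 y3
  have hs : ∀ N : ℕ, ∃ a r : ℕ, N ∈ T → N = r * a ∧ a ≤ y ^ 2 ∧ r ∈ Icc 1 (X / y) ∪ Rough X y := by
    intro N
    by_cases hN : N ∈ T
    · obtain ⟨a, r, e⟩ := split_div (hT N hN).2.1 (hT N hN).2.2 (by omega : 0 < y)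
      exact ⟨a, r, fun _ => e⟩
    · exact ⟨0, 0, fun z => absurd z hN⟩
  choose a r hs using hs
  have b1 : (T.filter fun N => N ≤ X / y).card ≤ X / y :=
    (card_le_card (t := Icc 1 (X / y)) fun N hN => mem_Icc.2
      ⟨(hT N (mem_filter.1 hN).1).2.1, (mem_filter.1 hN).2⟩).trans (by simp)
  have b2 : (T.filter fun N => ¬ N ≤ X / y).card ≤ C₀ * (Icc 1 (X / y) ∪ Rough X y).card := by
    refine card_le_mul_card_image_of_maps_to (f := r)
      (fun N hN => (hs N (mem_filter.1 hN).1).2.2) _ fun t _ => ?_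
    by_contra z
    obtain ⟨U, u1, u2⟩ := exists_subset_card_eq (Nat.succ_le_of_lt (not_le.1 z))
    have hU : ∀ N ∈ U, N ∈ T ∧ ¬ N ≤ X / y ∧ r N = t := fun N hN => by
      obtain ⟨v1, v2⟩ := mem_filter.1 (u1 hN)
      exact ⟨(mem_filter.1 v1).1, (mem_filter.1 v1).2, v2⟩
    have a0 : ∀ N ∈ U, 0 < t ∧ 0 < a N := fun N hN => by
      obtain ⟨v1, -, v3⟩ := hU N hN
      have := (hT N v1).2.1
      rw [(hs N v1).1, v3] at this
      exact ⟨Nat.pos_of_mul_pos_right this, Nat.pos_of_mul_pos_left this⟩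
    obtain ⟨N₀, n0⟩ := card_pos.1 (u2 ▸ Nat.succ_pos _ : 0 < U.card)
    have p1 := prod_le_pow_card U a (y ^ 2) fun N hN => (hs N (hU N hN).1).2.1
    rw [u2] at p1
    have := h (t * ∏ N ∈ U, a N) (Nat.mul_pos (a0 N₀ n0).1 (prod_pos fun N hN => (a0 N hN).2)) U
      fun N hN => by
        obtain ⟨v1, v2, v3⟩ := hU N hN
        have e := (hs N v1).1
        rw [v3] at e
        refine ⟨(hT N v1).1, ?_, ?_⟩
        · conv_lhs => rw [e]
          exact Nat.mul_dvd_mul_left _ (dvd_prod_of_mem _ hN)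
        · have w1 : t ≤ N := by
            conv_rhs => rw [e]
            exact Nat.le_mul_of_pos_right _ (a0 N hN).2
          have w2 : y ^ k ≤ N := by
            refine le_trans ?_ (not_le.1 v2).le
            rw [Nat.le_div_iff_mul_le (by omega), ← pow_succ]
            exact y1
          rw [mul_pow, pow_succ N 49]
          refine Nat.mul_le_mul (Nat.pow_le_pow_left w1 _)
            ((Nat.pow_le_pow_left p1 _).trans (le_trans (le_of_eq ?_) w2))
          rw [← pow_mul, ← pow_mul, hk]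
          congr 1; omega
    omega
  have b3 : (Icc 1 (X / y) ∪ Rough X y).card ≤ X / y + (Rough X y).card :=
    (card_union_le _ _).trans (by simp)
  have b4 : T.card ≤ X / y + C₀ * (X / y + (Rough X y).card) := by
    rw [← card_filter_add_card_filter_not (s := T) fun N => N ≤ X / y]
    exact Nat.add_le_add b1 (b2.trans (Nat.mul_le_mul_left _ b3))
  have d : ((X / y : ℕ) : ℝ) ≤ X / y := Nat.cast_div_le
  have b5 : (T.card : ℝ) ≤ X / y + C₀ * (X / y + (Rough X y).card) := by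
    refine le_trans (b := ((X / y : ℕ) : ℝ) + C₀ * ((X / y : ℕ) + (Rough X y).card))
      (by exact_mod_cast b4) (by gcongr)
  have y0 : (0 : ℝ) < y := by positivity
  have l1 : Real.log X ≤ (2 * (k + 1)) * y := by
    have x0 : (0 : ℝ) < X := by have : 0 < X := lt_of_lt_of_le (by positivity) y4; positivity
    have := Real.log_le_log x0 (show (X : ℝ) ≤ (y : ℝ) ^ (2 * (k + 1)) by exact_mod_cast y3)
    rw [Real.log_pow] at this
    push_cast at this
    exact this.trans (mul_le_mul_of_nonneg_left (Real.log_le_self y0.le) (by positivity))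
  have l2 : X / y * Real.log X ≤ (2 * (k + 1)) * X := by
    rw [div_mul_eq_mul_div, div_le_iff₀ y0]
    nlinarith
  have e1 := mul_le_mul_of_nonneg_right b5 L0
  have e2 := mul_le_mul_of_nonneg_left r1 (Nat.cast_nonneg (α := ℝ) C₀)
  have e3 := mul_le_mul_of_nonneg_left l2 (Nat.cast_nonneg (α := ℝ) C₀)
  have e4 : (0 : ℝ) ≤ 2 ^ (k + 1) * X := by positivity
  push_cast at e2
  nlinarith

end Pool.Agent.MP_c1891a_nt.H43
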