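import Pool.Agent.MP_c1891a_nt.H43.Win
import Pool.Agent.MP_c1891a_nt.H85.Arith
import Pool.Agent.MP_c1891a_nt.H70.Pig
import Pool.Agent.MP_c1891a_nt.H16.Red
import Pool.Agent.MP_c1891a_nt.H73.Rep
import Pool.Agent.MP_c1891a_nt.H41.Field
import Pool.Agent.MP_c1891a_nt.H53.NormP
import Pool.Agent.MP_c1891a_nt.H19.LV
import Pool.Agent.MP_c1891a_nt.H26.Res
import Pool.Agent.MP_c1891a_nt.H59.Frob
import Pool.Agent.MP_c1891a_nt.H17.Loc
import Pool.Agent.MP_c1891a_nt.H71.Val
import Pool.Agent.MP_c1891a_nt.H36.Root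
import Pool.Agent.MP_c1891a_nt.H68.Many
import Pool.Agent.MP_c1891a_nt.H22.Pos
import Pool.Agent.MP_c1891a_nt.H1.Def
import Pool.Agent.MP_c1891a_nt.H77.Near
import Pool.Agent.MP_c1891a_nt.H34.TwoA
import Pool.Agent.MP_c1891a_nt.H11.Mono
import Pool.Agent.MP_c1891a_nt.H58.TwoB
import Pool.Agent.MP_c1891a_nt.H57.Anom
import Pool.Agent.MP_c1891a_nt.H93.Push
import Pool.Agent.MP_c1891a_nt.H98.Fac
import Pool.Agent.MP_c1891a_nt.H22.OneVar
import Pool.Agent.MP_c1891a_nt.H40.One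
import Pool.Agent.MP_c1891a_nt.H97.Cls
import Pool.Agent.MP_c1891a_nt.H14.TL
import Pool.Agent.MP_c1891a_nt.H44.Liou
import Pool.Agent.MP_c1891a_nt.H41.ZU
import Pool.Agent.MP_c1891a_nt.H69.Cyc
import Pool.Agent.MP_c1891a_nt.H95.ZE
import Pool.Agent.MP_c1891a_nt.H28.Lin
import Pool.Agent.MP_c1891a_nt.H98.AL
import Pool.Agent.MP_c1891a_nt.H96.BPP
import Pool.Agent.MP_c1891a_nt.H83.Count
import Pool.Agent.MP_c1891a_nt.H83.Prod

/-! The steps without hypotheses. -/

namespace Pool.Agent.MP_c1891a_nt.H43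

theorem allTL : H79.STL := H14.stl H44.liou H41ZU.szl H41ZU.sup

theorem allFin : SFin := sFin (sCls sLoc sVal)

theorem allDef : SDef :=
  sDef sArith sPig2 sRep1 sRoot (sPos sMany (sFrob sNormP) allFin sField)

theorem allAnom : SAnom :=
  sAnom sPig4 sRed sRep1 sRep2 (sOne (sNearP sNear sField sNormP) sField sNormP allTL sArith)
    (sTwoA (sNearP sNear sField sNormP) sField sNormP sLV)
    (sTwoB (sMono sField (sRes sNormP) sLV))

theorem allPair : SPair := sPair allFin allAnom sGen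

theorem allOne : SOneVar := sOneVar sRoot sArith allTL H69.snorm

theorem allCount : SCountG := sCountG (sBPP sZE) (sAL sLin) sNear

theorem allSpk {P : LP} (hc : NoCoset P) (hm : NonMon P) : Spk P :=
  spkOf allDef allCount sArith H69.snorm hc hm

theorem allProd : SProdC :=
  sProdC (sSpikeG allDef allCount sArith H69.snorm) allAnom allFin sGen

end Pool.Agent.MP_c1891a_nt.H43
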