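import Pool.Agent.MP_c1891a_nt.H43.Spec

/-
Basic facts on the values of Laurent polynomials and on their restrictions to subgroups.
-/

namespace Pool.Agent.MP_c1891a_nt.H43

open Finset Polynomial

theorem ev_map {F F' : Type} [Field F] [Field F'] (σ : F →+* F') (P : LP) (x y : F) :
    σ (ev P x y) = ev P (σ x) (σ y) := by
  simp [ev, map_sum, map_zpow₀]

theorem le_Rn {P : LP} {μ : ℤ × ℤ} (h : μ ∈ P.coeff.support) :
    μ.1.natAbs ≤ Rn P ∧ μ.2.natAbs ≤ Rn P := by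
  have : max μ.1.natAbs μ.2.natAbs ≤ Rn P :=
    Finset.le_sup (f := fun μ : ℤ × ℤ => max μ.1.natAbs μ.2.natAbs) h
  omega

theorem abs_dot_le {P : LP} {μ : ℤ × ℤ} (h : μ ∈ P.coeff.support) (v₁ v₂ : ℤ) :
    |v₁ * μ.1 + v₂ * μ.2| ≤ A1 P v₁ v₂ := by
  obtain ⟨h1, h2⟩ := le_Rn h
  have e1 : |μ.1| ≤ Rn P := by rw [← Int.natCast_natAbs]; exact_mod_cast h1
  have e2 : |μ.2| ≤ Rn P := by rw [← Int.natCast_natAbs]; exact_mod_cast h2
  have : (A1 P v₁ v₂ : ℤ) = |v₁| * Rn P + |v₂| * Rn P := by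
    simp only [A1]; push_cast; ring
  rw [this]
  refine (abs_add_le _ _).trans ?_
  rw [abs_mul, abs_mul]
  gcongr

theorem ex_cast {P : LP} {μ : ℤ × ℤ} (h : μ ∈ P.coeff.support) (v₁ v₂ : ℤ) :
    (ex P v₁ v₂ μ : ℤ) = A1 P v₁ v₂ + (v₁ * μ.1 + v₂ * μ.2) := by
  have := abs_le.1 (abs_dot_le h v₁ v₂)
  rw [ex, Int.toNat_of_nonneg (by omega)]; ring

theorem ex_le {P : LP} {μ : ℤ × ℤ} (h : μ ∈ P.coeff.support) (v₁ v₂ : ℤ) :
    ex P v₁ v₂ μ ≤ 2 * A1 P v₁ v₂ := by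
  have := abs_le.1 (abs_dot_le h v₁ v₂)
  have := ex_cast h v₁ v₂
  omega

theorem pow_ex {F : Type} [Field F] {P : LP} {μ : ℤ × ℤ} (h : μ ∈ P.coeff.support) (v₁ v₂ : ℤ)
    {t : F} (ht : t ≠ 0) :
    t ^ ex P v₁ v₂ μ = t ^ A1 P v₁ v₂ * ((t ^ v₁) ^ μ.1 * (t ^ v₂) ^ μ.2) := by
  rw [← zpow_natCast, ex_cast h, zpow_add₀ ht, zpow_add₀ ht, zpow_natCast, zpow_mul, zpow_mul]

theorem F1_eval {F : Type} [Field F] (P : LP) (η₁ η₂ : F) (v₁ v₂ : ℤ) {t : F} (ht : t ≠ 0) :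
    (F1 P η₁ η₂ v₁ v₂).eval t = t ^ A1 P v₁ v₂ * ev P (η₁ * t ^ v₁) (η₂ * t ^ v₂) := by
  rw [F1, ev, eval_finsetSum, mul_sum]
  refine sum_congr rfl fun μ h => ?_
  rw [eval_mul, eval_C, eval_pow, eval_X, pow_ex h v₁ v₂ ht, mul_zpow, mul_zpow]
  ring

theorem F2_evalEval {F : Type} [Field F] (P : LP) (η₁ η₂ : F) (v₁ v₂ w₁ w₂ : ℤ) {p q : F}
    (hp : p ≠ 0) (hq : q ≠ 0) :
    (F2 P η₁ η₂ v₁ v₂ w₁ w₂).evalEval p q = p ^ A1 P v₁ v₂ * q ^ A1 P w₁ w₂ *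
      ev P (η₁ * p ^ v₁ * q ^ w₁) (η₂ * p ^ v₂ * q ^ w₂) := by
  rw [F2, ev, evalEval_finsetSum, mul_sum]
  refine sum_congr rfl fun μ h => ?_
  simp only [evalEval_mul, evalEval_C, evalEval_pow, evalEval_X, eval_mul, eval_C, eval_pow,
    eval_X]
  rw [pow_ex h v₁ v₂ hp, pow_ex h w₁ w₂ hq]
  simp only [mul_zpow]
  ring

theorem F1_map {F F' : Type} [Field F] [Field F'] (σ : F →+* F') (P : LP) (η₁ η₂ : F)
    (v₁ v₂ : ℤ) : (F1 P η₁ η₂ v₁ v₂).map σ = F1 P (σ η₁) (σ η₂) v₁ v₂ := by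
  simp [F1, Polynomial.map_sum, map_zpow₀]

theorem F2_map {F F' : Type} [Field F] [Field F'] (σ : F →+* F') (P : LP) (η₁ η₂ : F)
    (v₁ v₂ w₁ w₂ : ℤ) :
    (F2 P η₁ η₂ v₁ v₂ w₁ w₂).map (mapRingHom σ) = F2 P (σ η₁) (σ η₂) v₁ v₂ w₁ w₂ := by
  simp [F2, Polynomial.map_sum, map_zpow₀]

theorem F1_coeff {F : Type} [Field F] (P : LP) (η₁ η₂ : F) (v₁ v₂ : ℤ) (i : ℕ) :
    (F1 P η₁ η₂ v₁ v₂).coeff i = ∑ μ ∈ P.coeff.support,
      if i = ex P v₁ v₂ μ then (P.coeff μ : F) * η₁ ^ μ.1 * η₂ ^ μ.2 else 0 := by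
  rw [F1, finsetSum_coeff]
  exact sum_congr rfl fun μ _ => coeff_C_mul_X_pow _ _ _

theorem F2_coeff {F : Type} [Field F] (P : LP) (η₁ η₂ : F) (v₁ v₂ w₁ w₂ : ℤ) (j : ℕ) :
    (F2 P η₁ η₂ v₁ v₂ w₁ w₂).coeff j = ∑ μ ∈ P.coeff.support,
      if j = ex P w₁ w₂ μ then C ((P.coeff μ : F) * η₁ ^ μ.1 * η₂ ^ μ.2) * X ^ ex P v₁ v₂ μ
      else 0 := by
  rw [F2, finsetSum_coeff]
  exact sum_congr rfl fun μ _ => coeff_C_mul_X_pow _ _ _

theorem F1_natDegree {F : Type} [Field F] (P : LP) (η₁ η₂ : F) (v₁ v₂ : ℤ) :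
    (F1 P η₁ η₂ v₁ v₂).natDegree ≤ 2 * A1 P v₁ v₂ :=
  natDegree_sum_le_of_forall_le _ _ fun _ h => (natDegree_C_mul_X_pow_le _ _).trans (ex_le h _ _)

theorem F2_natDegree {F : Type} [Field F] (P : LP) (η₁ η₂ : F) (v₁ v₂ w₁ w₂ : ℤ) :
    (F2 P η₁ η₂ v₁ v₂ w₁ w₂).natDegree ≤ 2 * A1 P w₁ w₂ :=
  natDegree_sum_le_of_forall_le _ _ fun _ h => (natDegree_C_mul_X_pow_le _ _).trans (ex_le h _ _)

theorem F2_coeff_natDegree {F : Type} [Field F] (P : LP) (η₁ η₂ : F) (v₁ v₂ w₁ w₂ : ℤ) (j : ℕ) :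
    ((F2 P η₁ η₂ v₁ v₂ w₁ w₂).coeff j).natDegree ≤ 2 * A1 P v₁ v₂ := by
  rw [F2_coeff]
  refine natDegree_sum_le_of_forall_le _ _ fun μ h => ?_
  split_ifs
  · exact (natDegree_C_mul_X_pow_le _ _).trans (ex_le h _ _)
  · simp

theorem F1_support {F : Type} [Field F] (P : LP) (η₁ η₂ : F) (v₁ v₂ : ℤ) :
    (F1 P η₁ η₂ v₁ v₂).support ⊆ P.coeff.support.image (ex P v₁ v₂) := by
  intro i hi
  rw [mem_support_iff, F1_coeff] at hi
  obtain ⟨μ, h, e⟩ := exists_ne_zero_of_sum_ne_zero hi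
  refine mem_image.2 ⟨μ, h, ?_⟩
  by_contra c
  exact e (if_neg (Ne.symm c))

theorem F1_support_card {F : Type} [Field F] (P : LP) (η₁ η₂ : F) (v₁ v₂ : ℤ) :
    (F1 P η₁ η₂ v₁ v₂).support.card ≤ P.coeff.support.card :=
  (card_le_card (F1_support P η₁ η₂ v₁ v₂)).trans card_image_le

theorem int_zpow {F : Type} [Field F] {η : F} {n : ℕ} (hn : 0 < n) (h : η ^ n = 1) (k : ℤ) :
    IsIntegral ℤ (η ^ k) := by
  refine IsIntegral.of_pow hn ?_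
  rw [← zpow_natCast, ← zpow_mul, mul_comm, zpow_mul, zpow_natCast, h, one_zpow]
  exact isIntegral_one

theorem int_term {F : Type} [Field F] {η₁ η₂ : F} (h₁ : ∃ n, 0 < n ∧ η₁ ^ n = 1)
    (h₂ : ∃ n, 0 < n ∧ η₂ ^ n = 1) (c : ℤ) (a b : ℤ) :
    IsIntegral ℤ ((c : F) * η₁ ^ a * η₂ ^ b) := by
  obtain ⟨n₁, a₁, b₁⟩ := h₁
  obtain ⟨n₂, a₂, b₂⟩ := h₂
  exact ((isIntegral_algebraMap (R := ℤ) (A := F) (x := c)).mul (int_zpow a₁ b₁ a)).mul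
    (int_zpow a₂ b₂ b)

theorem ev_int {F : Type} [Field F] (P : LP) {x y : F} (h₁ : ∃ n, 0 < n ∧ x ^ n = 1)
    (h₂ : ∃ n, 0 < n ∧ y ^ n = 1) : IsIntegral ℤ (ev P x y) :=
  IsIntegral.sum _ fun _ _ => int_term h₁ h₂ _ _ _

theorem F1_intC {F : Type} [Field F] (P : LP) {η₁ η₂ : F} (h₁ : ∃ n, 0 < n ∧ η₁ ^ n = 1)
    (h₂ : ∃ n, 0 < n ∧ η₂ ^ n = 1) (v₁ v₂ : ℤ) : IntC (F1 P η₁ η₂ v₁ v₂) := by
  intro i
  rw [F1_coeff]
  refine IsIntegral.sum _ fun μ _ => ?_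
  split_ifs
  · exact int_term h₁ h₂ _ _ _
  · exact isIntegral_zero

theorem F2_intC {F : Type} [Field F] (P : LP) {η₁ η₂ : F} (h₁ : ∃ n, 0 < n ∧ η₁ ^ n = 1)
    (h₂ : ∃ n, 0 < n ∧ η₂ ^ n = 1) (v₁ v₂ w₁ w₂ : ℤ) (j : ℕ) :
    IntC ((F2 P η₁ η₂ v₁ v₂ w₁ w₂).coeff j) := by
  intro i
  rw [F2_coeff, finsetSum_coeff]
  refine IsIntegral.sum _ fun μ _ => ?_
  split_ifs
  · rw [coeff_C_mul_X_pow]
    split_ifs
    · exact int_term h₁ h₂ _ _ _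
    · exact isIntegral_zero
  · simpa using isIntegral_zero

theorem l1_nonneg (f : ℂ[X]) : 0 ≤ l1 f := sum_nonneg fun _ _ => norm_nonneg _

theorem l1_eq {f : ℂ[X]} {s : Finset ℕ} (h : f.support ⊆ s) : l1 f = ∑ i ∈ s, ‖f.coeff i‖ :=
  sum_subset h fun i _ hi => by rw [notMem_support_iff.1 hi, norm_zero]

theorem l1_zero : l1 0 = 0 := by simp [l1]

theorem l1_add (f g : ℂ[X]) : l1 (f + g) ≤ l1 f + l1 g := by
  rw [l1_eq (s := f.support ∪ g.support) support_add, l1_eq (f := f) subset_union_left,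
    l1_eq (f := g) subset_union_right, ← sum_add_distrib]
  exact sum_le_sum fun i _ => by rw [coeff_add]; exact norm_add_le _ _

theorem l1_sum {ι : Type*} (s : Finset ι) (f : ι → ℂ[X]) :
    l1 (∑ i ∈ s, f i) ≤ ∑ i ∈ s, l1 (f i) := by
  classical
  induction s using Finset.induction_on with
  | empty => simp [l1_zero]
  | insert a s ha ih =>
    rw [sum_insert ha, sum_insert ha]
    exact (l1_add _ _).trans (by linarith)

theorem l1_monomial (c : ℂ) (n : ℕ) : l1 (C c * X ^ n) = ‖c‖ := by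
  rw [l1_eq (s := {n}) (support_C_mul_X_pow_subset n c), sum_singleton, coeff_C_mul_X_pow, if_pos rfl]

theorem l1_C_mul_X_pow_mul (c : ℂ) (n : ℕ) (g : ℂ[X]) : l1 (C c * X ^ n * g) ≤ ‖c‖ * l1 g := by
  conv_lhs => rw [g.as_sum_support_C_mul_X_pow, mul_sum]
  refine (l1_sum _ _).trans ?_
  rw [l1, mul_sum]
  refine sum_le_sum fun i _ => ?_
  rw [show C c * X ^ n * (C (g.coeff i) * X ^ i) = C (c * g.coeff i) * X ^ (n + i) by
    rw [C_mul, pow_add]; ring, l1_monomial, norm_mul]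

theorem l1_mul (f g : ℂ[X]) : l1 (f * g) ≤ l1 f * l1 g := by
  conv_lhs => rw [f.as_sum_support_C_mul_X_pow, sum_mul]
  refine (l1_sum _ _).trans ?_
  rw [l1, sum_mul]
  exact sum_le_sum fun i _ => l1_C_mul_X_pow_mul _ _ _

theorem l1_one : l1 1 = 1 := by simpa using l1_monomial 1 0

theorem l1_prod {ι : Type*} (s : Finset ι) (f : ι → ℂ[X]) :
    l1 (∏ i ∈ s, f i) ≤ ∏ i ∈ s, l1 (f i) := by
  classical
  induction s using Finset.induction_on with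
  | empty => simp [l1_one]
  | insert a s ha ih =>
    rw [prod_insert ha, prod_insert ha]
    exact (l1_mul _ _).trans (mul_le_mul_of_nonneg_left ih (l1_nonneg _))

theorem norm_coeff_le_l1 (f : ℂ[X]) (i : ℕ) : ‖f.coeff i‖ ≤ l1 f := by
  by_cases h : i ∈ f.support
  · exact single_le_sum (f := fun i => ‖f.coeff i‖) (fun _ _ => norm_nonneg _) h
  · rw [notMem_support_iff.1 h, norm_zero]; exact l1_nonneg f

theorem mahler_le_l1 (f : ℂ[X]) : f.mahlerMeasure ≤ l1 f := by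
  simpa [Polynomial.sum, l1] using mahlerMeasure_le_sum_norm_coeff f

theorem norm_eval_le (f : ℂ[X]) (α : ℂ) {D : ℕ} (h : f.natDegree ≤ D) :
    ‖f.eval α‖ ≤ l1 f * max 1 ‖α‖ ^ D := by
  rw [eval_eq_sum, Polynomial.sum, l1, sum_mul]
  refine (norm_sum_le _ _).trans (sum_le_sum fun i hi => ?_)
  rw [norm_mul, norm_pow]
  refine mul_le_mul_of_nonneg_left ?_ (norm_nonneg _)
  exact (pow_le_pow_left₀ (norm_nonneg _) (le_max_right _ _) i).trans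
    (pow_le_pow_right₀ (le_max_left _ _) ((le_natDegree_of_mem_supp i hi).trans h))

theorem norm_term {x y : ℂ} (hx : ‖x‖ = 1) (hy : ‖y‖ = 1) (c a b : ℤ) :
    ‖(c : ℂ) * x ^ a * y ^ b‖ = (c.natAbs : ℝ) := by
  rw [norm_mul, norm_mul, norm_zpow, norm_zpow, hx, hy, one_zpow, one_zpow, mul_one, mul_one,
    Complex.norm_intCast, Nat.cast_natAbs, Int.cast_abs]

theorem norm_ev_le (P : LP) {x y : ℂ} (hx : ‖x‖ = 1) (hy : ‖y‖ = 1) : ‖ev P x y‖ ≤ Hn P := by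
  refine (norm_sum_le _ _).trans ?_
  rw [Hn, Nat.cast_sum]
  exact sum_le_sum fun μ _ => (norm_term hx hy _ _ _).le

theorem F1_l1 (P : LP) {η₁ η₂ : ℂ} (h₁ : ‖η₁‖ = 1) (h₂ : ‖η₂‖ = 1) (v₁ v₂ : ℤ) :
    l1 (F1 P η₁ η₂ v₁ v₂) ≤ Hn P := by
  refine (l1_sum _ _).trans ?_
  rw [Hn, Nat.cast_sum]
  exact sum_le_sum fun μ _ => by rw [l1_monomial, norm_term h₁ h₂]

theorem F2_l2 (P : LP) {η₁ η₂ : ℂ} (h₁ : ‖η₁‖ = 1) (h₂ : ‖η₂‖ = 1) (v₁ v₂ w₁ w₂ : ℤ) :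
    l2 (F2 P η₁ η₂ v₁ v₂ w₁ w₂) ≤ Hn P := by
  classical
  unfold l2
  calc _ ≤ ∑ j ∈ (F2 P η₁ η₂ v₁ v₂ w₁ w₂).support, ∑ μ ∈ P.coeff.support,
        if j = ex P w₁ w₂ μ then ((P.coeff μ).natAbs : ℝ) else 0 := by
        refine sum_le_sum fun j _ => ?_
        rw [F2_coeff]
        refine (l1_sum _ _).trans (sum_le_sum fun μ _ => ?_)
        split_ifs
        · rw [l1_monomial, norm_term h₁ h₂]
        · exact l1_zero.le
    _ ≤ Hn P := by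
        rw [sum_comm, Hn, Nat.cast_sum]
        refine sum_le_sum fun μ _ => ?_
        rw [sum_ite_eq']
        split_ifs
        · exact le_rfl
        · positivity

theorem Tor.norm {x : ℂ} (h : Tor x) : ‖x‖ = 1 := by
  obtain ⟨n, hn, e⟩ := h
  exact Complex.norm_eq_one_of_pow_eq_one e hn.ne'

theorem Tor.ne_zero {x : ℂ} (h : Tor x) : x ≠ 0 := by
  intro e
  have := h.norm
  simp [e] at this

theorem Tor.mul {x y : ℂ} (hx : Tor x) (hy : Tor y) : Tor (x * y) := by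
  obtain ⟨n, hn, e⟩ := hx
  obtain ⟨m, hm, f⟩ := hy
  exact ⟨n * m, Nat.mul_pos hn hm, by
    rw [mul_pow, pow_mul, e, one_pow, mul_comm n m, pow_mul, f, one_pow, mul_one]⟩

theorem Tor.zpow {x : ℂ} (hx : Tor x) (k : ℤ) : Tor (x ^ k) := by
  obtain ⟨n, hn, e⟩ := hx
  exact ⟨n, hn, by rw [← zpow_natCast, ← zpow_mul, mul_comm, zpow_mul, zpow_natCast, e, one_zpow]⟩

theorem Tor.pow {x : ℂ} (hx : Tor x) (k : ℕ) : Tor (x ^ k) := by
  simpa using hx.zpow k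

theorem Tor.alg {x : ℂ} (hx : Tor x) : IsAlgebraic ℚ x := by
  obtain ⟨n, hn, e⟩ := hx
  have : IsIntegral ℤ x := by simpa using int_zpow hn e 1
  exact (this.tower_top (A := ℚ)).isAlgebraic

/-- a root of unity other than `1` is not too near `1`. -/
theorem tor_dist {δ : ℂ} {n : ℕ} (hn : 0 < n) (h : δ ^ n = 1) (h1 : δ ≠ 1) :
    2 / (n : ℝ) ≤ ‖δ - 1‖ := by
  have hδ : ‖δ‖ = 1 := Complex.norm_eq_one_of_pow_eq_one h hn.ne'
  have hs : ∑ i ∈ range n, δ ^ i = 0 := by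
    have := mul_geom_sum δ n
    rw [h, sub_self] at this
    exact (mul_eq_zero.1 this).resolve_left (sub_ne_zero.2 h1)
  have hb : ∀ i : ℕ, ‖1 - δ ^ i‖ ≤ i * ‖δ - 1‖ := by
    intro i
    induction i with
    | zero => simp
    | succ i ih =>
      have : 1 - δ ^ (i + 1) = (1 - δ ^ i) - δ ^ i * (δ - 1) := by ring
      rw [this]
      refine (norm_sub_le _ _).trans ?_
      rw [norm_mul, norm_pow, hδ, one_pow]
      push_cast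
      linarith
  have e : (n : ℂ) = ∑ i ∈ range n, (1 - δ ^ i) := by simp [sum_sub_distrib, hs]
  have h2 : (n : ℝ) ≤ ∑ i ∈ range n, (i : ℝ) * ‖δ - 1‖ := by
    have := norm_sum_le (range n) fun i => 1 - δ ^ i
    rw [← e, Complex.norm_natCast] at this
    exact this.trans (sum_le_sum fun i _ => hb i)
  have h3 : ∀ m : ℕ, ∑ i ∈ range m, (i : ℝ) ≤ m * m / 2 := by
    intro m
    induction m with
    | zero => simp
    | succ m ih => rw [sum_range_succ]; push_cast; nlinarith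
  rw [← sum_mul] at h2
  have hn' : (0 : ℝ) < n := by exact_mod_cast hn
  have h4 := mul_le_mul_of_nonneg_right (h3 n) (norm_nonneg (δ - 1))
  rw [div_le_iff₀ hn']
  nlinarith

theorem NoCoset.ne_zero {P : LP} (h : NoCoset P) : P ≠ 0 := by
  obtain ⟨t, -, e⟩ := h 1 1 one_ne_zero one_ne_zero 1 0 (Or.inl one_ne_zero)
  rintro rfl
  simp [ev] at e

theorem NoCoset.F1_ne_zero {P : LP} (h : NoCoset P) {η₁ η₂ : ℂ} (h₁ : η₁ ≠ 0) (h₂ : η₂ ≠ 0)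
    {v₁ v₂ : ℤ} (hv : v₁ ≠ 0 ∨ v₂ ≠ 0) : F1 P η₁ η₂ v₁ v₂ ≠ 0 := by
  obtain ⟨t, t0, e⟩ := h η₁ η₂ h₁ h₂ v₁ v₂ hv
  intro z
  have := F1_eval P η₁ η₂ v₁ v₂ t0
  rw [z, eval_zero] at this
  exact mul_ne_zero (pow_ne_zero _ t0) e this.symm

theorem one_le_Hn {P : LP} (h : P ≠ 0) : 1 ≤ Hn P := by
  have : P.coeff ≠ 0 := fun e => h (AddMonoidAlgebra.coeff_injective (by simpa using e))
  obtain ⟨μ, hμ⟩ := Finsupp.support_nonempty_iff.2 this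
  have h1 : (P.coeff μ).natAbs ≤ Hn P :=
    single_le_sum (f := fun μ => (P.coeff μ).natAbs) (fun _ _ => Nat.zero_le _) hμ
  have := Int.natAbs_pos.2 (Finsupp.mem_support_iff.1 hμ)
  omega

end Pool.Agent.MP_c1891a_nt.H43
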