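import Pool.Agent.MP_c1891a_nt.H43.Spec2

/-
Counting unit values: translates by points of order dividing `n`, and points of a given order.
-/

namespace Pool.Agent.MP_c1891a_nt.H43

open Finset Polynomial

/-- a point with the property `U` has a conjugate where `P` is very small. -/
def SpkU (U : ℂ → ℂ → Prop) (P : LP) : Prop :=
  ∃ B N₀ : ℕ, ∀ N : ℕ, N₀ ≤ N →
    ∀ (ξ : ℂ) (e : Fin 2 → ℤ), IsPrimitiveRoot ξ N → Gen N e →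
      U (ξ ^ e 0) (ξ ^ e 1) → ¬ Rel B (ξ ^ e 0) (ξ ^ e 1) →
      ∃ j : ℕ, Nat.Coprime j N ∧ ev P ((ξ ^ e 0) ^ j) ((ξ ^ e 1) ^ j) ≠ 0 ∧
        ‖ev P ((ξ ^ e 0) ^ j) ((ξ ^ e 1) ^ j)‖ ≤ Real.exp (-(N : ℝ) ^ (999 / 1000 : ℝ))

/-- a unit value has a very small conjugate. -/
abbrev Spk (P : LP) : Prop := SpkU (fun x y => H79.IsU (ev P x y)) P

theorem Rel.mono {B B' : ℕ} {x y : ℂ} (h : Rel B x y) (hB : B ≤ B') : Rel B' x y := by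
  obtain ⟨m, n, h0, h1, h2, h3⟩ := h
  have : (B : ℤ) ≤ B' := by exact_mod_cast hB
  exact ⟨m, n, h0, h1.trans this, h2.trans this, h3⟩

theorem rel_of_pow {B N : ℕ} {x : ℂ} (y : ℂ) (h0 : 0 < N) (hB : N ≤ B) (h : x ^ N = 1) :
    Rel B x y :=
  ⟨N, 0, Or.inl (by omega), by rw [abs_of_nonneg (by omega)]; exact_mod_cast hB, by simp,
    by simpa using h⟩

/-- the data attached to a torsion point with a unit value. -/
structure Dat (P : LP) (x y : ℂ) (N j : ℕ) : Prop where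
  pos : 0 < N
  px : x ^ N = 1
  py : y ^ N = 1
  ord : ∀ k : ℕ, x ^ k = 1 → y ^ k = 1 → N ∣ k
  cyc : ∀ n : ℕ, ∃ f : ℂ → ℂ × ℂ, ∀ t : ℕ, (x ^ t) ^ n = 1 → (y ^ t) ^ n = 1 →
    ∃ ρ : ℂ, ρ ^ n = 1 ∧ f ρ = (x ^ t, y ^ t)
  cop : Nat.Coprime j N
  ne : ev P (x ^ j) (y ^ j) ≠ 0
  tiny : ‖ev P (x ^ j) (y ^ j)‖ ≤ Real.exp (-(N : ℝ) ^ (999 / 1000 : ℝ))

theorem Dat.small {P : LP} {x y : ℂ} {N j : ℕ} (h : Dat P x y N j) :
    ‖ev P (x ^ j) (y ^ j)‖ ≤ Real.exp (-(N : ℝ) ^ (49 / 50 : ℝ)) :=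
  h.tiny.trans (Real.exp_le_exp.2 (neg_le_neg (Real.rpow_le_rpow_of_exponent_le
    (by exact_mod_cast h.pos) (by norm_num))))

theorem dat (hG : SGen) {U : ℂ → ℂ → Prop} {P : LP} (h : SpkU U P) : ∃ B : ℕ, ∀ x y : ℂ,
    Tor x → Tor y → U x y → ¬ Rel B x y → ∃ N j, Dat P x y N j := by
  obtain ⟨B, N₀, h⟩ := h
  refine ⟨B + N₀, fun x y ⟨a, ha, hx⟩ ⟨b, hb, hy⟩ hU hR => ?_⟩
  obtain ⟨N, ξ, e, N0, -, hξ, hg, he, ho⟩ := hG 2 ![x, y] (a * b) (Nat.mul_pos ha hb) (by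
    intro i
    fin_cases i
    · simp [pow_mul, hx]
    · simp [mul_comm a b, pow_mul, hy])
  have ex : x = ξ ^ e 0 := he 0
  have ey : y = ξ ^ e 1 := he 1
  have pw : ∀ k : ℤ, (ξ ^ k) ^ N = 1 := fun k => by
    rw [← zpow_natCast, ← zpow_mul, mul_comm, zpow_mul, zpow_natCast, hξ.pow_eq_one, one_zpow]
  have px : x ^ N = 1 := ex ▸ pw _
  have hN : N₀ ≤ N := by
    by_contra c
    exact hR (rel_of_pow y N0 (by omega) px)
  obtain ⟨j, j1, j2, j3⟩ := h N hN ξ e hξ hg (by rwa [← ex, ← ey])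
    (by rw [← ex, ← ey]; exact fun c => hR (c.mono (by omega)))
  rw [← ex, ← ey] at j2 j3
  refine ⟨N, j, N0, px, ey ▸ pw _, fun k k1 k2 => ho k ?_, fun n => ?_, j1, j2, j3⟩
  · intro i
    fin_cases i
    · exact k1
    · exact k2
  · refine ⟨fun ρ => (ρ ^ e 0, ρ ^ e 1), fun t t1 t2 => ⟨ξ ^ t, ?_, ?_⟩⟩
    · rw [← pow_mul, hξ.pow_eq_one_iff_dvd]
      refine ho _ fun i => ?_
      fin_cases i
      · simpa [pow_mul] using t1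
      · simpa [pow_mul] using t2
    · simp only [ex, ey, ← zpow_natCast, ← zpow_mul, mul_comm]

theorem Dat.inv {P : LP} {x y : ℂ} {N j : ℕ} (h : Dat P x y N j) :
    ∃ i : ℕ, Nat.Coprime i N ∧ i < N ∧ (x ^ j) ^ i = x ∧ (y ^ j) ^ i = y := by
  have : NeZero N := ⟨h.pos.ne'⟩
  let u := ZMod.unitOfCoprime j h.cop
  have e : j * ((u⁻¹ : (ZMod N)ˣ) : ZMod N).val ≡ 1 [MOD N] := by
    rw [← ZMod.natCast_eq_natCast_iff]
    push_cast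
    rw [ZMod.natCast_zmod_val, ← ZMod.coe_unitOfCoprime j h.cop]
    exact u.mul_inv
  have k : ∀ z : ℂ, z ^ N = 1 → (z ^ j) ^ ((u⁻¹ : (ZMod N)ˣ) : ZMod N).val = z := fun z hz => by
    rw [← pow_mul, pow_eq_pow_mod _ hz, e, ← pow_eq_pow_mod _ hz, pow_one]
  exact ⟨_, ZMod.val_coe_unit_coprime _, ZMod.val_lt _, k x h.px, k y h.py⟩

theorem Dat.le {P : LP} {x y : ℂ} {N j : ℕ} (h : Dat P x y N j) (k : ℕ) (hk : 0 < k)
    (h1 : (x ^ j) ^ k = 1) (h2 : (y ^ j) ^ k = 1) : N ≤ k := by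
  obtain ⟨i, -, -, i1, i2⟩ := h.inv
  refine Nat.le_of_dvd hk (h.ord k ?_ ?_)
  · rw [← i1, ← pow_mul, mul_comm, pow_mul, h1, one_pow]
  · rw [← i2, ← pow_mul, mul_comm, pow_mul, h2, one_pow]

/-- the bounded tuples. -/
noncomputable def Tup (B : ℕ) : Finset (ℕ × ℤ × ℤ × ℤ × ℤ) :=
  Icc 1 B ×ˢ Icc (-B : ℤ) B ×ˢ Icc (-B : ℤ) B ×ˢ Icc (-B : ℤ) B ×ˢ Icc (-B : ℤ) B

theorem exp_mono' {N N' : ℕ} (h : N ≤ N') {t : ℝ} (ht : 0 ≤ t) :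
    Real.exp (-(N' : ℝ) ^ t) ≤ Real.exp (-(N : ℝ) ^ t) :=
  Real.exp_le_exp.2 (neg_le_neg (Real.rpow_le_rpow (Nat.cast_nonneg _) (by exact_mod_cast h) ht))

theorem exp_mono {N N' : ℕ} (h : N ≤ N') :
    Real.exp (-(N' : ℝ) ^ (49 / 50 : ℝ)) ≤ Real.exp (-(N : ℝ) ^ (49 / 50 : ℝ)) :=
  exp_mono' h (by norm_num)

theorem pairT (hP : SPair) {P : LP} (h : NoCoset P) : ∃ B : ℕ, ∀ n : ℕ, ∃ N₀ : ℕ,
    ∀ (x y x' y' : ℂ) (N j N' j' : ℕ), Dat P x y N j → Dat P x' y' N' j' → N₀ ≤ N → N₀ ≤ N' →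
      0 < n → x ^ n = x' ^ n ∧ y ^ n = y' ^ n ∨ N = N' →
      ∃ τ ∈ Tup B, (x' ^ j') ^ τ.1 = (x ^ j) ^ τ.2.1 * (y ^ j) ^ τ.2.2.1 ∧
        (y' ^ j') ^ τ.1 = (x ^ j) ^ τ.2.2.2.1 * (y ^ j) ^ τ.2.2.2.2 := by
  obtain ⟨B, hB⟩ := hP P P h h
  refine ⟨B, fun n => ?_⟩
  obtain ⟨N₀, hN⟩ := hB n
  refine ⟨N₀, fun x y x' y' N j N' j' d d' h1 h2 hn he => ?_⟩
  have k0 : ∀ (z z' : ℂ) (i K : ℕ), z ^ n = z' ^ n → z' ^ K = 1 → (z ^ i) ^ (n * K) = 1 := by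
    intro z z' i K c b
    rw [← pow_mul, mul_comm i, pow_mul, pow_mul, c, ← pow_mul z' n, mul_comm n, pow_mul z' K, b,
      one_pow, one_pow]
  have k : ∀ (z z' : ℂ) (i : ℕ), z ^ N = 1 → z' ^ N' = 1 → (z ^ n = z' ^ n ∨ N = N') →
      (z ^ i) ^ (n * min N N') = 1 := by
    intro z z' i a b c
    rcases le_total N N' with l | l
    · rw [min_eq_left l]; exact k0 z z i N rfl a
    · rw [min_eq_right l]
      rcases c with c | c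
      · exact k0 z z' i N' c b
      · exact k0 z z i N' rfl (c ▸ a)
  have k' : ∀ (z z' : ℂ) (i : ℕ), z ^ N = 1 → z' ^ N' = 1 → (z ^ n = z' ^ n ∨ N = N') →
      (z' ^ i) ^ (n * min N N') = 1 := by
    intro z z' i a b c
    rcases le_total N N' with l | l
    · rw [min_eq_left l]
      rcases c with c | c
      · exact k0 z' z i N c.symm a
      · exact k0 z' z' i N rfl (c ▸ b)
    · rw [min_eq_right l]; exact k0 z' z' i N' rfl b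
  have ex : x ^ n = x' ^ n ∨ N = N' := he.imp_left And.left
  have ey : y ^ n = y' ^ n ∨ N = N' := he.imp_left And.right
  obtain ⟨m, a, b, c, d₀, m0, m1, ha, hb, hc, hd, e1, e2⟩ := hN (min N N') (n * min N N')
    (x ^ j) (y ^ j) (x' ^ j') (y' ^ j') (le_min h1 h2) (Nat.mul_pos hn (lt_min d.pos d'.pos)) le_rfl
    (k x x' j d.px d'.px ex) (k y y' j d.py d'.py ey) (k' x x' j' d.px d'.px ex)
    (k' y y' j' d.py d'.py ey) (fun k k0 k1 k2 => (min_le_left _ _).trans (d.le k k0 k1 k2))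
    d.ne d'.ne (d.small.trans (exp_mono (min_le_left _ _)))
    (d'.small.trans (exp_mono (min_le_right _ _)))
  refine ⟨(m, a, b, c, d₀), ?_, e1, e2⟩
  simp only [Tup, mem_product, mem_Icc, ← abs_le]
  exact ⟨⟨m0, m1⟩, ha, hb, hc, hd⟩

theorem card_roots_le (m : ℕ) (a : ℂ) : (nthRoots m a).toFinset.card ≤ m :=
  (Multiset.toFinset_card_le _).trans (card_nthRoots m a)

/-- a set whose `m`-th powers lie in a set of size `K`. -/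
theorem card_pow_le {m K : ℕ} (hm : 0 < m) (S T : Finset (ℂ × ℂ)) (hT : T.card ≤ K)
    (h : ∀ z ∈ S, (z.1 ^ m, z.2 ^ m) ∈ T) : S.card ≤ m ^ 2 * K := by
  classical
  refine (card_le_mul_card_image_of_maps_to (f := fun z : ℂ × ℂ => (z.1 ^ m, z.2 ^ m)) h (m ^ 2)
    fun t _ => ?_).trans (Nat.mul_le_mul_left _ hT)
  refine (card_le_card (t := (nthRoots m t.1).toFinset ×ˢ (nthRoots m t.2).toFinset) ?_).trans ?_
  · intro z hz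
    obtain ⟨-, e⟩ := mem_filter.1 hz
    simp only [mem_product, Multiset.mem_toFinset, mem_nthRoots hm, ← e, and_self]
  · rw [card_product, sq]
    exact Nat.mul_le_mul (card_roots_le m _) (card_roots_le m _)

theorem few (hG : SGen) (hP : SPair) {U : ℂ → ℂ → Prop} {P : LP} (h : NoCoset P)
    (hs : SpkU U P) :
    ∃ C : ℕ, ∀ n : ℕ, 0 < n → ∃ B : ℕ,
    ∀ x y : ℂ, Tor x → Tor y → ¬ Rel B (x ^ n) (y ^ n) → ∀ S : Finset (ℂ × ℂ),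
      (∀ η ∈ S, η.1 ^ n = 1 ∧ η.2 ^ n = 1 ∧ U (η.1 * x) (η.2 * y)) →
      S.card ≤ C * n := by
  classical
  obtain ⟨B₁, h₁⟩ := dat hG hs
  obtain ⟨B₂, h₂⟩ := pairT hP h
  refine ⟨B₂ ^ 2 * (Tup B₂).card, fun n hn => ?_⟩
  obtain ⟨N₀, h₂⟩ := h₂ n
  refine ⟨B₁ + N₀, fun x y hx hy hR S hS => ?_⟩
  have pn : ∀ η ∈ S, (η.1 * x) ^ n = x ^ n ∧ (η.2 * y) ^ n = y ^ n := fun η hη => by
    simp [mul_pow, (hS η hη).1, (hS η hη).2.1]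
  have hd : ∀ η : ℂ × ℂ, ∃ N j, η ∈ S → Dat P (η.1 * x) (η.2 * y) N j ∧ N₀ ≤ N := by
    intro η
    by_cases hη : η ∈ S
    swap
    · exact ⟨0, 0, fun c => absurd c hη⟩
    obtain ⟨a, b, c⟩ := hS η hη
    obtain ⟨N, j, d⟩ := h₁ _ _ (Tor.mul ⟨n, hn, a⟩ hx) (Tor.mul ⟨n, hn, b⟩ hy) c (by
      rintro ⟨m, m', r0, r1, r2, r3⟩
      refine hR (Rel.mono ⟨m, m', r0, r1, r2, ?_⟩ (Nat.le_add_right _ _))
      rw [← (pn η hη).1, ← (pn η hη).2, ← zpow_natCast, ← zpow_natCast, ← zpow_mul, ← zpow_mul,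
        mul_comm (n : ℤ), mul_comm (n : ℤ), zpow_mul, zpow_mul, ← mul_zpow, r3, one_zpow])
    refine ⟨N, j, fun _ => ⟨d, ?_⟩⟩
    by_contra c
    refine hR (rel_of_pow _ d.pos (by omega) ?_)
    rw [← (pn η hη).1, ← pow_mul, mul_comm n, pow_mul, d.px, one_pow]
  choose N j hd using hd
  rcases S.eq_empty_or_nonempty with rfl | ⟨η₀, h₀⟩
  · simp
  have ht : ∀ η : ℂ × ℂ, ∃ τ, η ∈ S → τ ∈ Tup B₂ ∧
      ((η.1 * x) ^ j η) ^ τ.1 = ((η₀.1 * x) ^ j η₀) ^ τ.2.1 * ((η₀.2 * y) ^ j η₀) ^ τ.2.2.1 ∧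
      ((η.2 * y) ^ j η) ^ τ.1 =
        ((η₀.1 * x) ^ j η₀) ^ τ.2.2.2.1 * ((η₀.2 * y) ^ j η₀) ^ τ.2.2.2.2 := by
    intro η
    by_cases hη : η ∈ S
    swap
    · exact ⟨default, fun c => absurd c hη⟩
    obtain ⟨τ, t⟩ := h₂ _ _ _ _ _ _ _ _ (hd η₀ h₀).1 (hd η hη).1 (hd η₀ h₀).2 (hd η hη).2 hn
      (Or.inl ⟨(pn _ h₀).1.trans (pn _ hη).1.symm, (pn _ h₀).2.trans (pn _ hη).2.symm⟩)
    exact ⟨τ, fun _ => t⟩
  choose τ ht using ht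
  rw [mul_assoc, mul_comm _ n, ← mul_assoc]
  refine card_le_mul_card_image_of_maps_to (f := τ) (fun η hη => (ht η hη).1) _ fun t htt => ?_
  rcases (S.filter fun η => τ η = t).eq_empty_or_nonempty with e | ⟨η', h'⟩
  · simp [e]
  obtain ⟨s', e'⟩ := mem_filter.1 h'
  have tm : 0 < t.1 ∧ t.1 ≤ B₂ := by
    have := (mem_product.1 htt).1
    rw [mem_Icc] at this
    omega
  obtain ⟨f, hf⟩ := (hd η' s').1.cyc n
  refine (card_pow_le (K := n) tm.1 _ ((nthRoots n (1 : ℂ)).toFinset.image fun ρ =>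
    ((f ρ).1 * η'.1 ^ t.1, (f ρ).2 * η'.2 ^ t.1)) (card_image_le.trans (card_roots_le n _))
    fun η hη => ?_).trans (Nat.mul_le_mul_right _ (Nat.pow_le_pow_left tm.2 2))
  obtain ⟨s, e⟩ := mem_filter.1 hη
  obtain ⟨i, -, -, i1, i2⟩ := (hd η s).1.inv
  have a1 := (ht η s).2.1
  have a2 := (ht η s).2.2
  have b1 := (ht η' s').2.1
  have b2 := (ht η' s').2.2
  rw [e] at a1 a2
  rw [e'] at b1 b2
  have c1 : (η.1 * x) ^ t.1 = (η'.1 * x) ^ (j η' * t.1 * i) := by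
    rw [pow_mul, pow_mul, b1, ← a1, ← pow_mul _ t.1, mul_comm t.1, pow_mul _ i, i1]
  have c2 : (η.2 * y) ^ t.1 = (η'.2 * y) ^ (j η' * t.1 * i) := by
    rw [pow_mul, pow_mul, b2, ← a2, ← pow_mul _ t.1, mul_comm t.1, pow_mul _ i, i2]
  have N0 := (hd η' s').1.pos
  have key : ∀ a a' z : ℂ, z ≠ 0 → a ^ n = 1 → a' ^ n = 1 → (a' * z) ^ N η' = 1 →
      (a * z) ^ t.1 = (a' * z) ^ (j η' * t.1 * i) →
      (a' * z) ^ (j η' * t.1 * i + t.1 * (N η' - 1)) * a' ^ t.1 = a ^ t.1 ∧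
      ((a' * z) ^ (j η' * t.1 * i + t.1 * (N η' - 1))) ^ n = 1 := by
    intro a a' z hz ha ha' hN c
    have e1 : (a' * z) ^ (j η' * t.1 * i + t.1 * (N η' - 1)) * a' ^ t.1 = a ^ t.1 := by
      refine mul_right_cancel₀ (pow_ne_zero t.1 hz) ?_
      rw [mul_assoc, ← mul_pow, ← mul_pow, c, ← pow_add, add_assoc, ← Nat.mul_succ,
        Nat.succ_eq_add_one, Nat.sub_add_cancel N0, pow_add, mul_comm t.1 (N η'), pow_mul _ (N η'),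
        hN, one_pow, mul_one]
    refine ⟨e1, ?_⟩
    have := congrArg (· ^ n) e1
    simp only [mul_pow _ (a' ^ t.1), ← pow_mul a', ← pow_mul a, mul_comm t.1 n, pow_mul a' n,
      pow_mul a n, ha, ha', one_pow, mul_one] at this
    exact this
  obtain ⟨u1, u2⟩ := key _ _ _ hx.ne_zero (hS η s).1 (hS η' s').1 (hd η' s').1.px c1
  obtain ⟨w1, w2⟩ := key _ _ _ hy.ne_zero (hS η s).2.1 (hS η' s').2.1 (hd η' s').1.py c2
  obtain ⟨ρ, r1, r2⟩ := hf _ u2 w2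
  refine mem_image.2 ⟨ρ, by rw [Multiset.mem_toFinset, mem_nthRoots hn, r1], ?_⟩
  rw [r2, u1, w1]

end Pool.Agent.MP_c1891a_nt.H43
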