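import Pool.Agent.MP_c1891a_nt.H43.All

/-! The results for every polynomial whose zeros are not in finitely many proper subgroups. -/

namespace Pool.Agent.MP_c1891a_nt.H43

open Finset Polynomial

theorem aeval_int (G : ℤ[X]) {ω : ℂ} (h : Tor ω) : IsIntegral ℤ (aeval ω G) := by
  obtain ⟨n, hn, e⟩ := h
  have : IsIntegral ℤ ω := by simpa using int_zpow hn e 1
  exact IsIntegral.of_mem_of_fg _ this.fg_adjoin_singleton _ (aeval_mem_adjoin_singleton ℤ ω)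

/-- reduction to a factor without cosets. -/
theorem red {P : LP} (h : Big P) :
    (∃ Q : LP, NoCoset Q ∧ NonMon Q ∧ (∀ x y : ℂ, x ≠ 0 → y ≠ 0 → ev Q x y = 0 → ev P x y = 0) ∧
      ∀ x y : ℂ, Tor x → Tor y → H79.IsU (ev P x y) → H79.IsU (ev Q x y)) ∨
    ∃ B : ℕ, ∀ x y : ℂ, Tor x → Tor y → H79.IsU (ev P x y) → Rel B x y := by
  by_cases h0 : P = 0
  · refine Or.inr ⟨0, fun x y _ _ hu => absurd ?_ hu.1⟩
    simp [h0, ev]
  rcases sFac P h0 h with ⟨Q, Q', c, m, e⟩ | ⟨G, a, b, ρ, Q', g0, ab, r0, rt, rg, e⟩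
  · refine Or.inl ⟨Q, c, m, fun x y hx hy z => by rw [e x y hx hy, z, zero_mul],
      fun x y hx hy hu => ?_⟩
    rw [e x y hx.ne_zero hy.ne_zero] at hu
    exact prod_unit (ev_int Q hx hy) (ev_int Q' hx hy) hu
  · obtain ⟨B, hB⟩ := allOne G ρ g0 r0 rt rg
    refine Or.inr ⟨B * (a.natAbs + b.natAbs), fun x y hx hy hu => ?_⟩
    rw [e x y hx.ne_zero hy.ne_zero] at hu
    have t : Tor (x ^ a * y ^ b) := (hx.zpow a).mul (hy.zpow b)
    obtain ⟨s, s0, s1, s2⟩ := hB _ t (prod_unit (aeval_int G t) (ev_int Q' hx hy) hu)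
    have s3 : (s : ℤ) ≤ B := by exact_mod_cast s1
    have s4 : (0 : ℤ) < s := by exact_mod_cast s0
    have ha := abs_nonneg a
    have hb := abs_nonneg b
    refine ⟨a * s, b * s, ab.imp (mul_ne_zero · s4.ne') (mul_ne_zero · s4.ne'), ?_, ?_, ?_⟩
    · rw [abs_mul, abs_of_pos s4]; push_cast; nlinarith
    · rw [abs_mul, abs_of_pos s4]; push_cast; nlinarith
    · rw [zpow_mul, zpow_mul, ← mul_zpow, zpow_natCast, s2]

theorem mainOrb {P : LP} (h : Big P) :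
    ∃ C B : ℕ, ∀ M : ℕ, 0 < M → ∃ S : Finset (ℂ × ℂ), S.card ≤ C ∧
      ∀ x y : ℂ, x ^ M = 1 → y ^ M = 1 → M ^ 49 ≤ orderOf ((x, y) : ℂ × ℂ) ^ 50 →
        H79.IsU (ev P x y) → Rel B x y ∨
        ∃ j : ℕ, Nat.Coprime j (orderOf ((x, y) : ℂ × ℂ)) ∧ (x ^ j, y ^ j) ∈ S := by
  rcases red h with ⟨Q, c, m, -, e⟩ | ⟨B, hB⟩
  · obtain ⟨C, B, hC⟩ := window allFin allAnom sGen c (allSpk c m)
    refine ⟨C, B, fun M hM => ?_⟩
    obtain ⟨S, s1, s2⟩ := hC M hM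
    refine ⟨S, s1, fun x y hx hy ho hu => ?_⟩
    by_cases r : Rel B x y
    · exact Or.inl r
    · exact Or.inr (s2 x y hx hy ho (e x y ⟨M, hM, hx⟩ ⟨M, hM, hy⟩ hu) r)
  · exact ⟨0, B, fun M hM => ⟨∅, le_rfl, fun x y hx hy _ hu =>
      Or.inl (hB x y ⟨M, hM, hx⟩ ⟨M, hM, hy⟩ hu)⟩⟩

theorem mainProd {P Q : LP} (hP : Big P) (hQ : Big Q) (hI : NonIso P Q) :
    ∃ B : ℕ, ∀ x y : ℂ, Tor x → Tor y → H79.IsU (ev P x y * ev Q x y) → Rel B x y := by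
  have uP : ∀ x y : ℂ, Tor x → Tor y → H79.IsU (ev P x y * ev Q x y) → H79.IsU (ev P x y) :=
    fun x y tx ty hu => prod_unit (ev_int P tx ty) (ev_int Q tx ty) hu
  have uQ : ∀ x y : ℂ, Tor x → Tor y → H79.IsU (ev P x y * ev Q x y) → H79.IsU (ev Q x y) :=
    fun x y tx ty hu => prod_unit (ev_int Q tx ty) (ev_int P tx ty) (mul_comm (ev P x y) _ ▸ hu)
  rcases red hP with ⟨P', c, m, z, e⟩ | ⟨B, hB⟩
  swap
  · exact ⟨B, fun x y tx ty hu => hB x y tx ty (uP x y tx ty hu)⟩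
  rcases red hQ with ⟨Q', c', m', z', e'⟩ | ⟨B, hB⟩
  swap
  · exact ⟨B, fun x y tx ty hu => hB x y tx ty (uQ x y tx ty hu)⟩
  obtain ⟨B, hB⟩ := allProd P' Q' c m c' m' fun k a b p q k0 k1 => (hI k a b p q k0 k1).subset
    fun w ⟨w1, w2, w3, w4, w5, w6, w7⟩ => ⟨w1, w2, w3, w4, z _ _ w1 w2 w5, z' _ _ w3 w4 w6, w7⟩
  refine ⟨B, fun x y tx ty hu => hB x y tx ty ?_⟩
  obtain ⟨a1, a2, a3⟩ := e x y tx ty (uP x y tx ty hu)
  obtain ⟨b1, b2, b3⟩ := e' x y tx ty (uQ x y tx ty hu)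
  exact ⟨mul_ne_zero a1 b1, a2.mul b2, by rw [mul_inv]; exact a3.mul b3⟩

/-- not all translates by the points of order dividing `n` give units. -/
theorem mainAll {P : LP} (h : Big P) : ∃ n₀ : ℕ, ∀ n : ℕ, n₀ ≤ n → 0 < n ∧ ∃ B : ℕ,
    ∀ x y : ℂ, Tor x → Tor y →
      (∀ η₁ η₂ : ℂ, η₁ ^ n = 1 → η₂ ^ n = 1 → H79.IsU (ev P (η₁ * x) (η₂ * y))) →
      Rel B (x ^ n) (y ^ n) ∨ Rel B x y := by
  rcases red h with ⟨Q, c, m, -, e⟩ | ⟨B, hB⟩
  · obtain ⟨C, hC⟩ := few sGen allPair c (allSpk c m)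
    refine ⟨C + 1, fun n hn => ⟨by omega, ?_⟩⟩
    have n0 : 0 < n := by omega
    obtain ⟨B, hB⟩ := hC n n0
    refine ⟨B, fun x y tx ty hu => Or.inl ?_⟩
    by_contra r
    have := hB x y tx ty r (nthRootsFinset n (1 : ℂ) ×ˢ nthRootsFinset n (1 : ℂ)) fun η hη => by
      obtain ⟨a, b⟩ := mem_product.1 hη
      rw [mem_nthRootsFinset n0] at a b
      exact ⟨a, b, e _ _ (Tor.mul ⟨n, n0, a⟩ tx) (Tor.mul ⟨n, n0, b⟩ ty) (hu _ _ a b)⟩
    rw [card_product, (Complex.isPrimitiveRoot_exp n n0.ne').card_nthRootsFinset] at this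
    have := Nat.le_of_mul_le_mul_right this n0
    omega
  · refine ⟨1, fun n hn => ⟨hn, B, fun x y tx ty hu => Or.inr (hB x y tx ty ?_)⟩⟩
    simpa using hu 1 1 (one_pow n) (one_pow n)

theorem tor_root {X : ℂ} (h : Tor X) {D : ℤ} (hD : D ≠ 0) : ∃ u : ℂ, Tor u ∧ u ^ D = X := by
  have k : 0 < D.natAbs := Int.natAbs_pos.2 hD
  obtain ⟨u, hu⟩ := IsAlgClosed.exists_pow_nat_eq X k
  obtain ⟨n, hn, e⟩ := h
  have t : Tor u := ⟨D.natAbs * n, Nat.mul_pos k hn, by rw [pow_mul, hu, e]⟩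
  refine ⟨u ^ D.sign, t.zpow _, ?_⟩
  rw [← zpow_mul, Int.sign_mul_self_eq_natAbs, zpow_natCast, hu]

/-- a relation passes to the image under an isogeny. -/
theorem rel_image {B : ℕ} {x y : ℂ} (hx : x ≠ 0) (hy : y ≠ 0) {a b c d : ℤ} (hD : a * d ≠ b * c)
    (h : Rel B x y) : Rel (B * (a.natAbs + b.natAbs + c.natAbs + d.natAbs))
      (x ^ a * y ^ b) (x ^ c * y ^ d) := by
  obtain ⟨m, n, h0, h1, h2, h3⟩ := h
  have ha := abs_nonneg a
  have hb := abs_nonneg b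
  have hc := abs_nonneg c
  have hd := abs_nonneg d
  have hm := abs_nonneg m
  have hn := abs_nonneg n
  refine ⟨d * m - c * n, a * n - b * m, ?_, ?_, ?_, ?_⟩
  · by_contra z
    simp only [not_or, not_not] at z
    have D := sub_ne_zero.2 hD
    rcases h0 with h0 | h0
    · exact mul_ne_zero D h0 (by linear_combination a * z.1 + c * z.2)
    · exact mul_ne_zero D h0 (by linear_combination b * z.1 + d * z.2)
  · refine (abs_sub _ _).trans ?_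
    rw [abs_mul, abs_mul]; push_cast; nlinarith
  · refine (abs_sub _ _).trans ?_
    rw [abs_mul, abs_mul]; push_cast; nlinarith
  · have : (x ^ m * y ^ n) ^ (a * d - b * c) = 1 := by rw [h3, one_zpow]
    rw [← this]
    simp only [mul_zpow, ← zpow_mul]
    rw [mul_mul_mul_comm, ← zpow_add₀ hx, ← zpow_add₀ hy]
    congr 2 <;> ring

theorem mainPush {P : LP} (h : Big P) : ∃ n₀ : ℕ, ∀ n : ℕ, n₀ ≤ n → ∀ a b c d : ℤ,
    a * d ≠ b * c → ∀ R S : LP, (∀ x y : ℂ, x ≠ 0 → y ≠ 0 →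
      ev R (x ^ (n * a) * y ^ (n * b)) (x ^ (n * c) * y ^ (n * d)) = ev P x y * ev S x y) →
    ∃ B : ℕ, ∀ X Y : ℂ, Tor X → Tor Y → H79.IsU (ev R X Y) → Rel B X Y := by
  obtain ⟨n₀, h⟩ := mainAll h
  refine ⟨n₀, fun n hn a b c d hD R S e => ?_⟩
  obtain ⟨n0, B, hB⟩ := h n hn
  have n1 : (n : ℤ) ≠ 0 := by exact_mod_cast n0.ne'
  have hD' : n * a * (n * d) ≠ n * b * (n * c) := fun z => hD (by
    refine mul_left_cancel₀ (mul_ne_zero n1 n1) ?_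
    linear_combination z)
  refine ⟨B * (a.natAbs + b.natAbs + c.natAbs + d.natAbs) + B * ((n * a).natAbs + (n * b).natAbs +
    (n * c).natAbs + (n * d).natAbs), fun X Y tX tY hu => ?_⟩
  obtain ⟨u, tu, eu⟩ := tor_root tX (sub_ne_zero.2 hD')
  obtain ⟨v, tv, ev'⟩ := tor_root tY (sub_ne_zero.2 hD')
  have u0 := tu.ne_zero
  have v0 := tv.ne_zero
  obtain ⟨x, hx⟩ : ∃ x, x = u ^ (n * d) * v ^ (-(n * b)) := ⟨_, rfl⟩
  obtain ⟨y, hy⟩ : ∃ y, y = u ^ (-(n * c)) * v ^ (n * a) := ⟨_, rfl⟩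
  have tx : Tor x := hx ▸ (tu.zpow _).mul (tv.zpow _)
  have ty : Tor y := hy ▸ (tu.zpow _).mul (tv.zpow _)
  have eX : x ^ (n * a) * y ^ (n * b) = X := by
    rw [← eu, hx, hy]
    simp only [mul_zpow, ← zpow_mul]
    rw [mul_mul_mul_comm, ← zpow_add₀ u0, ← zpow_add₀ v0,
      show -(n * b) * (n * a) + n * a * (n * b) = (0 : ℤ) by ring, zpow_zero, mul_one]
    congr 1; ring
  have eY : x ^ (n * c) * y ^ (n * d) = Y := by
    rw [← ev', hx, hy]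
    simp only [mul_zpow, ← zpow_mul]
    rw [mul_mul_mul_comm, ← zpow_add₀ u0, ← zpow_add₀ v0,
      show n * d * (n * c) + -(n * c) * (n * d) = (0 : ℤ) by ring, zpow_zero, one_mul]
    congr 1; ring
  have k : ∀ (η z : ℂ) (t : ℤ), η ^ n = 1 → (η * z) ^ (n * t) = z ^ (n * t) := fun η z t hη => by
    rw [mul_zpow, zpow_mul η, zpow_natCast, hη, one_zpow, one_mul]
  rcases hB x y tx ty (fun η₁ η₂ a1 a2 => by
    have t1 : Tor (η₁ * x) := Tor.mul ⟨n, n0, a1⟩ tx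
    have t2 : Tor (η₂ * y) := Tor.mul ⟨n, n0, a2⟩ ty
    have := e _ _ t1.ne_zero t2.ne_zero
    rw [k _ _ _ a1, k _ _ _ a1, k _ _ _ a2, k _ _ _ a2, eX, eY] at this
    exact prod_unit (ev_int P t1 t2) (ev_int S t1 t2) (this ▸ hu)) with r | r
  · have := rel_image (pow_ne_zero n tx.ne_zero) (pow_ne_zero n ty.ne_zero) hD r
    simp only [← zpow_natCast, ← zpow_mul] at this
    rw [eX, eY] at this
    exact this.mono (Nat.le_add_right _ _)
  · have := rel_image tx.ne_zero ty.ne_zero hD' r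
    rw [eX, eY] at this
    exact this.mono (Nat.le_add_left _ _)

end Pool.Agent.MP_c1891a_nt.H43
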