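import Pool.Agent.MP_c1891a_nt.H43.Spec3

/-
The primitive part of a Laurent polynomial with algebraic coefficients.
-/

namespace Pool.Agent.MP_c1891a_nt.H43

/-- a multiple of `P` with integral coefficients that generate the unit ideal (Gauss's lemma). -/
def SPrim : Prop :=
  ∀ P : LC, (∀ μ, IsAlgebraic ℚ (P.coeff μ)) → P ≠ 0 → ∃ c : ℂ, c ≠ 0 ∧
    (∀ μ, IsIntegral ℤ (c * P.coeff μ)) ∧
    ∀ S : LC, (∀ μ, IsIntegral ℤ ((P * S).coeff μ)) → ∀ μ, IsIntegral ℤ (c⁻¹ * S.coeff μ)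

end Pool.Agent.MP_c1891a_nt.H43
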