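import Pool.Agent.MP_c1891a_nt.H43.Main
import Pool.Agent.MP_c1891a_nt.H43.Thin
import Pool.Agent.MP_c1891a_nt.H43.SpkC
import Pool.Agent.MP_c1891a_nt.H43.Spec4
import Pool.Agent.MP_c1891a_nt.H19.NormL
import Pool.Agent.MP_c1891a_nt.H44.Gal
import Pool.Agent.MP_c1891a_nt.H41.ManyC
import Pool.Agent.MP_c1891a_nt.H16.NA
import Pool.Agent.MP_c1891a_nt.H14.OneC
import Pool.Agent.MP_c1891a_nt.H51.FacC

/-! The results for algebraic coefficients. -/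

namespace Pool.Agent.MP_c1891a_nt.H43

open Finset Polynomial

/-- the points with the property `U` have a very small conjugate, or a bounded relation. -/
def Dich (U : ℂ → ℂ → Prop) : Prop :=
  (∃ R : LP, NoCoset R ∧ SpkU U R) ∨ ∃ B : ℕ, ∀ x y : ℂ, Tor x → Tor y → U x y → Rel B x y

theorem rel_mul {B s : ℕ} {x y : ℂ} {a b : ℤ} (ab : a ≠ 0 ∨ b ≠ 0) (s0 : 0 < s) (s1 : s ≤ B)
    (s2 : (x ^ a * y ^ b) ^ s = 1) : Rel (B * (a.natAbs + b.natAbs)) x y := by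
  have s3 : (s : ℤ) ≤ B := by exact_mod_cast s1
  have s4 : (0 : ℤ) < s := by exact_mod_cast s0
  have ha := abs_nonneg a
  have hb := abs_nonneg b
  refine ⟨a * s, b * s, ab.imp (mul_ne_zero · s4.ne') (mul_ne_zero · s4.ne'), ?_, ?_, ?_⟩
  · rw [abs_mul, abs_of_pos s4]; push_cast; nlinarith
  · rw [abs_mul, abs_of_pos s4]; push_cast; nlinarith
  · rw [zpow_mul, zpow_mul, ← mul_zpow, zpow_natCast, s2]

theorem int_or {P : LC} (ha : ∀ μ, IsAlgebraic ℚ (P.coeff μ)) : (∀ μ, IsIntegral ℤ (P.coeff μ)) ∨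
    ∃ B : ℕ, ∀ x y : ℂ, Tor x → Tor y → IsIntegral ℤ (evC P x y) → Rel B x y := by
  rcases sNA sGal _ P.coeff.support P.coeff fun μ _ => ha μ with h | ⟨B, hB⟩
  · refine Or.inl fun μ => ?_
    by_cases m : μ ∈ P.coeff.support
    · exact h μ m
    · rw [Finsupp.notMem_support_iff.1 m]; exact isIntegral_zero
  refine Or.inr ⟨B * (4 * RS P.coeff.support), fun x y tx ty hu => ?_⟩
  obtain ⟨μ, hμ, ν, hν, ne, s, s0, s1, s2⟩ := hB (fun μ => x ^ μ.1 * y ^ μ.2)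
    (fun μ _ => (tx.zpow _).mul (ty.zpow _)) (by simpa only [evC, evS, mul_assoc] using hu)
  have x0 := tx.ne_zero
  have y0 := ty.ne_zero
  refine (rel_mul (a := μ.1 - ν.1) (b := μ.2 - ν.2) ?_ s0 s1 ?_).mono (Nat.mul_le_mul_left _ ?_)
  · by_contra c
    push Not at c
    exact ne (Prod.ext (by linarith [c.1]) (by linarith [c.2]))
  · rw [zpow_sub₀ x0, zpow_sub₀ y0, div_mul_div_comm, div_pow, s2,
      div_self (pow_ne_zero _ (mul_ne_zero (zpow_ne_zero _ x0) (zpow_ne_zero _ y0)))]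
  · have := le_RS hμ
    have := le_RS hν
    omega

theorem dichC {P : LC} (ha : ∀ μ, IsAlgebraic ℚ (P.coeff μ)) (h : BigC P) :
    Dich fun x y => H79.IsU (evC P x y) := by
  by_cases h0 : P = 0
  · refine Or.inr ⟨0, fun x y _ _ hu => absurd ?_ hu.1⟩
    simp [h0, evC, evS]
  rcases int_or ha with hi | ⟨B, hB⟩
  swap
  · exact Or.inr ⟨B, fun x y tx ty hu => hB x y tx ty hu.2.1⟩
  rcases sFacC P hi h0 h with ⟨Q, qi, qc, q2, e⟩ | ⟨a, b, ρ, ab, r0, rt, ra, e⟩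
  · obtain ⟨K, _, _, ι₀, c, hc⟩ := num_field Q.coeff.support Q.coeff fun μ _ =>
      ((qi μ).tower_top (A := ℚ)).isAlgebraic
    have ci : ∀ μ ∈ Q.coeff.support, IsIntegral ℤ (c μ) := fun μ hμ =>
      (int_map ι₀).1 (hc μ hμ ▸ qi μ)
    have ce := evS_congr hc
    obtain ⟨R, r1, r2, r3⟩ := sNormL K ι₀ _ c ci (by simpa only [NoCosetS, ce] using qc)
    obtain ⟨B, N₀, hB⟩ := spkC sArith sPig2 sRep1 sRoot sManyC (sFrob sNormP) allFin (sEmb sGal)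
      allCount sField sNormP ι₀ ci (fun μ hμ z => Finsupp.mem_support_iff.1 hμ
        (by rw [← hc μ hμ, z, map_zero])) q2 r1 r2 r3
    refine Or.inl ⟨R, r1, B, N₀ + 1, fun N hN ξ v hξ hv hu => hB N (by omega) ξ v hξ hv ?_⟩
    have t : Tor ξ := ⟨N, by omega, hξ.pow_eq_one⟩
    simpa only [ce, evC] using e _ _ (t.zpow _) (t.zpow _) hu
  · obtain ⟨B, hB⟩ := sOneC sRoot sArith allTL (sEmb sGal) sNormP ρ r0 rt ra
    refine Or.inr ⟨B * (a.natAbs + b.natAbs), fun x y tx ty hu => ?_⟩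
    obtain ⟨s, s0, s1, s2⟩ := hB _ ((tx.zpow a).mul (ty.zpow b)) (e x y tx ty hu)
    exact rel_mul ab s0 s1 s2

theorem Dich.orb {U : ℂ → ℂ → Prop} (h : Dich U) :
    ∃ C B : ℕ, ∀ M : ℕ, 0 < M → ∃ S : Finset (ℂ × ℂ), S.card ≤ C ∧
      ∀ x y : ℂ, x ^ M = 1 → y ^ M = 1 → M ^ 49 ≤ orderOf ((x, y) : ℂ × ℂ) ^ 50 →
        U x y → Rel B x y ∨
        ∃ j : ℕ, Nat.Coprime j (orderOf ((x, y) : ℂ × ℂ)) ∧ (x ^ j, y ^ j) ∈ S := by
  rcases h with ⟨Q, c, m⟩ | ⟨B, hB⟩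
  · obtain ⟨C, B, hC⟩ := window allFin allAnom sGen c m
    refine ⟨C, B, fun M hM => ?_⟩
    obtain ⟨S, s1, s2⟩ := hC M hM
    refine ⟨S, s1, fun x y hx hy ho hu => ?_⟩
    by_cases r : Rel B x y
    · exact Or.inl r
    · exact Or.inr (s2 x y hx hy ho hu r)
  · exact ⟨0, B, fun M hM => ⟨∅, le_rfl, fun x y hx hy _ hu =>
      Or.inl (hB x y ⟨M, hM, hx⟩ ⟨M, hM, hy⟩ hu)⟩⟩

theorem Dich.ord {U : ℂ → ℂ → Prop} (h : Dich U) : ∃ (B : ℕ) (C : ℝ) (A : Set ℕ),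
    (∀ X : ℕ, ((A ∩ Set.Icc 1 X).ncard : ℝ) * Real.log X ≤ C * X) ∧
    ∀ x y : ℂ, 0 < orderOf ((x, y) : ℂ × ℂ) → orderOf ((x, y) : ℂ × ℂ) ∉ A →
      U x y → Rel B x y := by
  classical
  obtain ⟨C₀, B, h⟩ := h.orb
  obtain ⟨C, hC⟩ := thin {N | ∃ x y : ℂ, orderOf ((x, y) : ℂ × ℂ) = N ∧ U x y ∧
    ¬ Rel B x y} C₀ fun M hM T hT => by
      obtain ⟨S, s1, s2⟩ := h M hM
      refine (card_le_card (t := S.image orderOf) fun N hN => ?_).trans (card_image_le.trans s1)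
      obtain ⟨⟨x, y, rfl, u, r⟩, d, w⟩ := hT N hN
      have e := orderOf_dvd_iff_pow_eq_one.1 d
      rw [Prod.pow_mk] at e
      obtain ⟨j, j1, j2⟩ := (s2 x y (congrArg Prod.fst e) (congrArg Prod.snd e) w u).resolve_left r
      exact mem_image.2 ⟨_, j2, by rw [← Prod.pow_mk, j1.symm.orderOf_pow]⟩
  refine ⟨B, C, {N | ∃ x y : ℂ, orderOf ((x, y) : ℂ × ℂ) = N ∧ U x y ∧
    ¬ Rel B x y}, fun X => ?_, fun x y _ hA u => by_contra fun r => hA ⟨x, y, rfl, u, r⟩⟩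
  have f := (Set.finite_Icc 1 X).inter_of_right {N | ∃ x y : ℂ, orderOf ((x, y) : ℂ × ℂ) = N ∧
    U x y ∧ ¬ Rel B x y}
  rw [Set.ncard_eq_toFinset_card _ f]
  exact hC X _ fun N hN => by
    have := f.mem_toFinset.1 hN
    exact ⟨this.1, this.2⟩

/-- not all translates by the points of order dividing `n` have the property. -/
theorem Dich.all {U : ℂ → ℂ → Prop} (h : Dich U) : ∃ n₀ : ℕ, ∀ n : ℕ, n₀ ≤ n → 0 < n ∧ ∃ B : ℕ,
    ∀ x y : ℂ, Tor x → Tor y → (∀ η₁ η₂ : ℂ, η₁ ^ n = 1 → η₂ ^ n = 1 → U (η₁ * x) (η₂ * y)) →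
      Rel B (x ^ n) (y ^ n) ∨ Rel B x y := by
  rcases h with ⟨Q, c, m⟩ | ⟨B, hB⟩
  · obtain ⟨C, hC⟩ := few sGen allPair c m
    refine ⟨C + 1, fun n hn => ⟨by omega, ?_⟩⟩
    have n0 : 0 < n := by omega
    obtain ⟨B, hB⟩ := hC n n0
    refine ⟨B, fun x y tx ty hu => Or.inl ?_⟩
    by_contra r
    have := hB x y tx ty r (nthRootsFinset n (1 : ℂ) ×ˢ nthRootsFinset n (1 : ℂ)) fun η hη => by
      obtain ⟨a, b⟩ := mem_product.1 hη
      rw [mem_nthRootsFinset n0] at a b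
      exact ⟨a, b, hu _ _ a b⟩
    rw [card_product, (Complex.isPrimitiveRoot_exp n n0.ne').card_nthRootsFinset] at this
    have := Nat.le_of_mul_le_mul_right this n0
    omega
  · refine ⟨1, fun n hn => ⟨hn, B, fun x y tx ty hu => Or.inr (hB x y tx ty ?_)⟩⟩
    simpa using hu 1 1 (one_pow n) (one_pow n)

theorem Dich.push {U : ℂ → ℂ → Prop} (h : Dich U) : ∃ n₀ : ℕ, ∀ n : ℕ, n₀ ≤ n → ∀ a b c d : ℤ,
    a * d ≠ b * c → 0 < n ∧ ∃ B : ℕ, ∀ V : ℂ → ℂ → Prop, (∀ x y : ℂ, Tor x → Tor y →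
      V (x ^ (n * a) * y ^ (n * b)) (x ^ (n * c) * y ^ (n * d)) → U x y) →
    ∀ X Y : ℂ, Tor X → Tor Y → V X Y → Rel B X Y := by
  obtain ⟨n₀, h⟩ := h.all
  refine ⟨n₀, fun n hn a b c d hD => ?_⟩
  obtain ⟨n0, B, hB⟩ := h n hn
  have n1 : (n : ℤ) ≠ 0 := by exact_mod_cast n0.ne'
  have hD' : n * a * (n * d) ≠ n * b * (n * c) := fun z => hD (by
    refine mul_left_cancel₀ (mul_ne_zero n1 n1) ?_
    linear_combination z)
  refine ⟨n0, B * (a.natAbs + b.natAbs + c.natAbs + d.natAbs) + B * ((n * a).natAbs +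
    (n * b).natAbs + (n * c).natAbs + (n * d).natAbs), fun V e X Y tX tY hu => ?_⟩
  obtain ⟨u, tu, eu⟩ := tor_root tX (sub_ne_zero.2 hD')
  obtain ⟨v, tv, ev'⟩ := tor_root tY (sub_ne_zero.2 hD')
  have u0 := tu.ne_zero
  have v0 := tv.ne_zero
  obtain ⟨x, hx⟩ : ∃ x, x = u ^ (n * d) * v ^ (-(n * b)) := ⟨_, rfl⟩
  obtain ⟨y, hy⟩ : ∃ y, y = u ^ (-(n * c)) * v ^ (n * a) := ⟨_, rfl⟩
  have tx : Tor x := hx ▸ (tu.zpow _).mul (tv.zpow _)
  have ty : Tor y := hy ▸ (tu.zpow _).mul (tv.zpow _)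
  have eX : x ^ (n * a) * y ^ (n * b) = X := by
    rw [← eu, hx, hy]
    simp only [mul_zpow, ← zpow_mul]
    rw [mul_mul_mul_comm, ← zpow_add₀ u0, ← zpow_add₀ v0,
      show -(n * b) * (n * a) + n * a * (n * b) = (0 : ℤ) by ring, zpow_zero, mul_one]
    congr 1; ring
  have eY : x ^ (n * c) * y ^ (n * d) = Y := by
    rw [← ev', hx, hy]
    simp only [mul_zpow, ← zpow_mul]
    rw [mul_mul_mul_comm, ← zpow_add₀ u0, ← zpow_add₀ v0,
      show n * d * (n * c) + -(n * c) * (n * d) = (0 : ℤ) by ring, zpow_zero, one_mul]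
    congr 1; ring
  have k : ∀ (η z : ℂ) (t : ℤ), η ^ n = 1 → (η * z) ^ (n * t) = z ^ (n * t) := fun η z t hη => by
    rw [mul_zpow, zpow_mul η, zpow_natCast, hη, one_zpow, one_mul]
  rcases hB x y tx ty (fun η₁ η₂ a1 a2 => e _ _ (Tor.mul ⟨n, n0, a1⟩ tx) (Tor.mul ⟨n, n0, a2⟩ ty)
    (by rwa [k _ _ _ a1, k _ _ _ a1, k _ _ _ a2, k _ _ _ a2, eX, eY])) with r | r
  · have := rel_image (pow_ne_zero n tx.ne_zero) (pow_ne_zero n ty.ne_zero) hD r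
    simp only [← zpow_natCast, ← zpow_mul] at this
    rw [eX, eY] at this
    exact this.mono (Nat.le_add_right _ _)
  · have := rel_image tx.ne_zero ty.ne_zero hD' r
    rw [eX, eY] at this
    exact this.mono (Nat.le_add_left _ _)

/-- a Laurent polynomial is determined by its values. -/
theorem evC_inj {P : LC} (h : ∀ x y : ℂ, x ≠ 0 → y ≠ 0 → evC P x y = 0) : P = 0 := by
  let χ : ℤ × ℤ → (ℂˣ × ℂˣ →* ℂ) := fun μ => (Units.coeHom ℂ).comp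
    ((zpowGroupHom μ.1).coprod (zpowGroupHom μ.2))
  have k : ∀ i j : ℤ, (2 : ℂ) ^ i = 2 ^ j → i = j := fun i j e =>
    zpow_right_injective₀ (a := (2 : ℝ)) (by norm_num) (by norm_num)
      (by simpa using congrArg norm e)
  have hχ : Function.Injective χ := fun i j e => Prod.ext
    (k _ _ (by simpa [χ] using DFunLike.congr_fun e (Units.mk0 2 two_ne_zero, 1)))
    (k _ _ (by simpa [χ] using DFunLike.congr_fun e (1, Units.mk0 2 two_ne_zero)))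
  have := linearIndependent_iff'.1 ((linearIndependent_monoidHom (ℂˣ × ℂˣ) ℂ).comp _ hχ)
    P.coeff.support P.coeff (by
      funext t
      rw [Finset.sum_apply, Pi.zero_apply, ← h t.1 t.2 t.1.ne_zero t.2.ne_zero]
      refine Finset.sum_congr rfl fun j _ => ?_
      simp [χ, mul_assoc])
  refine AddMonoidAlgebra.coeff_injective (Finsupp.ext fun μ => ?_)
  by_contra c
  exact c (this μ (Finsupp.mem_support_iff.2 c))

theorem pushC (hp : SPrim) {P : LC} (ha : ∀ μ, IsAlgebraic ℚ (P.coeff μ)) (h : BigC P) :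
    ∃ n₀ : ℕ, ∀ n : ℕ, n₀ ≤ n → ∀ a b c d : ℤ, a * d ≠ b * c → ∀ R S : LC,
      (∀ μ, IsAlgebraic ℚ (R.coeff μ)) → (∀ x y : ℂ, x ≠ 0 → y ≠ 0 →
      evC R (x ^ (n * a) * y ^ (n * b)) (x ^ (n * c) * y ^ (n * d)) = evC P x y * evC S x y) →
    ∃ B : ℕ, ∀ X Y : ℂ, Tor X → Tor Y → H79.IsU (evC R X Y) → Rel B X Y := by
  classical
  by_cases h0 : P = 0
  · obtain ⟨n₀, hn⟩ := (dichC ha h).push
    refine ⟨n₀, fun n n1 a b c d hD R S _ e => ?_⟩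
    obtain ⟨-, B, hB⟩ := hn n n1 a b c d hD
    refine ⟨B, hB _ fun x y tx ty hu => absurd ?_ hu.1⟩
    rw [e x y tx.ne_zero ty.ne_zero]
    simp [h0, evC, evS]
  obtain ⟨t, t0, t1, t2⟩ := hp P ha h0
  have sm : ∀ (s : ℂ) (Q : LC) (x y : ℂ), x ≠ 0 → y ≠ 0 → evC (s • Q) x y = s * evC Q x y :=
    fun s Q x y hx hy => by rw [← facC_H_eq x y hx hy, map_smul, facC_H_eq, smul_eq_mul]
  obtain ⟨n₀, hn⟩ := (dichC (P := t • P) (fun μ => ((t1 μ).tower_top (A := ℚ)).isAlgebraic)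
    fun B => by
      obtain ⟨x, y, a, b, c, d⟩ := h B
      exact ⟨x, y, a, b, by rw [sm _ _ _ _ a b, c, mul_zero], d⟩).push
  refine ⟨n₀, fun n n1 a b c d hD R S ra e => ?_⟩
  rcases int_or ra with ri | ⟨B, hB⟩
  swap
  · exact ⟨B, fun X Y tX tY hu => hB X Y tX tY hu.2.1⟩
  obtain ⟨-, B, hB⟩ := hn n n1 a b c d hD
  have e1 : P * S = ∑ μ ∈ R.coeff.support, AddMonoidAlgebra.single
      (n * a * μ.1 + n * c * μ.2, n * b * μ.1 + n * d * μ.2) (R.coeff μ) := by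
    refine sub_eq_zero.1 (evC_inj fun x y hx hy => ?_)
    rw [← facC_H_eq x y hx hy, map_sub, map_mul, facC_H_eq, facC_H_eq, ← e x y hx hy, map_sum,
      sub_eq_zero]
    refine sum_congr rfl fun μ _ => ?_
    rw [facC_single, map_mul, facC_H_M, AlgHom.commutes, zpow_add₀ hx, zpow_add₀ hy]
    simp only [mul_zpow, zpow_mul, Algebra.algebraMap_self, RingHom.id_apply]
    ring
  have si := t2 S fun ν => by
    rw [e1, AddMonoidAlgebra.coeff_sum, Finsupp.finsetSum_apply]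
    refine IsIntegral.sum _ fun μ _ => ?_
    rw [AddMonoidAlgebra.coeff_single, Finsupp.single_apply]
    split_ifs
    · exact ri μ
    · exact isIntegral_zero
  refine ⟨B, hB _ fun x y tx ty hu => ?_⟩
  rw [e x y tx.ne_zero ty.ne_zero] at hu
  refine facC_unit (u := evC (t⁻¹ • S) x y) (evS_int (fun μ _ => si μ) tx ty)
    (evS_int (fun μ _ => t1 μ) tx ty) ?_
  rwa [sm _ _ _ _ tx.ne_zero ty.ne_zero, sm _ _ _ _ tx.ne_zero ty.ne_zero, mul_mul_mul_comm,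
    inv_mul_cancel₀ t0, one_mul, mul_comm]

end Pool.Agent.MP_c1891a_nt.H43
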