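import Pool.Agent.MP_c1891a_nt.H43.Main
import Pool.Agent.MP_c1891a_nt.H43.Thin

/-! The exceptional orders are thin. -/

namespace Pool.Agent.MP_c1891a_nt.H43

open Finset

theorem mainOrd {P : LP} (h : Big P) : ∃ (B : ℕ) (C : ℝ) (A : Set ℕ),
    (∀ X : ℕ, ((A ∩ Set.Icc 1 X).ncard : ℝ) * Real.log X ≤ C * X) ∧
    ∀ x y : ℂ, 0 < orderOf ((x, y) : ℂ × ℂ) → orderOf ((x, y) : ℂ × ℂ) ∉ A →
      H79.IsU (ev P x y) → Rel B x y := by
  classical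
  obtain ⟨C₀, B, h⟩ := mainOrb h
  obtain ⟨C, hC⟩ := thin {N | ∃ x y : ℂ, orderOf ((x, y) : ℂ × ℂ) = N ∧ H79.IsU (ev P x y) ∧
    ¬ Rel B x y} C₀ fun M hM T hT => by
      obtain ⟨S, s1, s2⟩ := h M hM
      refine (card_le_card (t := S.image orderOf) fun N hN => ?_).trans (card_image_le.trans s1)
      obtain ⟨⟨x, y, rfl, u, r⟩, d, w⟩ := hT N hN
      have e := orderOf_dvd_iff_pow_eq_one.1 d
      rw [Prod.pow_mk] at e
      obtain ⟨j, j1, j2⟩ := (s2 x y (congrArg Prod.fst e) (congrArg Prod.snd e) w u).resolve_left r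
      exact mem_image.2 ⟨_, j2, by rw [← Prod.pow_mk, j1.symm.orderOf_pow]⟩
  refine ⟨B, C, {N | ∃ x y : ℂ, orderOf ((x, y) : ℂ × ℂ) = N ∧ H79.IsU (ev P x y) ∧
    ¬ Rel B x y}, fun X => ?_, fun x y _ hA u => by_contra fun r => hA ⟨x, y, rfl, u, r⟩⟩
  have f := (Set.finite_Icc 1 X).inter_of_right {N | ∃ x y : ℂ, orderOf ((x, y) : ℂ × ℂ) = N ∧
    H79.IsU (ev P x y) ∧ ¬ Rel B x y}
  rw [Set.ncard_eq_toFinset_card _ f]
  exact hC X _ fun N hN => by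
    have := f.mem_toFinset.1 hN
    exact ⟨this.1, this.2⟩

end Pool.Agent.MP_c1891a_nt.H43
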