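import Pool.Agent.MP_c1891a_nt.H79.Spec

/-
Statements of the steps of the project on two unit values of a Laurent polynomial
at torsion points. In `F[X][X]` the inner variable is `p` and the outer variable is `q`.
-/

namespace Pool.Agent.MP_c1891a_nt.H43

open Finset Polynomial Module Filter Topology

/-- Laurent polynomials in two variables over the integers. -/
abbrev LP : Type := AddMonoidAlgebra ℤ (ℤ × ℤ)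

/-- the value of a Laurent polynomial at a point of any field. -/
noncomputable def ev {F : Type} [Field F] (P : LP) (x y : F) : F :=
  ∑ μ ∈ P.coeff.support, (P.coeff μ : F) * x ^ μ.1 * y ^ μ.2

/-- the zero set contains no translate of a one-dimensional subtorus. -/
def NoCoset (P : LP) : Prop :=
  ∀ x y : ℂ, x ≠ 0 → y ≠ 0 → ∀ a b : ℤ, (a ≠ 0 ∨ b ≠ 0) →
    ∃ t : ℂ, t ≠ 0 ∧ ev P (x * t ^ a) (y * t ^ b) ≠ 0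

/-- at least two monomials. -/
def NonMon (P : LP) : Prop := ∃ μ ν : ℤ × ℤ, μ ≠ ν ∧ P.coeff μ ≠ 0 ∧ P.coeff ν ≠ 0

/-- no singular zero on the unit torus. -/
def Smooth (P : LP) : Prop :=
  ∀ x y : ℂ, ‖x‖ = 1 → ‖y‖ = 1 → ev P x y = 0 →
    ∑ μ ∈ P.coeff.support, (μ.1 : ℂ) * ((P.coeff μ : ℂ) * x ^ μ.1 * y ^ μ.2) ≠ 0 ∨
    ∑ μ ∈ P.coeff.support, (μ.2 : ℂ) * ((P.coeff μ : ℂ) * x ^ μ.1 * y ^ μ.2) ≠ 0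

/-- a multiplicative relation of size at most `B`. -/
def Rel (B : ℕ) (x y : ℂ) : Prop :=
  ∃ m n : ℤ, (m ≠ 0 ∨ n ≠ 0) ∧ |m| ≤ B ∧ |n| ≤ B ∧ x ^ m * y ^ n = 1

/-- a root of unity. -/
def Tor (x : ℂ) : Prop := ∃ n : ℕ, 0 < n ∧ x ^ n = 1

/-- the vector `e` has order `N` modulo `N`. -/
def Gen {d : ℕ} (N : ℕ) (e : Fin d → ℤ) : Prop :=
  ∀ κ : ℤ, (∀ i, (N : ℤ) ∣ κ * e i) → (N : ℤ) ∣ κ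

/-- the residues prime to `N`. -/
def Cop (N : ℕ) : Finset ℕ := (range N).filter fun j => Nat.Coprime j N

/-- `exp (2 π i t)`. -/
noncomputable def E (t : ℝ) : ℂ := Complex.exp (2 * Real.pi * Complex.I * t)

/-- the sum of the absolute values of the coefficients. -/
def Hn (P : LP) : ℕ := ∑ μ ∈ P.coeff.support, (P.coeff μ).natAbs

/-- the size of the box that contains the support. -/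
def Rn (P : LP) : ℕ := P.coeff.support.sup fun μ => max μ.1.natAbs μ.2.natAbs

/-- the shift of the exponents. -/
def A1 (P : LP) (v₁ v₂ : ℤ) : ℕ := Rn P * (v₁.natAbs + v₂.natAbs)

/-- the shifted exponent of a monomial. -/
def ex (P : LP) (v₁ v₂ : ℤ) (μ : ℤ × ℤ) : ℕ := ((A1 P v₁ v₂ : ℤ) + v₁ * μ.1 + v₂ * μ.2).toNat

/-- `X ^ A1 * P (η₁ X ^ v₁, η₂ X ^ v₂)`. -/
noncomputable def F1 {F : Type} [Field F] (P : LP) (η₁ η₂ : F) (v₁ v₂ : ℤ) : F[X] :=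
  ∑ μ ∈ P.coeff.support, C ((P.coeff μ : F) * η₁ ^ μ.1 * η₂ ^ μ.2) * X ^ ex P v₁ v₂ μ

/-- `p ^ A1 v * q ^ A1 w * P (η₁ p ^ v₁ q ^ w₁, η₂ p ^ v₂ q ^ w₂)`. -/
noncomputable def F2 {F : Type} [Field F] (P : LP) (η₁ η₂ : F) (v₁ v₂ w₁ w₂ : ℤ) : F[X][X] :=
  ∑ μ ∈ P.coeff.support,
    C (C ((P.coeff μ : F) * η₁ ^ μ.1 * η₂ ^ μ.2) * X ^ ex P v₁ v₂ μ) * X ^ ex P w₁ w₂ μ

/-- the `l¹` norm in one variable. -/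
noncomputable def l1 (f : ℂ[X]) : ℝ := ∑ i ∈ f.support, ‖f.coeff i‖

/-- the `l¹` norm in two variables. -/
noncomputable def l2 (f : ℂ[X][X]) : ℝ := ∑ j ∈ f.support, l1 (f.coeff j)

/-- the coefficients are algebraic integers. -/
def IntC {L : Type} [Field L] (f : L[X]) : Prop := ∀ i, IsIntegral ℤ (f.coeff i)

/-- an integer polynomial read over the complex numbers. -/
noncomputable def cx (T : ℤ[X]) : ℂ[X] := T.map (Int.castRingHom ℂ)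

/-- `v, w` is a basis of a saturated lattice. -/
def Prim2 (v w : Fin 4 → ℤ) : Prop :=
  ∀ m s t : ℤ, (∀ i, m ∣ s * v i + t * w i) → m ∣ s ∧ m ∣ t

/-- common zeros of two monomial pull-backs. -/
def ZS (P Q : LP) (η : Fin 4 → ℂ) (v w : Fin 4 → ℤ) : Set (ℂ × ℂ) :=
  {z | z.1 ≠ 0 ∧ z.2 ≠ 0 ∧
    ev P (η 0 * z.1 ^ v 0 * z.2 ^ w 0) (η 1 * z.1 ^ v 1 * z.2 ^ w 1) = 0 ∧
    ev Q (η 2 * z.1 ^ v 2 * z.2 ^ w 2) (η 3 * z.1 ^ v 3 * z.2 ^ w 3) = 0}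

/-- the second pull-back is a bounded monomial image of the first. -/
def Sym (B : ℕ) (η : Fin 4 → ℂ) (v w : Fin 4 → ℤ) : Prop :=
  ∃ (m : ℕ) (a b c d : ℤ), 0 < m ∧ m ≤ B ∧ |a| ≤ B ∧ |b| ≤ B ∧ |c| ≤ B ∧ |d| ≤ B ∧
    m * v 2 = a * v 0 + b * v 1 ∧ m * w 2 = a * w 0 + b * w 1 ∧
    m * v 3 = c * v 0 + d * v 1 ∧ m * w 3 = c * w 0 + d * w 1 ∧
    η 2 ^ m = η 0 ^ a * η 1 ^ b ∧ η 3 ^ m = η 0 ^ c * η 1 ^ d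

/-- data of a branch at infinity. -/
structure Edge where
  (a b a' b' : ℤ)
  ρ : ℂ
  (I J : ℤ)

/-! ### arithmetic and lattices -/

/-- the totient is large and the number of divisors is small. -/
def SArith : Prop :=
  ∀ ε : ℝ, 0 < ε → ∃ N₀ : ℕ, ∀ N : ℕ, N₀ ≤ N →
    (N : ℝ) ^ (1 - ε) ≤ N.totient ∧ (N.divisors.card : ℝ) ≤ (N : ℝ) ^ ε

/-- a torsion point as powers of one primitive root. -/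
def SGen : Prop :=
  ∀ (d : ℕ) (x : Fin d → ℂ) (M : ℕ), 0 < M → (∀ i, x i ^ M = 1) →
    ∃ (N : ℕ) (ξ : ℂ) (e : Fin d → ℤ), 0 < N ∧ N ∣ M ∧ IsPrimitiveRoot ξ N ∧ Gen N e ∧
      (∀ i, x i = ξ ^ e i) ∧ ∀ k : ℕ, (∀ i, x i ^ k = 1) → N ∣ k

/-- pigeonhole in dimension two. -/
def SPig2 : Prop :=
  ∀ N : ℕ, 2 ≤ N → ∀ e : Fin 2 → ℤ, Gen N e → ∃ (κ : ℤ) (r : Fin 2 → ℤ), r ≠ 0 ∧
    (∀ i, (N : ℤ) ∣ r i - κ * e i) ∧ ∀ i, r i ^ 2 ≤ 4 * N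

/-- pigeonhole in dimension four. -/
def SPig4 : Prop :=
  ∃ N₀ : ℕ, ∀ N : ℕ, N₀ ≤ N → ∀ e : Fin 4 → ℤ, Gen N e →
    (∃ (κ : ℤ) (r : Fin 4 → ℤ), r ≠ 0 ∧ (∀ i, (N : ℤ) ∣ r i - κ * e i) ∧
      ∀ i, (|r i| : ℝ) ≤ (N : ℝ) ^ (1 / 15 : ℝ)) ∨
    ∃ (κ₁ κ₂ : ℤ) (r₁ r₂ : Fin 4 → ℤ), (∀ i, (N : ℤ) ∣ r₁ i - κ₁ * e i) ∧
      (∀ i, (N : ℤ) ∣ r₂ i - κ₂ * e i) ∧ (∃ i j, r₁ i * r₂ j ≠ r₁ j * r₂ i) ∧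
      ∀ i, (|r₁ i| : ℝ) ≤ 5 * (N : ℝ) ^ (44 / 45 : ℝ) ∧ (|r₂ i| : ℝ) ≤ 5 * (N : ℝ) ^ (44 / 45 : ℝ)

/-- a reduced basis of the saturation of a rank two lattice. -/
def SRed : Prop :=
  ∀ r₁ r₂ : Fin 4 → ℤ, (∃ i j, r₁ i * r₂ j ≠ r₁ j * r₂ i) → ∀ T : ℕ,
    (∀ i, |r₁ i| ≤ T ∧ |r₂ i| ≤ T) →
    ∃ (v w : Fin 4 → ℤ) (a₁ a₂ b₁ b₂ : ℤ) (V W : ℕ), Prim2 v w ∧
      (∀ i, r₁ i = a₁ * v i + a₂ * w i ∧ r₂ i = b₁ * v i + b₂ * w i) ∧ 1 ≤ V ∧ 1 ≤ W ∧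
      (∀ i, |v i| ≤ V ∧ |w i| ≤ W) ∧
      |a₁| * V ≤ 3 * T ∧ |a₂| * W ≤ 3 * T ∧ |b₁| * V ≤ 3 * T ∧ |b₂| * W ≤ 3 * T

/-- representation on a one-dimensional subgroup. -/
def SRep1 : Prop :=
  ∀ (d N : ℕ), 0 < N → ∀ e : Fin d → ℤ, Gen N e → ∀ v : Fin d → ℤ,
    (∀ m : ℤ, (∀ i, m ∣ v i) → m ∣ 1) → ∀ h κ : ℤ, (∀ i, (N : ℤ) ∣ h * v i - κ * e i) →
    ∃ (g β : ℕ) (k : Fin d → ℤ), 0 < g ∧ g ∣ N ∧ (g : ℤ) ∣ h ∧ Nat.Coprime β N ∧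
      ∀ i, e i = β * v i + (N / g : ℕ) * k i

/-- representation on a two-dimensional subgroup. -/
def SRep2 : Prop :=
  ∀ N : ℕ, 0 < N → ∀ e v w : Fin 4 → ℤ, Prim2 v w → ∀ a₁ a₂ b₁ b₂ κ₁ κ₂ : ℤ,
    (∀ i, (N : ℤ) ∣ a₁ * v i + a₂ * w i - κ₁ * e i) →
    (∀ i, (N : ℤ) ∣ b₁ * v i + b₂ * w i - κ₂ * e i) →
    ∃ (g : ℕ) (β₁ β₂ a₁' a₂' b₁' b₂' : ℤ) (k : Fin 4 → ℤ), 0 < g ∧ g ∣ N ∧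
      (∀ i, e i = β₁ * v i + β₂ * w i + (N / g : ℕ) * k i) ∧
      a₁ = g * a₁' ∧ a₂ = g * a₂' ∧ b₁ = g * b₁' ∧ b₂ = g * b₂' ∧
      ((N / g : ℕ) : ℤ) ∣ b₁' * β₂ - b₂' * β₁ ∧ ((g * N : ℕ) : ℤ) ∣ a₁ * b₂ - a₂ * b₁

/-! ### number fields -/

/-- cyclotomic fields and their extensions by two algebraic numbers. -/
def SField : Prop :=
  (∀ (g : ℕ) (ω : ℂ), 0 < g → IsPrimitiveRoot ω g →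
    ∃ (L : Type) (_ : Field L) (_ : NumberField L) (ι : L →+* ℂ) (ω' : L), ι ω' = ω ∧
      finrank ℚ L = g.totient ∧
      ∀ G : ℂ → ℝ, ∑ σ : L →+* ℂ, G (σ ω') = ∑ j ∈ Cop g, G (ω ^ j)) ∧
  ∀ (L : Type) [Field L] [NumberField L] (ι : L →+* ℂ) (p q : ℂ), IsAlgebraic ℚ p →
    IsAlgebraic ℚ q →
    ∃ (K : Type) (_ : Field K) (_ : NumberField K) (_ : Algebra L K) (ι' : K →+* ℂ) (p' q' : K),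
      (∀ a, ι' (algebraMap L K a) = ι a) ∧ ι' p' = p ∧ ι' q' = q ∧
      ∀ σ τ : K →+* ℂ, (∀ a, σ (algebraMap L K a) = τ (algebraMap L K a)) → σ p' = τ p' →
        σ q' = τ q' → σ = τ

/-- norms of integers and of polynomials. -/
def SNormP : Prop :=
  ∀ (L : Type) [Field L] [NumberField L],
    (∀ a : L, IsIntegral ℤ a → a ≠ 0 → 1 ≤ ∏ σ : L →+* ℂ, ‖σ a‖) ∧
    (∀ f : L[X], IntC f → ∃ T : ℤ[X], cx T = ∏ σ : L →+* ℂ, f.map σ) ∧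
    ∀ (K : Type) [Field K] [NumberField K] [Algebra L K] (f : L[X]) (p : K), f ≠ 0 →
      aeval p f = 0 →
      (∀ σ τ : K →+* ℂ, (∀ a, σ (algebraMap L K a) = τ (algebraMap L K a)) → σ p = τ p →
        σ = τ) →
      ∏ σ : K →+* ℂ, (X - C (σ p)) ∣ ∏ σ : L →+* ℂ, f.map σ

/-- Liouville's inequality with two generators. -/
def SLV : Prop :=
  ∀ (K : Type) [Field K] [NumberField K] (σ₀ : K →+* ℂ) (ι : Type) (I : Finset ι) (c : ι → K)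
    (a b : ι → ℕ) (p q : K) (m n : ℕ) (H : ℝ) (Tp Tq : ℤ[X]),
    (∀ i ∈ I, IsIntegral ℤ (c i) ∧ a i ≤ m ∧ b i ≤ n) → 1 ≤ H →
    (∀ σ : K →+* ℂ, ∑ i ∈ I, ‖σ (c i)‖ ≤ H) → Tp ≠ 0 → Tq ≠ 0 →
    ∏ σ : K →+* ℂ, (X - C (σ p)) ∣ cx Tp → ∏ σ : K →+* ℂ, (X - C (σ q)) ∣ cx Tq →
    ∑ i ∈ I, c i * p ^ a i * q ^ b i ≠ 0 →
    1 ≤ ‖σ₀ (∑ i ∈ I, c i * p ^ a i * q ^ b i)‖ * H ^ finrank ℚ K *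
      (cx Tp).mahlerMeasure ^ m * (cx Tq).mahlerMeasure ^ n

/-- elimination of the outer variable. -/
def SRes : Prop :=
  ∀ (L : Type) [Field L] [NumberField L] (σ₀ : L →+* ℂ) (f₁ f₂ : L[X][X]) (a b : ℕ) (H : ℝ),
    f₁ ≠ 0 → f₂ ≠ 0 → (∀ j, IntC (f₁.coeff j) ∧ IntC (f₂.coeff j)) →
    (∀ j, (f₁.coeff j).natDegree ≤ a ∧ (f₂.coeff j).natDegree ≤ a) →
    f₁.natDegree ≤ b → f₂.natDegree ≤ b → 1 ≤ H →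
    (∀ σ : L →+* ℂ, l2 (f₁.map (mapRingHom σ)) ≤ H ∧ l2 (f₂.map (mapRingHom σ)) ≤ H) →
    {z : ℂ × ℂ | z.1 ≠ 0 ∧ z.2 ≠ 0 ∧ (f₁.map (mapRingHom σ₀)).evalEval z.1 z.2 = 0 ∧
      (f₂.map (mapRingHom σ₀)).evalEval z.1 z.2 = 0}.Finite →
    ∃ T : ℤ[X], T ≠ 0 ∧ T.natDegree ≤ finrank ℚ L * (2 * a * b) ∧
      (cx T).mahlerMeasure ≤ H ^ (finrank ℚ L * (2 * b)) ∧
      ∀ (K : Type) [Field K] [NumberField K] [Algebra L K] (p q : K), p ≠ 0 → q ≠ 0 →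
        (f₁.map (mapRingHom (algebraMap L K))).evalEval p q = 0 →
        (f₂.map (mapRingHom (algebraMap L K))).evalEval p q = 0 →
        (∀ σ τ : K →+* ℂ, (∀ a, σ (algebraMap L K a) = τ (algebraMap L K a)) → σ p = τ p →
          σ q = τ q → σ = τ) →
        ∏ σ : K →+* ℂ, (X - C (σ p)) ∣ cx T

/-- the lowest coefficient of a characteristic polynomial. -/
def SFrob : Prop :=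
  ∀ (L : Type) [Field L] [NumberField L] (σ₀ : L →+* ℂ) (f W : L[X]) (D n₀ : ℕ) (θ : ℝ),
    f ≠ 0 → IntC f → IntC W → W.natDegree ≤ D → 0 < θ → θ ≤ 1 →
    (∀ (σ : L →+* ℂ) (α : ℂ), (f.map σ).IsRoot α → ‖(W.map σ).eval α‖ ≤ θ * max 1 ‖α‖ ^ D) →
    (∃ s : Multiset ℂ, s ≤ (f.map σ₀).roots ∧ n₀ ≤ s.card ∧ ∀ α ∈ s, (W.map σ₀).eval α ≠ 0) →
    n₀ * finrank ℚ L * Real.log (1 / θ) ≤ D * ∑ σ : L →+* ℂ, (f.map σ).logMahlerMeasure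

/-! ### branches at infinity -/

/-- the local form of a branch at infinity. -/
def SLoc : Prop :=
  ∀ P : LP, NoCoset P → ∃ Φ : Finset Edge,
    (∀ φ ∈ Φ, φ.a * φ.b' - φ.b * φ.a' = 1 ∧ φ.ρ ≠ 0 ∧ φ.I ≠ 0 ∧ φ.J ≠ 0) ∧
    ∀ (K : Type) [Field K] [Algebra ℂ K] (O : ValuationSubring K),
      (∀ c : ℂ, c ≠ 0 → O.valuation (algebraMap ℂ K c) = 1) →
      ∀ x y : K, x ≠ 0 → y ≠ 0 → ev P x y = 0 → (O.valuation x ≠ 1 ∨ O.valuation y ≠ 1) →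
      ∃ φ ∈ Φ, x ^ φ.a * y ^ φ.b - algebraMap ℂ K φ.ρ ≠ 0 ∧
        O.valuation (x ^ φ.a * y ^ φ.b - algebraMap ℂ K φ.ρ) < 1 ∧
        O.valuation (x ^ φ.a' * y ^ φ.b') ≠ 1 ∧
        O.valuation (x ^ φ.a * y ^ φ.b - algebraMap ℂ K φ.ρ) ^ φ.I =
          O.valuation (x ^ φ.a' * y ^ φ.b') ^ φ.J

/-- valuations trivial on the constants, and invertibility of the two exponent matrices. -/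
def SVal : Prop :=
  (∀ (K : Type) [Field K] [Algebra ℂ K] (t : K), t ∉ Set.range (algebraMap ℂ K) →
    ∃ O : ValuationSubring K, (∀ c : ℂ, c ≠ 0 → O.valuation (algebraMap ℂ K c) = 1) ∧
      O.valuation t < 1) ∧
  ∀ P Q : LP, NoCoset P → NoCoset Q → ∀ (K : Type) [Field K] [Algebra ℂ K] (p q : K),
    p ≠ 0 → q ≠ 0 → (p ∉ Set.range (algebraMap ℂ K) ∨ q ∉ Set.range (algebraMap ℂ K)) →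
    ∀ (η : Fin 4 → ℂ) (v w : Fin 4 → ℤ), (∀ i, η i ≠ 0) → (∃ i j, v i * w j ≠ v j * w i) →
    (v 0 ≠ 0 ∨ w 0 ≠ 0 ∨ v 1 ≠ 0 ∨ w 1 ≠ 0) → (v 2 ≠ 0 ∨ w 2 ≠ 0 ∨ v 3 ≠ 0 ∨ w 3 ≠ 0) →
    ev P (algebraMap ℂ K (η 0) * p ^ v 0 * q ^ w 0) (algebraMap ℂ K (η 1) * p ^ v 1 * q ^ w 1) = 0 →
    ev Q (algebraMap ℂ K (η 2) * p ^ v 2 * q ^ w 2) (algebraMap ℂ K (η 3) * p ^ v 3 * q ^ w 3) = 0 →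
    v 0 * w 1 ≠ v 1 * w 0 ∧ v 2 * w 3 ≠ v 3 * w 2 ∧
      ∀ m n : ℤ, (m ≠ 0 ∨ n ≠ 0) → p ^ m * q ^ n ∉ Set.range (algebraMap ℂ K)

/-- a common non-constant point forces a bounded monomial relation. -/
def SCls : Prop :=
  ∀ P Q : LP, NoCoset P → NoCoset Q → ∃ B : ℕ, ∀ (K : Type) [Field K] [Algebra ℂ K] (p q : K),
    p ≠ 0 → q ≠ 0 → (p ∉ Set.range (algebraMap ℂ K) ∨ q ∉ Set.range (algebraMap ℂ K)) →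
    ∀ (η : Fin 4 → ℂ) (v w : Fin 4 → ℤ), (∀ i, Tor (η i)) → (∃ i j, v i * w j ≠ v j * w i) →
    (v 0 ≠ 0 ∨ w 0 ≠ 0 ∨ v 1 ≠ 0 ∨ w 1 ≠ 0) → (v 2 ≠ 0 ∨ w 2 ≠ 0 ∨ v 3 ≠ 0 ∨ w 3 ≠ 0) →
    ev P (algebraMap ℂ K (η 0) * p ^ v 0 * q ^ w 0) (algebraMap ℂ K (η 1) * p ^ v 1 * q ^ w 1) = 0 →
    ev Q (algebraMap ℂ K (η 2) * p ^ v 2 * q ^ w 2) (algebraMap ℂ K (η 3) * p ^ v 3 * q ^ w 3) = 0 →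
    Sym B η v w

/-- infinitely many common zeros force a bounded monomial relation. -/
def SFin : Prop :=
  ∀ P Q : LP, NoCoset P → NoCoset Q → ∃ B : ℕ, ∀ (η : Fin 4 → ℂ) (v w : Fin 4 → ℤ),
    (∀ i, Tor (η i)) → (∃ i j, v i * w j ≠ v j * w i) →
    (v 0 ≠ 0 ∨ w 0 ≠ 0 ∨ v 1 ≠ 0 ∨ w 1 ≠ 0) → (v 2 ≠ 0 ∨ w 2 ≠ 0 ∨ v 3 ≠ 0 ∨ w 3 ≠ 0) →
    (ZS P Q η v w).Infinite → Sym B η v w

/-! ### the deficit -/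

/-- the contribution of one root to a sum over a class of primitive roots. -/
def SRoot : Prop :=
  ∀ (N g ι : ℕ) (X₀ α : ℂ) (z d : ℝ), 0 < N → g ∣ N → IsPrimitiveRoot X₀ N → 1 ≤ z →
    z ^ N ≤ 2 → 0 < d → d ≤ 1 → d * max 1 ‖α‖ ^ N ≤ ‖α ^ N - (z : ℂ) ^ N‖ →
    (((Cop N).filter fun j => j % g = ι).card : ℝ) * Real.log (max 1 ‖α‖) -
        N.divisors.card * Real.log (3 * N / d) ≤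
      ∑ j ∈ (Cop N).filter fun j => j % g = ι, Real.log ‖X₀ ^ j * z - α‖

/-- many roots outside a finite set, or a bounded relation. -/
def SMany : Prop :=
  ∀ P : LP, NoCoset P → NonMon P → ∀ Z : Finset (ℂ × ℂ), ∃ (c₀ : ℝ) (B : ℕ), 0 < c₀ ∧
    ∀ (η₁ η₂ : ℂ) (v₁ v₂ : ℤ), Tor η₁ → Tor η₂ → IsCoprime v₁ v₂ →
      (|v₁| ≤ B ∧ |v₂| ≤ B ∧ ∃ s : ℕ, 0 < s ∧ s ≤ B ∧ (η₁ ^ (-v₂) * η₂ ^ v₁) ^ s = 1) ∨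
      ∃ s : Multiset ℂ, s ≤ (F1 P η₁ η₂ v₁ v₂).roots ∧ 1 ≤ s.card ∧
        c₀ * A1 P v₁ v₂ ≤ s.card ∧
        ∀ α ∈ s, α ≠ 0 ∧ (η₁ * α ^ v₁, η₂ * α ^ v₂) ∉ Z

/-- the Mahler measures of the one-parameter restrictions are bounded below on average. -/
def SPos : Prop :=
  ∀ P : LP, NoCoset P → NonMon P → ∃ (m₀ : ℝ) (B : ℕ), 0 < m₀ ∧
    ∀ (N : ℕ) (ω : ℂ) (k₁ k₂ v₁ v₂ : ℤ), 0 < N → IsPrimitiveRoot ω N → IsCoprime v₁ v₂ →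
      (|v₁| ≤ B ∧ |v₂| ≤ B ∧
        ∃ s : ℕ, 0 < s ∧ s ≤ B ∧ ((ω ^ k₁) ^ (-v₂) * (ω ^ k₂) ^ v₁) ^ s = 1) ∨
      m₀ * N.totient ≤
        ∑ j ∈ Cop N, (F1 P ((ω ^ j) ^ k₁) ((ω ^ j) ^ k₂) v₁ v₂).logMahlerMeasure

/-- the truncated logarithmic sum over the conjugates is large. -/
def SDef : Prop :=
  ∀ P : LP, NoCoset P → NonMon P → ∃ (m₀ : ℝ) (B : ℕ), 0 < m₀ ∧ ∀ A : ℕ, ∃ N₀ : ℕ,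
    ∀ N : ℕ, N₀ ≤ N → ∀ (ξ : ℂ) (e : Fin 2 → ℤ), IsPrimitiveRoot ξ N → Gen N e →
      ¬ Rel B (ξ ^ e 0) (ξ ^ e 1) →
      m₀ * N.totient ≤ ∑ j ∈ Cop N,
        Real.log (max ‖ev P ((ξ ^ e 0) ^ j) ((ξ ^ e 1) ^ j)‖ ((N : ℝ) ^ A)⁻¹)

/-! ### counting points near the curve -/

/-- a uniform zero estimate for a finite family of analytic functions. -/
def SZE : Prop :=
  ∀ (ι : Type) [Fintype ι] (g : ι → ℝ → ℝ) (a b : ℝ),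
    (∀ i, AnalyticOnNhd ℝ (g i) (Set.Icc a b)) →
    (∀ v₁ ∈ Set.Icc a b, ∀ w : ι → ℝ, (∀ᶠ v in 𝓝 v₁, ∑ i, w i * g i v = 0) → w = 0) →
    ∃ K A N₀ : ℕ, ∀ N : ℝ, N₀ ≤ N → ∀ w : ι → ℝ, (∃ i, |w i| = 1) → (∀ i, |w i| ≤ 1) →
      ∀ S : Finset ℝ, (∀ v ∈ S, v ∈ Set.Icc a b ∧ |∑ i, w i * g i v| ≤ (N ^ A)⁻¹) →
        (∀ v ∈ S, ∀ v' ∈ S, v ≠ v' → N⁻¹ ≤ |v - v'|) → S.card ≤ K

/-- points on a short piece of the arc lie on an algebraic curve. -/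
def SDet : Prop :=
  ∀ (γ : ℝ → ℝ) (a b : ℝ), AnalyticOnNhd ℝ γ (Set.Icc a b) → ∀ d : ℕ, 2 ≤ d →
    ∃ (c : ℝ) (A N₀ : ℕ), 0 < c ∧ ∀ N : ℕ, N₀ ≤ N → ∀ (t : ℝ) (S : Finset (ℤ × ℤ)),
      (∀ z ∈ S, (z.2 / N : ℝ) ∈ Set.Icc a b ∧
        |(z.2 / N : ℝ) - t| ≤ c * (N : ℝ) ^ (-(2 / (d + 1)) : ℝ) ∧
        |(z.1 / N : ℝ) - γ (z.2 / N)| ≤ ((N : ℝ) ^ A)⁻¹) →
      ∃ w : Fin d × Fin d → ℝ, (∃ i, |w i| = 1) ∧ (∀ i, |w i| ≤ 1) ∧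
        ∀ z ∈ S, ∑ i, w i * ((z.1 / N : ℝ) ^ (i.1 : ℕ) * (z.2 / N : ℝ) ^ (i.2 : ℕ)) = 0

/-- the determinant method for rational points near a transcendental arc. -/
def SBP : Prop :=
  ∀ (γ : ℝ → ℝ) (a b : ℝ), AnalyticOnNhd ℝ γ (Set.Icc a b) →
    (∀ v₁ ∈ Set.Icc a b, ∀ W : ℝ[X][X], (∀ᶠ v in 𝓝 v₁, W.evalEval v (γ v) = 0) → W = 0) →
    ∀ ε : ℝ, 0 < ε → ∃ (C : ℝ) (A N₀ : ℕ), ∀ N : ℕ, N₀ ≤ N → ∀ S : Finset (ℤ × ℤ),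
      (∀ z ∈ S, (z.2 / N : ℝ) ∈ Set.Icc a b ∧
        |(z.1 / N : ℝ) - γ (z.2 / N)| ≤ ((N : ℝ) ^ A)⁻¹) →
      (S.card : ℝ) ≤ C * (N : ℝ) ^ ε

/-- an algebraic arc whose exponential image is algebraic is a segment. -/
def SLin : Prop :=
  ∀ (γ : ℝ → ℝ) (v₁ : ℝ), AnalyticAt ℝ γ v₁ → ∀ (W : ℝ[X][X]) (G : ℂ[X][X]), W ≠ 0 → G ≠ 0 →
    (∀ᶠ v in 𝓝 v₁, W.evalEval v (γ v) = 0) → (∀ᶠ v in 𝓝 v₁, G.evalEval (E v) (E (γ v)) = 0) →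
    ∃ c c₀ : ℝ, ∀ᶠ v in 𝓝 v₁, γ v = c * v + c₀

/-- the arcs of the curve are transcendental. -/
def SAL : Prop :=
  ∀ P : LP, NoCoset P → ∀ (γ : ℝ → ℝ) (v₁ : ℝ), AnalyticAt ℝ γ v₁ →
    (∀ᶠ v in 𝓝 v₁, ev P (E (γ v)) (E v) = 0) →
    ∀ W : ℝ[X][X], (∀ᶠ v in 𝓝 v₁, W.evalEval v (γ v) = 0) → W = 0

/-- a chart at a smooth zero. -/
def SChart : Prop :=
  ∀ (P : LP) (θ₀ φ₀ : ℝ), ev P (E θ₀) (E φ₀) = 0 →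
    ∑ μ ∈ P.coeff.support, (μ.1 : ℂ) * ((P.coeff μ : ℂ) * E θ₀ ^ μ.1 * E φ₀ ^ μ.2) ≠ 0 →
    ∃ (δ C : ℝ) (γ : ℝ → ℝ), 0 < δ ∧ AnalyticOnNhd ℝ γ (Set.Icc (φ₀ - δ) (φ₀ + δ)) ∧
      ∀ θ φ : ℝ, |θ - θ₀| ≤ δ → |φ - φ₀| ≤ δ →
        |θ - γ φ| ≤ C * ‖ev P (E θ) (E φ)‖ ∧ ‖ev P (E (γ φ)) (E φ)‖ ≤ C * ‖ev P (E θ) (E φ)‖

/-- few points in one chart. -/
def SPiece : Prop :=
  ∀ (P : LP) (θ₀ φ₀ : ℝ), NoCoset P → ev P (E θ₀) (E φ₀) = 0 →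
    ∑ μ ∈ P.coeff.support, (μ.1 : ℂ) * ((P.coeff μ : ℂ) * E θ₀ ^ μ.1 * E φ₀ ^ μ.2) ≠ 0 →
    ∀ ε : ℝ, 0 < ε → ∃ (δ C : ℝ) (A N₀ : ℕ), 0 < δ ∧ ∀ N : ℕ, N₀ ≤ N → ∀ S : Finset (ℤ × ℤ),
      (∀ z ∈ S, |(z.1 / N : ℝ) - θ₀| ≤ δ ∧ |(z.2 / N : ℝ) - φ₀| ≤ δ ∧
        ‖ev P (E (z.1 / N)) (E (z.2 / N))‖ ≤ ((N : ℝ) ^ A)⁻¹) →
      (S.card : ℝ) ≤ C * (N : ℝ) ^ ε

/-- few torsion points are very near the curve. -/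
def SCount : Prop :=
  ∀ P : LP, NoCoset P → Smooth P → ∀ ε : ℝ, 0 < ε → ∃ (C : ℝ) (A N₀ : ℕ), ∀ N : ℕ, N₀ ≤ N →
    ∀ S : Finset (ℤ × ℤ), (∀ z ∈ S, 0 ≤ z.1 ∧ z.1 < N ∧ 0 ≤ z.2 ∧ z.2 < N ∧
      ‖ev P (E (z.1 / N)) (E (z.2 / N))‖ ≤ ((N : ℝ) ^ A)⁻¹) →
    (S.card : ℝ) ≤ C * (N : ℝ) ^ ε

/-- a unit value has a very small conjugate. -/
def SSpike : Prop :=
  ∀ P : LP, NoCoset P → NonMon P → Smooth P → ∃ B N₀ : ℕ, ∀ N : ℕ, N₀ ≤ N →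
    ∀ (ξ : ℂ) (e : Fin 2 → ℤ), IsPrimitiveRoot ξ N → Gen N e →
      H79.IsU (ev P (ξ ^ e 0) (ξ ^ e 1)) → ¬ Rel B (ξ ^ e 0) (ξ ^ e 1) →
      ∃ j : ℕ, Nat.Coprime j N ∧ ev P ((ξ ^ e 0) ^ j) ((ξ ^ e 1) ^ j) ≠ 0 ∧
        ‖ev P ((ξ ^ e 0) ^ j) ((ξ ^ e 1) ^ j)‖ ≤ Real.exp (-(N : ℝ) ^ (49 / 50 : ℝ))

/-! ### two very small values -/

/-- a polynomial with few terms and a small value has a root nearby. -/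
def SNear : Prop :=
  ∀ (f : ℂ[X]) (k a : ℕ) (ξ : ℂ) (d : ℝ), f.natDegree ≤ a → f.support.card ≤ k → 1 ≤ a →
    1 ≤ k → ‖ξ‖ = 1 → 0 < d → d ≤ 1 → (∀ α, f.IsRoot α → d ≤ ‖α - ξ‖) →
    ∀ i, ‖f.coeff i‖ * (d / (10 * k * a)) ^ k ≤ 2 ^ k * ‖f.eval ξ‖

/-- the same on a one-dimensional subgroup. -/
def SNearP : Prop :=
  ∀ P : LP, ∃ C : ℕ, ∀ (g : ℕ) (ω X₀ : ℂ) (k₁ k₂ v₁ v₂ : ℤ) (s : ℝ), 0 < g →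
    IsPrimitiveRoot ω g → ‖X₀‖ = 1 → (g : ℝ) * (|v₁| + |v₂| + 1) ≤ s →
    ev P (ω ^ k₁ * X₀ ^ v₁) (ω ^ k₂ * X₀ ^ v₂) ≠ 0 →
    ‖ev P (ω ^ k₁ * X₀ ^ v₁) (ω ^ k₂ * X₀ ^ v₂)‖ ≤ Real.exp (-(C * s)) →
    ∃ α : ℂ, α ≠ 0 ∧ IsAlgebraic ℚ α ∧ ‖α - X₀‖ ≤ Real.exp (-s) ∧
      ev P (ω ^ k₁ * α ^ v₁) (ω ^ k₂ * α ^ v₂) = 0

/-- no very small value on a subgroup of small degree. -/
def SOne : Prop :=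
  ∀ P : LP, ∃ M₀ : ℕ, ∀ M : ℕ, M₀ ≤ M → ∀ (g : ℕ) (ω X₀ : ℂ) (k₁ k₂ v₁ v₂ : ℤ), 0 < g →
    IsPrimitiveRoot ω g → X₀ ^ M = 1 →
    (g : ℝ) * (|v₁| + |v₂| + 1) ≤ 3 * (M : ℝ) ^ (1 / 15 : ℝ) →
    ev P (ω ^ k₁ * X₀ ^ v₁) (ω ^ k₂ * X₀ ^ v₂) ≠ 0 →
    Real.exp (-(M : ℝ) ^ (97 / 100 : ℝ)) < ‖ev P (ω ^ k₁ * X₀ ^ v₁) (ω ^ k₂ * X₀ ^ v₂)‖

/-- two very small values give a common root nearby. -/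
def STwoA : Prop :=
  ∀ (P Q : LP) (C₁ : ℕ), ∃ C : ℕ, ∀ (g : ℕ) (ω X₀ : ℂ) (k v : Fin 4 → ℤ) (U : ℝ), 0 < g →
    IsPrimitiveRoot ω g → ‖X₀‖ = 1 → (∀ i, (g : ℝ) * (|v i| + 1) ≤ U) →
    ev P (ω ^ k 0 * X₀ ^ v 0) (ω ^ k 1 * X₀ ^ v 1) ≠ 0 →
    ‖ev P (ω ^ k 0 * X₀ ^ v 0) (ω ^ k 1 * X₀ ^ v 1)‖ ≤ Real.exp (-(C * U)) →
    ‖ev Q (ω ^ k 2 * X₀ ^ v 2) (ω ^ k 3 * X₀ ^ v 3)‖ ≤ Real.exp (-(C * U)) →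
    ∃ α : ℂ, α ≠ 0 ∧ IsAlgebraic ℚ α ∧ ‖α - X₀‖ ≤ Real.exp (-(C₁ * U)) ∧
      ev P (ω ^ k 0 * α ^ v 0) (ω ^ k 1 * α ^ v 1) = 0 ∧
      ev Q (ω ^ k 2 * α ^ v 2) (ω ^ k 3 * α ^ v 3) = 0

/-- Liouville's inequality for a monomial at an isolated common zero. -/
def SMono : Prop :=
  ∀ P Q : LP, ∃ C : ℕ, ∀ (g : ℕ) (ω p q : ℂ) (k v w : Fin 4 → ℤ) (t : ℤ) (m₁ m₂ n₁ n₂ V W : ℕ)
    (U : ℝ), 0 < g → IsPrimitiveRoot ω g → IsAlgebraic ℚ p → IsAlgebraic ℚ q → 1 ≤ V → 1 ≤ W →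
    (∀ i, |v i| ≤ V ∧ |w i| ≤ W) → (g : ℝ) * V * W ≤ U → (g : ℝ) * (m₁ + m₂) * W ≤ U →
    (g : ℝ) * (n₁ + n₂) * V ≤ U → (p, q) ∈ ZS P Q (fun i => ω ^ k i) v w →
    (ZS P Q (fun i => ω ^ k i) v w).Finite →
    F2 P (ω ^ k 0) (ω ^ k 1) (v 0) (v 1) (w 0) (w 1) ≠ 0 →
    F2 Q (ω ^ k 2) (ω ^ k 3) (v 2) (v 3) (w 2) (w 3) ≠ 0 →
    p ^ m₁ * q ^ n₁ ≠ ω ^ t * p ^ m₂ * q ^ n₂ →
    Real.exp (-(C * U)) ≤ ‖p ^ m₁ * q ^ n₁ - ω ^ t * p ^ m₂ * q ^ n₂‖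

/-- a common zero very near a torsion point forces infinitely many common zeros. -/
def STwoB : Prop :=
  ∀ P Q : LP, ∃ C₁ : ℕ, ∀ (g : ℕ) (ω p₀ q₀ δ : ℂ) (k v w : Fin 4 → ℤ) (b₁ b₂ c₁ c₂ t : ℤ)
    (V W : ℕ) (U : ℝ), 0 < g → IsPrimitiveRoot ω g → Tor p₀ → Tor q₀ → IsAlgebraic ℚ δ →
    1 ≤ V → 1 ≤ W → (∀ i, |v i| ≤ V ∧ |w i| ≤ W) → (g : ℝ) * V * W ≤ U →
    (g : ℝ) * |c₁| * V ≤ U → (g : ℝ) * |c₂| * W ≤ U → (|b₁| : ℝ) ≤ U → (|b₂| : ℝ) ≤ U →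
    c₁ * b₂ ≠ c₂ * b₁ → p₀ ^ (-c₂) * q₀ ^ c₁ = ω ^ t → ‖δ - 1‖ ≤ Real.exp (-(C₁ * U)) →
    (p₀ * δ ^ b₁, q₀ * δ ^ b₂) ∈ ZS P Q (fun i => ω ^ k i) v w →
    ev P (ω ^ k 0 * p₀ ^ v 0 * q₀ ^ w 0) (ω ^ k 1 * p₀ ^ v 1 * q₀ ^ w 1) ≠ 0 →
    ev Q (ω ^ k 2 * p₀ ^ v 2 * q₀ ^ w 2) (ω ^ k 3 * p₀ ^ v 3 * q₀ ^ w 3) ≠ 0 →
    (ZS P Q (fun i => ω ^ k i) v w).Infinite

/-- two very small values lie on an anomalous torsion coset. -/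
def SAnom : Prop :=
  ∀ P Q : LP, ∃ M₀ : ℕ, ∀ M : ℕ, M₀ ≤ M → ∀ (ξ : ℂ) (e : Fin 4 → ℤ), IsPrimitiveRoot ξ M →
    Gen M e → ev P (ξ ^ e 0) (ξ ^ e 1) ≠ 0 → ev Q (ξ ^ e 2) (ξ ^ e 3) ≠ 0 →
    ‖ev P (ξ ^ e 0) (ξ ^ e 1)‖ ≤ Real.exp (-(M : ℝ) ^ (979 / 1000 : ℝ)) →
    ‖ev Q (ξ ^ e 2) (ξ ^ e 3)‖ ≤ Real.exp (-(M : ℝ) ^ (979 / 1000 : ℝ)) →
    ∃ (η : Fin 4 → ℂ) (v w : Fin 4 → ℤ) (p₀ q₀ : ℂ), (∀ i, Tor (η i)) ∧ p₀ ≠ 0 ∧ q₀ ≠ 0 ∧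
      (∃ i j, v i * w j ≠ v j * w i) ∧ (∀ i, ξ ^ e i = η i * p₀ ^ v i * q₀ ^ w i) ∧
      (ZS P Q η v w).Infinite

/-- two very small values are related by a bounded monomial map. -/
def SPair : Prop :=
  ∀ P Q : LP, NoCoset P → NoCoset Q → ∃ B : ℕ, ∀ n : ℕ, ∃ N₀ : ℕ, ∀ (N M : ℕ) (x y x' y' : ℂ),
    N₀ ≤ N → 0 < M → M ≤ n * N → x ^ M = 1 → y ^ M = 1 → x' ^ M = 1 → y' ^ M = 1 →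
    (∀ k : ℕ, 0 < k → x ^ k = 1 → y ^ k = 1 → N ≤ k) → ev P x y ≠ 0 → ev Q x' y' ≠ 0 →
    ‖ev P x y‖ ≤ Real.exp (-(N : ℝ) ^ (49 / 50 : ℝ)) →
    ‖ev Q x' y'‖ ≤ Real.exp (-(N : ℝ) ^ (49 / 50 : ℝ)) →
    ∃ (m : ℕ) (a b c d : ℤ), 0 < m ∧ m ≤ B ∧ |a| ≤ B ∧ |b| ≤ B ∧ |c| ≤ B ∧ |d| ≤ B ∧
      x' ^ m = x ^ a * y ^ b ∧ y' ^ m = x ^ c * y ^ d

/-- the push-forward under multiplication by `n`. -/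
def SPush : Prop :=
  ∀ (P : LP) (n : ℕ), 0 < n → ∃ R : LP, ∀ x y : ℂ, x ≠ 0 → y ≠ 0 →
    ev R (x ^ n) (y ^ n) =
      ∏ η₁ ∈ nthRootsFinset n (1 : ℂ), ∏ η₂ ∈ nthRootsFinset n (1 : ℂ), ev P (η₁ * x) (η₂ * y)

/-- few translates of a torsion point give units. -/
def SFew : Prop :=
  ∀ P : LP, NoCoset P → NonMon P → Smooth P → ∃ C : ℕ, ∀ n : ℕ, 0 < n → ∃ B : ℕ,
    ∀ x y : ℂ, Tor x → Tor y → ¬ Rel B (x ^ n) (y ^ n) → ∀ S : Finset (ℂ × ℂ),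
      (∀ η ∈ S, η.1 ^ n = 1 ∧ η.2 ^ n = 1 ∧ H79.IsU (ev P (η.1 * x) (η.2 * y))) →
      S.card ≤ C * n

end Pool.Agent.MP_c1891a_nt.H43
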