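import Pool.Agent.MP_c1891a_nt.H43.Basic

/-
Statements of the steps that remove the side conditions on the polynomial.
-/

namespace Pool.Agent.MP_c1891a_nt.H43

open Finset Polynomial

/-- the zero set is not contained in finitely many proper algebraic subgroups. -/
def Big (P : LP) : Prop := ∀ B : ℕ, ∃ x y : ℂ, x ≠ 0 ∧ y ≠ 0 ∧ ev P x y = 0 ∧ ¬ Rel B x y

/-- few torsion points are very near the curve, with singular points allowed. -/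
def SCountG : Prop :=
  ∀ P : LP, NoCoset P → ∀ ε : ℝ, 0 < ε → ∃ (C : ℝ) (A N₀ : ℕ), ∀ N : ℕ, N₀ ≤ N →
    ∀ S : Finset (ℤ × ℤ), (∀ z ∈ S, 0 ≤ z.1 ∧ z.1 < N ∧ 0 ≤ z.2 ∧ z.2 < N ∧
      ‖ev P (E (z.1 / N)) (E (z.2 / N))‖ ≤ ((N : ℝ) ^ A)⁻¹) →
    (S.card : ℝ) ≤ C * (N : ℝ) ^ ε

/-- a factor without cosets, or a factor in one monomial with a root of infinite order. -/
def SFac : Prop :=
  ∀ P : LP, P ≠ 0 → Big P →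
    (∃ Q Q' : LP, NoCoset Q ∧ NonMon Q ∧
      ∀ x y : ℂ, x ≠ 0 → y ≠ 0 → ev P x y = ev Q x y * ev Q' x y) ∨
    ∃ (G : ℤ[X]) (a b : ℤ) (ρ : ℂ) (Q' : LP), G ≠ 0 ∧ (a ≠ 0 ∨ b ≠ 0) ∧ ρ ≠ 0 ∧ ¬ Tor ρ ∧
      aeval ρ G = 0 ∧ ∀ x y : ℂ, x ≠ 0 → y ≠ 0 → ev P x y = aeval (x ^ a * y ^ b) G * ev Q' x y

/-- the case of one variable. -/
def SOneVar : Prop :=
  ∀ (G : ℤ[X]) (ρ : ℂ), G ≠ 0 → ρ ≠ 0 → ¬ Tor ρ → aeval ρ G = 0 → ∃ B : ℕ, ∀ ω : ℂ, Tor ω →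
    H79.IsU (aeval ω G) → ∃ s : ℕ, 0 < s ∧ s ≤ B ∧ ω ^ s = 1

end Pool.Agent.MP_c1891a_nt.H43
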