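import Pool.Agent.MP_c1891a_nt.H43.Spec2

/-
Statements of the steps for algebraic coefficients, and basic facts.
-/

namespace Pool.Agent.MP_c1891a_nt.H43

open Finset Polynomial Module

/-- the value of the Laurent polynomial with exponents `S` and coefficients `c`. -/
noncomputable def evS {F : Type} [Field F] (S : Finset (ℤ × ℤ)) (c : ℤ × ℤ → F) (x y : F) : F :=
  ∑ μ ∈ S, c μ * x ^ μ.1 * y ^ μ.2

/-- the zero set contains no translate of a one-dimensional subtorus. -/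
def NoCosetS (S : Finset (ℤ × ℤ)) (c : ℤ × ℤ → ℂ) : Prop :=
  ∀ x y : ℂ, x ≠ 0 → y ≠ 0 → ∀ a b : ℤ, (a ≠ 0 ∨ b ≠ 0) →
    ∃ t : ℂ, t ≠ 0 ∧ evS S c (x * t ^ a) (y * t ^ b) ≠ 0

/-- the size of the box that contains `S`. -/
def RS (S : Finset (ℤ × ℤ)) : ℕ := S.sup fun μ => max μ.1.natAbs μ.2.natAbs

/-- the shift of the exponents. -/
def AS (S : Finset (ℤ × ℤ)) (v₁ v₂ : ℤ) : ℕ := RS S * (v₁.natAbs + v₂.natAbs)

/-- the shifted exponent of a monomial. -/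
def exS (S : Finset (ℤ × ℤ)) (v₁ v₂ : ℤ) (μ : ℤ × ℤ) : ℕ :=
  ((AS S v₁ v₂ : ℤ) + v₁ * μ.1 + v₂ * μ.2).toNat

/-- `X ^ AS * P (η₁ X ^ v₁, η₂ X ^ v₂)`. -/
noncomputable def FS {F : Type} [Field F] (S : Finset (ℤ × ℤ)) (c : ℤ × ℤ → F) (η₁ η₂ : F)
    (v₁ v₂ : ℤ) : F[X] :=
  ∑ μ ∈ S, C (c μ * η₁ ^ μ.1 * η₂ ^ μ.2) * X ^ exS S v₁ v₂ μ

/-- Laurent polynomials in two variables over the complex numbers. -/
abbrev LC : Type := AddMonoidAlgebra ℂ (ℤ × ℤ)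

/-- the value of a complex Laurent polynomial. -/
noncomputable def evC (P : LC) (x y : ℂ) : ℂ := evS P.coeff.support P.coeff x y

/-- the zero set is not contained in finitely many proper algebraic subgroups. -/
def BigC (P : LC) : Prop := ∀ B : ℕ, ∃ x y : ℂ, x ≠ 0 ∧ y ≠ 0 ∧ evC P x y = 0 ∧ ¬ Rel B x y

/-- automorphisms that fix a number field and raise a root of unity to a given power. -/
def SGal : Prop :=
  ∀ (K : Type) [Field K] [NumberField K] (ι₀ : K →+* ℂ), ∃ f : ℕ, 0 < f ∧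
    ∀ (N : ℕ) (ξ : ℂ) (j : ℕ), 0 < N → IsPrimitiveRoot ξ N → Nat.Coprime j N →
      j ≡ 1 [MOD Nat.gcd f N] → ∃ θ : ℂ ≃+* ℂ, (∀ a, θ (ι₀ a) = ι₀ a) ∧ θ ξ = ξ ^ j

/-- the embeddings of `K (ξ)`. -/
def SEmb : Prop :=
  ∀ (K : Type) [Field K] [NumberField K] (ι₀ : K →+* ℂ), ∃ f : ℕ, 0 < f ∧
    ∀ (N : ℕ) (ξ : ℂ), 0 < N → IsPrimitiveRoot ξ N →
    ∃ (L : Type) (_ : Field L) (_ : NumberField L) (_ : Algebra K L) (ι : L →+* ℂ) (ξ' : L)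
      (Γ : (K →+* ℂ) → Finset ℕ), (∀ a, ι (algebraMap K L a) = ι₀ a) ∧ ι ξ' = ξ ∧
      N.totient ≤ finrank ℚ L ∧ (∀ τ, Γ τ ⊆ Cop N) ∧
      (∀ τ, ∀ j ∈ Γ τ, ∀ j' ∈ Cop N, j ≡ j' [MOD Nat.gcd f N] → j' ∈ Γ τ) ∧
      ∀ G : (K →+* ℂ) → ℂ → ℝ, ∑ σ : L →+* ℂ, G (σ.comp (algebraMap K L)) (σ ξ') =
        ∑ τ : K →+* ℂ, ∑ j ∈ Γ τ, G τ (ξ ^ j)

/-- an integral sum of roots of unity with a coefficient that is not integral is degenerate. -/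
def SNA : Prop :=
  ∀ (ι : Type) (S : Finset ι) (c : ι → ℂ), (∀ i ∈ S, IsAlgebraic ℚ (c i)) →
    (∀ i ∈ S, IsIntegral ℤ (c i)) ∨ ∃ B : ℕ, ∀ w : ι → ℂ, (∀ i ∈ S, Tor (w i)) →
      IsIntegral ℤ (∑ i ∈ S, c i * w i) →
      ∃ i ∈ S, ∃ k ∈ S, i ≠ k ∧ ∃ s : ℕ, 0 < s ∧ s ≤ B ∧ w i ^ s = w k ^ s

/-- a factor without cosets, or a factor `x ^ a y ^ b - ρ` with `ρ` of infinite order. -/
def SFacC : Prop :=
  ∀ P : LC, (∀ μ, IsIntegral ℤ (P.coeff μ)) → P ≠ 0 → BigC P →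
    (∃ Q : LC, (∀ μ, IsIntegral ℤ (Q.coeff μ)) ∧ NoCosetS Q.coeff.support Q.coeff ∧
      2 ≤ Q.coeff.support.card ∧
      ∀ x y : ℂ, Tor x → Tor y → H79.IsU (evC P x y) → H79.IsU (evC Q x y)) ∨
    ∃ (a b : ℤ) (ρ : ℂ), (a ≠ 0 ∨ b ≠ 0) ∧ ρ ≠ 0 ∧ ¬ Tor ρ ∧ IsAlgebraic ℚ ρ ∧
      ∀ x y : ℂ, Tor x → Tor y → H79.IsU (evC P x y) → IsIntegral ℤ (x ^ a * y ^ b - ρ)⁻¹

/-- the case of one variable. -/
def SOneC : Prop :=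
  ∀ ρ : ℂ, ρ ≠ 0 → ¬ Tor ρ → IsAlgebraic ℚ ρ → ∃ B : ℕ, ∀ ω : ℂ, Tor ω →
    IsIntegral ℤ (ω - ρ)⁻¹ → ∃ s : ℕ, 0 < s ∧ s ≤ B ∧ ω ^ s = 1

/-- the norm of a Laurent polynomial. -/
def SNormL : Prop :=
  ∀ (K : Type) [Field K] [NumberField K] (ι₀ : K →+* ℂ) (S : Finset (ℤ × ℤ)) (c : ℤ × ℤ → K),
    (∀ μ ∈ S, IsIntegral ℤ (c μ)) → NoCosetS S (fun μ => ι₀ (c μ)) →
    ∃ R : LP, NoCoset R ∧ (∀ τ : K →+* ℂ, NoCosetS S fun μ => τ (c μ)) ∧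
      ∀ x y : ℂ, x ≠ 0 → y ≠ 0 → ev R x y = ∏ τ : K →+* ℂ, evS S (fun μ => τ (c μ)) x y

/-- many roots outside a finite set, or a bounded relation. -/
def SManyC : Prop :=
  ∀ (S : Finset (ℤ × ℤ)) (c : ℤ × ℤ → ℂ), (∀ μ ∈ S, c μ ≠ 0) → NoCosetS S c → 2 ≤ S.card →
    ∀ Z : Finset (ℂ × ℂ), ∃ (c₀ : ℝ) (B : ℕ), 0 < c₀ ∧
    ∀ (η₁ η₂ : ℂ) (v₁ v₂ : ℤ), Tor η₁ → Tor η₂ → IsCoprime v₁ v₂ →
      (|v₁| ≤ B ∧ |v₂| ≤ B ∧ ∃ s : ℕ, 0 < s ∧ s ≤ B ∧ (η₁ ^ (-v₂) * η₂ ^ v₁) ^ s = 1) ∨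
      ∃ s : Multiset ℂ, s ≤ (FS S c η₁ η₂ v₁ v₂).roots ∧
        c₀ * ((v₁.natAbs + v₂.natAbs : ℕ) : ℝ) ≤ s.card ∧
        ∀ α ∈ s, α ≠ 0 ∧ (η₁ * α ^ v₁, η₂ * α ^ v₂) ∉ Z

/-! ### basic facts -/

open Cardinal in
theorem ext_equiv {R K L : Type} [CommRing R] [Field K] [Field L] [Algebra R K] [Algebra R L]
    [IsAlgClosed K] [IsAlgClosed L] [FaithfulSMul R K] [FaithfulSMul R L] (hR : mk R ≤ ℵ₀)
    (hK : ℵ₀ < mk K) (hKL : mk K = mk L) :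
    ∃ e : K ≃+* L, ∀ r, e (algebraMap R K r) = algebraMap R L r := by
  have := RingHom.domain_nontrivial (algebraMap R K)
  obtain ⟨s, hs⟩ := exists_isTranscendenceBasis R K
  obtain ⟨t, ht⟩ := exists_isTranscendenceBasis R L
  have h1 := IsAlgClosed.cardinal_eq_cardinal_transcendence_basis_of_aleph0_lt' _ hs hR hK
  have h2 := IsAlgClosed.cardinal_eq_cardinal_transcendence_basis_of_aleph0_lt' _ ht hR (hKL ▸ hK)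
  obtain ⟨e⟩ := Cardinal.eq.1 (h1.symm.trans (hKL.trans h2))
  let _ := IsAlgClosed.isAlgClosure_of_transcendence_basis _ hs
  let _ := IsAlgClosed.isAlgClosure_of_transcendence_basis _ ht
  let e' := hs.1.aevalEquiv.symm.trans ((MvPolynomial.renameEquiv R e).trans ht.1.aevalEquiv)
  refine ⟨IsAlgClosure.equivOfEquiv K L e'.toRingEquiv, fun r => ?_⟩
  rw [IsScalarTower.algebraMap_apply R (Algebra.adjoin R (Set.range ((↑) : s → K))) K,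
    IsAlgClosure.equivOfEquiv_algebraMap,
    IsScalarTower.algebraMap_apply R (Algebra.adjoin R (Set.range ((↑) : t → L))) L]
  exact congrArg _ (e'.commutes r)

/-- two embeddings of a number field differ by an automorphism of the complex numbers. -/
theorem ext_aut {K : Type} [Field K] [NumberField K] (f g : K →+* ℂ) :
    ∃ θ : ℂ ≃+* ℂ, ∀ r, θ (f r) = g r := by
  have : Countable K := (Module.finBasis ℚ K).equivFun.injective.countable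
  exact @ext_equiv K ℂ ℂ _ _ _ f.toAlgebra g.toAlgebra _ _
    ((@faithfulSMul_iff_algebraMap_injective K ℂ _ _ f.toAlgebra).2 f.injective)
    ((@faithfulSMul_iff_algebraMap_injective K ℂ _ _ g.toAlgebra).2 g.injective)
    Cardinal.mk_le_aleph0 (by rw [Cardinal.mk_complex]; exact Cardinal.aleph0_lt_continuum) rfl

/-- finitely many algebraic numbers lie in a number field. -/
theorem num_field {ι : Type} (S : Finset ι) (c : ι → ℂ) (h : ∀ i ∈ S, IsAlgebraic ℚ (c i)) :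
    ∃ (K : Type) (_ : Field K) (_ : NumberField K) (ι₀ : K →+* ℂ) (c' : ι → K),
      ∀ i ∈ S, ι₀ (c' i) = c i := by
  classical
  have : FiniteDimensional ℚ (IntermediateField.adjoin ℚ (c '' S)) :=
    IntermediateField.finiteDimensional_adjoin fun x ⟨i, hi, e⟩ => e ▸ (h i hi).isIntegral
  refine ⟨IntermediateField.adjoin ℚ (c '' S), inferInstance, NumberField.of_module_finite ℚ _,
    (IntermediateField.adjoin ℚ (c '' S)).val.toRingHom, fun i => if hi : i ∈ S then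
      ⟨c i, IntermediateField.subset_adjoin ℚ _ ⟨i, hi, rfl⟩⟩ else 0, fun i hi => ?_⟩
  simp [hi]

theorem int_map {K F : Type} [Field K] [Field F] (σ : K →+* F) {a : K} :
    IsIntegral ℤ (σ a) ↔ IsIntegral ℤ a :=
  isIntegral_algHom_iff σ.toIntAlgHom σ.injective

theorem evS_map {F F' : Type} [Field F] [Field F'] (σ : F →+* F') (S : Finset (ℤ × ℤ))
    (c : ℤ × ℤ → F) (x y : F) : σ (evS S c x y) = evS S (fun μ => σ (c μ)) (σ x) (σ y) := by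
  simp [evS, map_sum, map_zpow₀]

theorem evS_congr {F : Type} [Field F] {S : Finset (ℤ × ℤ)} {c c' : ℤ × ℤ → F}
    (h : ∀ μ ∈ S, c μ = c' μ) (x y : F) : evS S c x y = evS S c' x y :=
  sum_congr rfl fun μ hμ => by rw [h μ hμ]

theorem le_RS {S : Finset (ℤ × ℤ)} {μ : ℤ × ℤ} (h : μ ∈ S) :
    μ.1.natAbs ≤ RS S ∧ μ.2.natAbs ≤ RS S :=
  max_le_iff.1 (le_sup (f := fun μ : ℤ × ℤ => max μ.1.natAbs μ.2.natAbs) h)

theorem exS_cast {S : Finset (ℤ × ℤ)} (v₁ v₂ : ℤ) {μ : ℤ × ℤ} (h : μ ∈ S) :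
    (exS S v₁ v₂ μ : ℤ) = AS S v₁ v₂ + v₁ * μ.1 + v₂ * μ.2 ∧ exS S v₁ v₂ μ ≤ 2 * AS S v₁ v₂ := by
  obtain ⟨h1, h2⟩ := le_RS h
  have a1 : (v₁ * μ.1).natAbs ≤ RS S * v₁.natAbs := by
    rw [Int.natAbs_mul, mul_comm]; exact Nat.mul_le_mul_right _ h1
  have a2 : (v₂ * μ.2).natAbs ≤ RS S * v₂.natAbs := by
    rw [Int.natAbs_mul, mul_comm]; exact Nat.mul_le_mul_right _ h2
  have a3 : AS S v₁ v₂ = RS S * v₁.natAbs + RS S * v₂.natAbs := mul_add _ _ _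
  unfold exS
  omega

theorem FS_eval {F : Type} [Field F] (S : Finset (ℤ × ℤ)) (c : ℤ × ℤ → F) (η₁ η₂ : F) (v₁ v₂ : ℤ)
    {t : F} (ht : t ≠ 0) :
    (FS S c η₁ η₂ v₁ v₂).eval t = t ^ AS S v₁ v₂ * evS S c (η₁ * t ^ v₁) (η₂ * t ^ v₂) := by
  unfold FS evS
  rw [eval_finsetSum, mul_sum]
  refine sum_congr rfl fun μ hμ => ?_
  rw [eval_mul, eval_C, eval_pow, eval_X, ← zpow_natCast, (exS_cast v₁ v₂ hμ).1, zpow_add₀ ht,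
    zpow_add₀ ht, mul_zpow, mul_zpow, zpow_mul, zpow_mul, zpow_natCast]
  ring

theorem FS_map {F F' : Type} [Field F] [Field F'] (σ : F →+* F') (S : Finset (ℤ × ℤ))
    (c : ℤ × ℤ → F) (η₁ η₂ : F) (v₁ v₂ : ℤ) :
    (FS S c η₁ η₂ v₁ v₂).map σ = FS S (fun μ => σ (c μ)) (σ η₁) (σ η₂) v₁ v₂ := by
  simp [FS, Polynomial.map_sum, map_zpow₀]

theorem FS_deg {F : Type} [Field F] (S : Finset (ℤ × ℤ)) (c : ℤ × ℤ → F) (η₁ η₂ : F)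
    (v₁ v₂ : ℤ) : (FS S c η₁ η₂ v₁ v₂).natDegree ≤ 2 * AS S v₁ v₂ :=
  natDegree_sum_le_of_forall_le _ _ fun _ h =>
    (natDegree_C_mul_X_pow_le _ _).trans (exS_cast v₁ v₂ h).2

theorem NoCosetS.FS_ne {S : Finset (ℤ × ℤ)} {c : ℤ × ℤ → ℂ} (h : NoCosetS S c) {η₁ η₂ : ℂ}
    (h₁ : η₁ ≠ 0) (h₂ : η₂ ≠ 0) {v₁ v₂ : ℤ} (hv : v₁ ≠ 0 ∨ v₂ ≠ 0) : FS S c η₁ η₂ v₁ v₂ ≠ 0 := by
  obtain ⟨t, t0, e⟩ := h η₁ η₂ h₁ h₂ v₁ v₂ hv
  intro z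
  have := FS_eval S c η₁ η₂ v₁ v₂ t0
  rw [z, eval_zero] at this
  exact mul_ne_zero (pow_ne_zero _ t0) e this.symm

theorem evS_int {F : Type} [Field F] {S : Finset (ℤ × ℤ)} {c : ℤ × ℤ → F}
    (hc : ∀ μ ∈ S, IsIntegral ℤ (c μ)) {x y : F} (h₁ : ∃ n, 0 < n ∧ x ^ n = 1)
    (h₂ : ∃ n, 0 < n ∧ y ^ n = 1) : IsIntegral ℤ (evS S c x y) := by
  obtain ⟨n₁, a₁, b₁⟩ := h₁
  obtain ⟨n₂, a₂, b₂⟩ := h₂
  exact IsIntegral.sum _ fun μ hμ => ((hc μ hμ).mul (int_zpow a₁ b₁ _)).mul (int_zpow a₂ b₂ _)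

end Pool.Agent.MP_c1891a_nt.H43
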