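import Pool.Agent.MP_c1891a_nt.H43.Few
import Pool.Agent.MP_c1891a_nt.H9.Spike

/-! A unit value has a very small conjugate. -/

namespace Pool.Agent.MP_c1891a_nt.H43

open Finset Filter Topology

theorem spkOf (h1 : SDef) (h2 : SCountG) (h3 : SArith) (h4 : H79.SNorm) {P : LP}
    (hc : NoCoset P) (hm : NonMon P) : Spk P := by
  obtain ⟨m₀, B, hm₀, hD⟩ := h1 P hc hm
  obtain ⟨C, A, N₁, hC⟩ := h2 P hc (1 / 2000) (by norm_num)
  obtain ⟨N₂, hD⟩ := hD A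
  obtain ⟨N₃, hA⟩ := h3 (1 / 4000) (by norm_num)
  have ht : Tendsto (fun N : ℕ => m₀ * (N : ℝ) ^ (1 / 4000 : ℝ)) atTop atTop :=
    ((tendsto_rpow_atTop (by norm_num)).comp tendsto_natCast_atTop_atTop).const_mul_atTop hm₀
  obtain ⟨N₄, hN₄⟩ := eventually_atTop.1 (ht.eventually_gt_atTop C)
  refine ⟨B, N₁ + N₂ + N₃ + N₄ + 1, fun N hN ξ e hξ he hU hR => ?_⟩
  have hN0 : 0 < N := by omega
  have hN1 : (1 : ℝ) ≤ N := by exact_mod_cast hN0
  have hNp : (0 : ℝ) < N := by positivity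
  have e1 := hD N (by omega) ξ e hξ he hR
  have e2 := spike_card P hN0 hξ he _ _ (hC N (by omega))
  have e3 := spike_prod h4 P hN0 e hξ hU
  have e4 := (hA N (by omega)).1
  have e5 := hN₄ N (by omega)
  obtain ⟨a, ha⟩ : ∃ a : ℕ → ℝ, a = fun j => ‖ev P ((ξ ^ e 0) ^ j) ((ξ ^ e 1) ^ j)‖ := ⟨_, rfl⟩
  have ha' : ∀ j, ‖ev P ((ξ ^ e 0) ^ j) ((ξ ^ e 1) ^ j)‖ = a j := fun j => by rw [ha]
  simp only [ha'] at e1 e2 e3
  have a0 : ∀ j ∈ Cop N, a j ≠ 0 := prod_ne_zero_iff.1 (by rw [e3]; exact one_ne_zero)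
  have a1 : ∑ j ∈ Cop N, Real.log (a j) = 0 := by rw [← Real.log_prod a0, e3, Real.log_one]
  by_contra hcon
  push Not at hcon
  have hτ : ((N : ℝ) ^ A)⁻¹ ≤ 1 := inv_le_one_of_one_le₀ (one_le_pow₀ hN1)
  have a2 : ∀ j ∈ Cop N, Real.log (max (a j) ((N : ℝ) ^ A)⁻¹) ≤ Real.log (a j) +
      if a j ≤ ((N : ℝ) ^ A)⁻¹ then (N : ℝ) ^ (999 / 1000 : ℝ) else 0 := by
    intro j hj
    split_ifs with k
    · have b1 := hcon j (mem_filter.1 hj).2 (by
        rw [← norm_ne_zero_iff, ha']; exact a0 j hj)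
      rw [ha'] at b1
      have b2 := Real.log_le_log (Real.exp_pos _) b1.le
      rw [Real.log_exp] at b2
      rw [max_eq_right k]
      have := Real.log_nonpos (by positivity) hτ
      linarith
    · rw [max_eq_left (not_le.1 k).le, add_zero]
  have a3 := e1.trans (sum_le_sum a2)
  rw [sum_add_distrib, a1, zero_add, ← sum_filter, sum_const, nsmul_eq_mul] at a3
  have a4 := mul_le_mul_of_nonneg_right e2 (Real.rpow_nonneg hNp.le (999 / 1000))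
  have a5 : (N : ℝ) ^ (1 - 1 / 4000 : ℝ) =
      (N : ℝ) ^ (1 / 4000 : ℝ) * ((N : ℝ) ^ (1 / 2000 : ℝ) * (N : ℝ) ^ (999 / 1000 : ℝ)) := by
    rw [← Real.rpow_add hNp, ← Real.rpow_add hNp]; norm_num
  have a6 := mul_le_mul_of_nonneg_left e4 hm₀.le
  have a7 := mul_lt_mul_of_pos_right e5
    (mul_pos (Real.rpow_pos_of_pos hNp (1 / 2000)) (Real.rpow_pos_of_pos hNp (999 / 1000)))
  rw [a5] at a6
  linarith

end Pool.Agent.MP_c1891a_nt.H43
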