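import Pool.Agent.MP_c1891a_nt.H43.Spk
import Pool.Agent.MP_c1891a_nt.H86.Fin

/-! Pairs of unit values in a window of orders. -/

namespace Pool.Agent.MP_c1891a_nt.H43

open Finset Polynomial

theorem win_rpow {N M : ℕ} (hN : 1 ≤ N) (h : M ^ 49 ≤ N ^ 50) :
    (M : ℝ) ^ (979 / 1000 : ℝ) ≤ (N : ℝ) ^ (999 / 1000 : ℝ) := by
  have h1 : (1 : ℝ) ≤ N := by exact_mod_cast hN
  have h2 : ((M : ℝ) ^ 49) ≤ (N : ℝ) ^ 50 := by exact_mod_cast h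
  have h3 := Real.rpow_le_rpow (pow_nonneg (Nat.cast_nonneg M) 49) h2
    (by norm_num : (0 : ℝ) ≤ 979 / 49000)
  rw [← Real.rpow_natCast, ← Real.rpow_natCast, ← Real.rpow_mul (Nat.cast_nonneg M),
    ← Real.rpow_mul (Nat.cast_nonneg N)] at h3
  norm_num at h3
  exact h3.trans (Real.rpow_le_rpow_of_exponent_le h1 (by norm_num))

theorem pairW (h1 : SFin) (h2 : SAnom) (h3 : SGen) (P Q : LP) (hP : NoCoset P)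
    (hQ : NoCoset Q) : ∃ B N₀ : ℕ, ∀ (N M : ℕ) (x y x' y' : ℂ),
    N₀ ≤ N → 0 < M → M ^ 49 ≤ N ^ 50 → x ^ M = 1 → y ^ M = 1 → x' ^ M = 1 → y' ^ M = 1 →
    (∀ k : ℕ, 0 < k → x ^ k = 1 → y ^ k = 1 → N ≤ k) → ev P x y ≠ 0 → ev Q x' y' ≠ 0 →
    ‖ev P x y‖ ≤ Real.exp (-(N : ℝ) ^ (999 / 1000 : ℝ)) →
    ‖ev Q x' y'‖ ≤ Real.exp (-(N : ℝ) ^ (999 / 1000 : ℝ)) →
    ∃ (m : ℕ) (a b c d : ℤ), 0 < m ∧ m ≤ B ∧ |a| ≤ B ∧ |b| ≤ B ∧ |c| ≤ B ∧ |d| ≤ B ∧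
      x' ^ m = x ^ a * y ^ b ∧ y' ^ m = x ^ c * y ^ d := by
  obtain ⟨B, hB⟩ := h1 P Q hP hQ
  obtain ⟨M₀, hM₀⟩ := h2 P Q
  refine ⟨B, M₀ + 1, ?_⟩
  intro N M x y x' y' hN hM hMn hx hy hx' hy' hord hPxy hQxy hs1 hs2
  obtain ⟨N', ξ, e, hN', hdvd, hξ, hgen, hxe, -⟩ := h3 4 ![x, y, x', y'] M hM (by
    intro i
    fin_cases i
    · exact hx
    · exact hy
    · exact hx'
    · exact hy')
  have e0 : x = ξ ^ e 0 := hxe 0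
  have e1 : y = ξ ^ e 1 := hxe 1
  have e2 : x' = ξ ^ e 2 := hxe 2
  have e3 : y' = ξ ^ e 3 := hxe 3
  have hpow : ∀ k : ℤ, (ξ ^ k) ^ N' = 1 := by
    intro k
    rw [← zpow_natCast, ← zpow_mul, mul_comm, zpow_mul, zpow_natCast, hξ.pow_eq_one, one_zpow]
  have hNN' : N ≤ N' := hord N' hN' (e0 ▸ hpow _) (e1 ▸ hpow _)
  have hN'M : N' ^ 49 ≤ N ^ 50 :=
    (Nat.pow_le_pow_left (Nat.le_of_dvd hM hdvd) _).trans hMn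
  have hexp : Real.exp (-(N : ℝ) ^ (999 / 1000 : ℝ)) ≤ Real.exp (-(N' : ℝ) ^ (979 / 1000 : ℝ)) :=
    Real.exp_le_exp.2 (neg_le_neg (win_rpow (by omega) hN'M))
  obtain ⟨η, v, w, p₀, q₀, hη, hp, hq, hm, hrep, hinf⟩ :=
    hM₀ N' (by omega) ξ e hξ hgen (e0 ▸ e1 ▸ hPxy)
      (e2 ▸ e3 ▸ hQxy) (e0 ▸ e1 ▸ hs1.trans hexp) (e2 ▸ e3 ▸ hs2.trans hexp)
  obtain ⟨z, hz⟩ := hinf.nonempty
  have hA1 : v 0 ≠ 0 ∨ w 0 ≠ 0 ∨ v 1 ≠ 0 ∨ w 1 ≠ 0 := by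
    by_contra hcon
    push Not at hcon
    obtain ⟨a0, a1, a2, a3⟩ := hcon
    have hz' := hz.2.2.1
    apply hPxy
    rw [e0, e1, hrep 0, hrep 1]
    simpa [a0, a1, a2, a3] using hz'
  have hA2 : v 2 ≠ 0 ∨ w 2 ≠ 0 ∨ v 3 ≠ 0 ∨ w 3 ≠ 0 := by
    by_contra hcon
    push Not at hcon
    obtain ⟨a0, a1, a2, a3⟩ := hcon
    have hz' := hz.2.2.2
    apply hQxy
    rw [e2, e3, hrep 2, hrep 3]
    simpa [a0, a1, a2, a3] using hz'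
  obtain ⟨m, a, b, c, d, hm0, hmB, ha, hb, hc, hd, r1, r2, r3, r4, r5, r6⟩ :=
    hB η v w hη hm hA1 hA2 hinf
  refine ⟨m, a, b, c, d, hm0, hmB, ha, hb, hc, hd, ?_, ?_⟩
  · rw [e0, e1, e2, hrep 0, hrep 1, hrep 2]
    exact fin_mono hp hq r1 r2 r5
  · rw [e0, e1, e3, hrep 0, hrep 1, hrep 3]
    exact fin_mono hp hq r3 r4 r6

theorem Dat.orderOf {P : LP} {x y : ℂ} {N j : ℕ} (h : Dat P x y N j) :
    orderOf ((x, y) : ℂ × ℂ) = N := by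
  refine Nat.dvd_antisymm (orderOf_dvd_of_pow_eq_one ?_) ?_
  · rw [Prod.pow_mk, h.px, h.py]; rfl
  · have := pow_orderOf_eq_one ((x, y) : ℂ × ℂ)
    rw [Prod.pow_mk] at this
    exact h.ord _ (congrArg Prod.fst this) (congrArg Prod.snd this)

/-- the unit points of large order in `μ_M ^ 2` form boundedly many Galois orbits. -/
theorem window (h1 : SFin) (h2 : SAnom) (hG : SGen) {U : ℂ → ℂ → Prop} {P : LP} (h : NoCoset P)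
    (hs : SpkU U P) :
    ∃ C B : ℕ, ∀ M : ℕ, 0 < M → ∃ S : Finset (ℂ × ℂ), S.card ≤ C ∧
      ∀ x y : ℂ, x ^ M = 1 → y ^ M = 1 → M ^ 49 ≤ orderOf ((x, y) : ℂ × ℂ) ^ 50 →
        U x y → ¬ Rel B x y →
        ∃ j : ℕ, Nat.Coprime j (orderOf ((x, y) : ℂ × ℂ)) ∧ (x ^ j, y ^ j) ∈ S := by
  classical
  obtain ⟨B₁, h₁⟩ := dat hG hs
  obtain ⟨B₂, N₀, h₂⟩ := pairW h1 h2 hG P P h h
  refine ⟨(Tup B₂).card * (B₂ * B₂), B₁ + N₀, fun M hM => ?_⟩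
  by_cases hex : ∃ x y : ℂ, x ^ M = 1 ∧ y ^ M = 1 ∧
      M ^ 49 ≤ orderOf ((x, y) : ℂ × ℂ) ^ 50 ∧ U x y ∧ ¬ Rel (B₁ + N₀) x y
  swap
  · exact ⟨∅, by simp, fun x y a b c d e => absurd ⟨x, y, a, b, c, d, e⟩ hex⟩
  have hd : ∀ x y : ℂ, x ^ M = 1 → y ^ M = 1 → U x y → ¬ Rel (B₁ + N₀) x y →
      ∃ N j, Dat P x y N j ∧ N₀ ≤ N := by
    intro x y a b c d
    obtain ⟨N, j, e⟩ := h₁ x y ⟨M, hM, a⟩ ⟨M, hM, b⟩ c fun r => d (r.mono (Nat.le_add_right _ _))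
    refine ⟨N, j, e, ?_⟩
    by_contra f
    exact d (rel_of_pow _ e.pos ((not_le.1 f).le.trans (Nat.le_add_left _ _)) e.px)
  obtain ⟨x₀, y₀, a₀, b₀, c₀, d₀, e₀⟩ := hex
  obtain ⟨N₁, j₀, D₀, n₀⟩ := hd x₀ y₀ a₀ b₀ d₀ e₀
  have pw : ∀ (z : ℂ) (i : ℕ), z ^ M = 1 → (z ^ i) ^ M = 1 := fun z i hz => by
    rw [← pow_mul, mul_comm, pow_mul, hz, one_pow]
  refine ⟨(Tup B₂).biUnion fun τ =>
    (nthRoots τ.1 ((x₀ ^ j₀) ^ τ.2.1 * (y₀ ^ j₀) ^ τ.2.2.1)).toFinset ×ˢ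
    (nthRoots τ.1 ((x₀ ^ j₀) ^ τ.2.2.2.1 * (y₀ ^ j₀) ^ τ.2.2.2.2)).toFinset,
    card_biUnion_le_card_mul _ _ _ fun τ hτ => ?_, ?_⟩
  · have t : τ.1 ≤ B₂ := (mem_Icc.1 (mem_product.1 hτ).1).2
    rw [card_product]
    exact Nat.mul_le_mul ((card_roots_le _ _).trans t) ((card_roots_le _ _).trans t)
  intro x y a b c d e
  obtain ⟨N, j, D, n⟩ := hd x y a b d e
  rw [D₀.orderOf] at c₀
  rw [D.orderOf] at c ⊢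
  obtain ⟨m, p, q, r, s, m0, m1, hp, hq, hr, hs', e1, e2⟩ := h₂ (min N₁ N) M (x₀ ^ j₀) (y₀ ^ j₀)
    (x ^ j) (y ^ j) (le_min n₀ n) hM (by
      rcases le_total N₁ N with l | l
      · rw [min_eq_left l]; exact c₀
      · rw [min_eq_right l]; exact c)
    (pw _ _ a₀) (pw _ _ b₀) (pw _ _ a) (pw _ _ b)
    (fun k k0 k1 k2 => (min_le_left _ _).trans (D₀.le k k0 k1 k2)) D₀.ne D.ne
    (D₀.tiny.trans (exp_mono' (min_le_left _ _) (by norm_num)))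
    (D.tiny.trans (exp_mono' (min_le_right _ _) (by norm_num)))
  refine ⟨j, D.cop, mem_biUnion.2 ⟨(m, p, q, r, s), ?_, ?_⟩⟩
  · simp only [Tup, mem_product, mem_Icc, ← abs_le]
    exact ⟨⟨m0, m1⟩, hp, hq, hr, hs'⟩
  · simp only [mem_product, Multiset.mem_toFinset, mem_nthRoots m0]
    exact ⟨e1, e2⟩

end Pool.Agent.MP_c1891a_nt.H43
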